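import Mathlib

/-!
# The product formula inequality for a determinant of products of coordinates

`K` is a field with absolute values satisfying the product formula, `v i l` are non zero vectors
(`i` a row, `l` a factor), `M i j = ∏ l, v i l (J j l)`.  If `det M ≠ 0` and `det M` is `B` times
smaller than expected at one non archimedean place, then
`- log B ≤ ∑ i, ∑ l, logHeight (v i l) + totalWeight K * log N!`.
-/

namespace Pool.Agent.H73.HK

open Height Height.AdmissibleAbsValues Function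
open scoped BigOperators

section ProductFormula

variable {K : Type*} [Field K] [AdmissibleAbsValues K]

/-- the local maxima are `1` for almost all non archimedean places. -/
theorem pf_fin {ι : Type*} [Finite ι] {x : ι → K} (hx : x ≠ 0) :
    (fun v : nonarchAbsVal (K := K) ↦ ⨆ i, v.val (x i)).HasFiniteMulSupport := by
  have : Nonempty {j // x j ≠ 0} := nonempty_subtype.mpr <| ne_iff.mp hx
  suffices h : (fun v : nonarchAbsVal (K := K) ↦ ⨆ i : {j // x j ≠ 0},
      v.val (x i)).HasFiniteMulSupport by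
    have he : (fun v : nonarchAbsVal (K := K) ↦ ⨆ i, v.val (x i)) =
        fun v : nonarchAbsVal (K := K) ↦ ⨆ i : {j // x j ≠ 0}, v.val (x i) := by
      funext v
      obtain ⟨i, hi⟩ : ∃ j, x j ≠ 0 := Function.ne_iff.mp hx
      have : Nonempty ι := .intro i
      refine le_antisymm (ciSup_le fun j ↦ ?_)
        (ciSup_le fun ⟨j, hj⟩ ↦ Finite.le_ciSup_of_le j le_rfl)
      rcases eq_or_ne (x j) 0 with h | h
      · rw [h, v.val.map_zero]
        exact Real.iSup_nonneg' ⟨⟨i, hi⟩, v.val.nonneg ..⟩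
      · exact Finite.le_ciSup_of_le (⟨j, h⟩ : {j // x j ≠ 0}) le_rfl
    rw [he]
    exact h
  fun_prop (disch := grind)

/-- multiplicative height, product over a finite family of non zero vectors. -/
theorem pf_prod {I ι : Type*} [Fintype I] [Finite ι] (y : I → ι → K) (hy : ∀ e, y e ≠ 0) :
    ∏ e, mulHeight (y e) =
      ((archAbsVal (K := K)).map fun u ↦ ∏ e, ⨆ j, u (y e j)).prod *
        ∏ᶠ u : nonarchAbsVal (K := K), ∏ e, ⨆ j, u.val (y e j) := by
  rw [Multiset.prod_map_prod, finprod_prod_comm _ _ fun e _ => pf_fin (hy e),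
    ← Finset.prod_mul_distrib]
  exact Finset.prod_congr rfl fun e _ => mulHeight_eq (hy e)

/-- the absolute value of a sign is `1`. -/
theorem pf_sign {R : Type*} [Ring R] (u : AbsoluteValue R ℝ) {α : Type*} [Fintype α] [DecidableEq α]
    (s : Equiv.Perm α) (t : R) : u (Equiv.Perm.sign s • t) = u t := by
  rcases Int.units_eq_one_or (Equiv.Perm.sign s) with h | h
  · rw [h, one_smul]
  · rw [h, Units.neg_smul, one_smul, u.map_neg]

theorem pf_le_iSup {ι : Type*} [Finite ι] (u : AbsoluteValue K ℝ) (x : ι → K) (j : ι) :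
    u (x j) ≤ ⨆ j, u (x j) := Finite.le_ciSup_of_le j le_rfl

theorem pf_iSup_nonneg {ι : Type*} (u : AbsoluteValue K ℝ) (x : ι → K) : 0 ≤ ⨆ j, u (x j) :=
  Real.iSup_nonneg fun _ => u.nonneg _

/-- each term of the Leibniz formula is bounded by the product of the local maxima. -/
theorem pf_term {N L ι : Type*} [Fintype N] [DecidableEq N] [Fintype L] [Finite ι]
    (v : N → L → ι → K) (J : N → L → ι) (u : AbsoluteValue K ℝ) (s : Equiv.Perm N) :
    u (Equiv.Perm.sign s • ∏ i, (Matrix.of fun i j => ∏ l, v i l (J j l)) (s i) i) ≤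
      ∏ i, ∏ l, ⨆ j, u (v i l j) := by
  rw [pf_sign, map_prod, ← Equiv.prod_comp s fun i => ∏ l, ⨆ j, u (v i l j)]
  refine Finset.prod_le_prod (fun i _ => u.nonneg _) fun i _ => ?_
  rw [Matrix.of_apply, map_prod]
  exact Finset.prod_le_prod (fun l _ => u.nonneg _) fun l _ => pf_le_iSup u _ _

/-- archimedean places (any absolute value). -/
theorem pf_arch {N L ι : Type*} [Fintype N] [DecidableEq N] [Fintype L] [Finite ι]
    (v : N → L → ι → K) (J : N → L → ι) (u : AbsoluteValue K ℝ) :
    u (Matrix.det (Matrix.of fun i j => ∏ l, v i l (J j l))) ≤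
      (Fintype.card N).factorial * ∏ i, ∏ l, ⨆ j, u (v i l j) := by
  rw [Matrix.det_apply]
  refine (IsAbsoluteValue.abv_sum u _ _).trans ?_
  refine (Finset.sum_le_sum fun s _ => pf_term v J u s).trans ?_
  rw [Finset.sum_const, Finset.card_univ, Fintype.card_perm, nsmul_eq_mul]

/-- non archimedean places. -/
theorem pf_sum {α : Type*} (u : AbsoluteValue K ℝ) (hu : IsNonarchimedean u) {S : ℝ} (hS : 0 ≤ S)
    (s : Finset α) (f : α → K) (hf : ∀ a ∈ s, u (f a) ≤ S) : u (∑ a ∈ s, f a) ≤ S := by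
  classical
  induction s using Finset.induction_on with
  | empty => simpa using hS
  | insert a s ha ih =>
    rw [Finset.sum_insert ha]
    refine (hu _ _).trans (max_le (hf a (Finset.mem_insert_self a s)) (ih fun b hb => ?_))
    exact hf b (Finset.mem_insert_of_mem hb)

theorem pf_nonarch {N L ι : Type*} [Fintype N] [DecidableEq N] [Fintype L] [Finite ι]
    (v : N → L → ι → K) (J : N → L → ι) (u : AbsoluteValue K ℝ) (hu : IsNonarchimedean u) :
    u (Matrix.det (Matrix.of fun i j => ∏ l, v i l (J j l))) ≤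
      ∏ i, ∏ l, ⨆ j, u (v i l j) := by
  rw [Matrix.det_apply]
  exact pf_sum u hu (Finset.prod_nonneg fun i _ => Finset.prod_nonneg fun l _ =>
    pf_iSup_nonneg u _) _ _ fun s _ => pf_term v J u s

/-- PRODUCT FORMULA INEQUALITY, multiplicative form. -/
theorem pf_mul {N L ι : Type*} [Fintype N] [DecidableEq N] [Fintype L] [Finite ι]
    (v : N → L → ι → K) (J : N → L → ι) (hv : ∀ i l, v i l ≠ 0)
    (hdet : Matrix.det (Matrix.of fun i j => ∏ l, v i l (J j l)) ≠ 0)
    {w : AbsoluteValue K ℝ} (hwm : w ∈ nonarchAbsVal (K := K)) {B : ℝ} (hB0 : 0 < B) (j0 : ι)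
    (hB : w (Matrix.det (Matrix.of fun i j => ∏ l, v i l (J j l))) ≤
      B * ∏ i, ∏ l, w (v i l j0)) :
    1 ≤ ((Fintype.card N).factorial : ℝ) ^ totalWeight K * B * ∏ i, ∏ l, mulHeight (v i l) := by
  classical
  have hprod : ∏ i, ∏ l, mulHeight (v i l) =
      ((archAbsVal (K := K)).map fun u ↦ ∏ i, ∏ l, ⨆ j, u (v i l j)).prod *
        ∏ᶠ u : nonarchAbsVal (K := K), ∏ i, ∏ l, ⨆ j, u.val (v i l j) := by
    have h := pf_prod (fun e : N × L => v e.1 e.2) fun e => hv e.1 e.2
    simp only [Fintype.prod_prod_type] at h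
    exact h
  have hfin : (fun u : nonarchAbsVal (K := K) ↦
      ∏ i, ∏ l, ⨆ j, u.val (v i l j)).HasFiniteMulSupport :=
    HasFiniteMulSupport.prod (fun i => HasFiniteMulSupport.prod (fun l => pf_fin (hv i l)) _) _
  -- the archimedean part
  have harch : ((archAbsVal (K := K)).map fun u ↦
        u (Matrix.det (Matrix.of fun i j => ∏ l, v i l (J j l)))).prod ≤
      ((Fintype.card N).factorial : ℝ) ^ totalWeight K *
        ((archAbsVal (K := K)).map fun u ↦ ∏ i, ∏ l, ⨆ j, u (v i l j)).prod := by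
    have h1 : ((archAbsVal (K := K)).map fun u ↦
          ((Fintype.card N).factorial : ℝ) * ∏ i, ∏ l, ⨆ j, u (v i l j)).prod =
        ((Fintype.card N).factorial : ℝ) ^ totalWeight K *
          ((archAbsVal (K := K)).map fun u ↦ ∏ i, ∏ l, ⨆ j, u (v i l j)).prod := by
      rw [Multiset.prod_map_mul]
      congr 1
      simp [totalWeight]
    rw [← h1]
    exact Multiset.prod_map_le_prod_map₀ _ _ (fun u _ => u.nonneg _) fun u _ => pf_arch v J u
  -- the non archimedean part
  set c : nonarchAbsVal (K := K) → ℝ := fun u => if u.val = w then B else 1 with hc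
  have hcs : ∀ u : nonarchAbsVal (K := K), u ≠ ⟨w, hwm⟩ → c u = 1 := by
    intro u hu
    have : u.val ≠ w := fun h => hu (Subtype.ext h)
    simp [hc, this]
  have hcf : c.HasFiniteMulSupport := by
    refine (Set.finite_singleton (⟨w, hwm⟩ : nonarchAbsVal (K := K))).subset fun u hu => ?_
    by_contra h
    exact hu (hcs u h)
  have hcB : ∏ᶠ u, c u = B := by
    rw [finprod_eq_single c ⟨w, hwm⟩ hcs]
    simp [hc]
  have hnon : (∏ᶠ u : nonarchAbsVal (K := K),
        u.val (Matrix.det (Matrix.of fun i j => ∏ l, v i l (J j l)))) ≤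
      B * ∏ᶠ u : nonarchAbsVal (K := K), ∏ i, ∏ l, ⨆ j, u.val (v i l j) := by
    rw [← hcB, ← finprod_mul_distrib hcf hfin]
    refine finprod_le_finprod (hasFiniteMulSupport hdet) (fun u => u.val.nonneg _)
      (hcf.mul hfin) fun u => ?_
    show u.val _ ≤ c u * ∏ i, ∏ l, ⨆ j, u.val (v i l j)
    by_cases hu : u.val = w
    · simp only [hc, hu, if_true]
      refine hB.trans (mul_le_mul_of_nonneg_left ?_ hB0.le)
      exact Finset.prod_le_prod (fun i _ => Finset.prod_nonneg fun l _ => w.nonneg _) fun i _ =>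
        Finset.prod_le_prod (fun l _ => w.nonneg _) fun l _ => pf_le_iSup w _ _
    · simp only [hc, hu, if_false, one_mul]
      exact pf_nonarch v J u.val (isNonarchimedean u.val u.2)
  have hpf := product_formula hdet
  have h0 : (0 : ℝ) ≤ ∏ᶠ u : nonarchAbsVal (K := K),
      u.val (Matrix.det (Matrix.of fun i j => ∏ l, v i l (J j l))) :=
    finprod_nonneg fun u => u.val.nonneg _
  have h1 : (0 : ℝ) ≤ ((Fintype.card N).factorial : ℝ) ^ totalWeight K *
        ((archAbsVal (K := K)).map fun u ↦ ∏ i, ∏ l, ⨆ j, u (v i l j)).prod := by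
    refine mul_nonneg (by positivity) (Multiset.prod_map_nonneg fun u _ => ?_)
    exact Finset.prod_nonneg fun i _ => Finset.prod_nonneg fun l _ => pf_iSup_nonneg u _
  calc (1 : ℝ) = _ := hpf.symm
    _ ≤ _ := mul_le_mul harch hnon h0 h1
    _ = _ := by rw [hprod]; ring

/-- PRODUCT FORMULA INEQUALITY. -/
theorem pf' {N L ι : Type*} [Fintype N] [DecidableEq N] [Fintype L] [Finite ι]
    (v : N → L → ι → K) (J : N → L → ι) (hv : ∀ i l, v i l ≠ 0)
    (hdet : Matrix.det (Matrix.of fun i j => ∏ l, v i l (J j l)) ≠ 0)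
    {w : AbsoluteValue K ℝ} (hwm : w ∈ nonarchAbsVal (K := K)) {B : ℝ} (hB0 : 0 < B) (j0 : ι)
    (hB : w (Matrix.det (Matrix.of fun i j => ∏ l, v i l (J j l))) ≤
      B * ∏ i, ∏ l, w (v i l j0)) :
    - Real.log B ≤ ∑ i, ∑ l, logHeight (v i l) +
      totalWeight K * Real.log ((Fintype.card N).factorial : ℝ) := by
  have h := pf_mul v J hv hdet hwm hB0 j0 hB
  have hf : (0 : ℝ) < ((Fintype.card N).factorial : ℝ) := by exact_mod_cast Nat.factorial_pos _
  have hp : (0 : ℝ) < ∏ i, ∏ l, mulHeight (v i l) :=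
    Finset.prod_pos fun i _ => Finset.prod_pos fun l _ => mulHeight_pos _
  have h2 := Real.log_le_log one_pos h
  rw [Real.log_one, Real.log_mul (mul_pos (pow_pos hf _) hB0).ne' hp.ne',
    Real.log_mul (pow_pos hf _).ne' hB0.ne', Real.log_pow,
    Real.log_prod fun i _ => (Finset.prod_pos fun l _ => mulHeight_pos _).ne'] at h2
  have h3 : ∑ i, Real.log (∏ l, mulHeight (v i l)) = ∑ i, ∑ l, logHeight (v i l) := by
    refine Finset.sum_congr rfl fun i _ => ?_
    rw [Real.log_prod fun l _ => (mulHeight_pos _).ne']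
    rfl
  rw [h3] at h2
  linarith

/-- PRODUCT FORMULA INEQUALITY, with the types of the interface. -/
theorem pf {N L k : ℕ} (v : Fin N → Fin L → Fin (k + 1) → K) (J : Fin N → Fin L → Fin (k + 1))
    (hv : ∀ i l, v i l ≠ 0)
    (hdet : Matrix.det (Matrix.of fun i j => ∏ l, v i l (J j l)) ≠ 0)
    {w : AbsoluteValue K ℝ} (hwm : w ∈ nonarchAbsVal (K := K))
    (_hw : ∀ i l j, w (v i l j) ≤ w (v i l 0)) {B : ℝ} (hB0 : 0 < B)
    (hB : w (Matrix.det (Matrix.of fun i j => ∏ l, v i l (J j l))) ≤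
      B * ∏ i, ∏ l, w (v i l 0)) :
    - Real.log B ≤ ∑ i, ∑ l, logHeight (v i l) +
      totalWeight K * Real.log (N.factorial : ℝ) := by
  have h := pf' v J hv hdet hwm hB0 0 hB
  rwa [Fintype.card_fin] at h

end ProductFormula

end Pool.Agent.H73.HK
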