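import Mathlib

/-!
# An integral grid point with prescribed residues off a hypersurface (module PT)
-/

namespace Pool.Agent.H73.HK

open Finset

/-- A nonzero polynomial of total degree at most `D` over a field of characteristic zero is
nonzero at an integral point with prescribed residues modulo `p` and coordinates in
`[0, p (D + 1))`. -/
theorem grid_point {K : Type*} [Field K] [CharZero K] {n D p : ℕ} (hp : 0 < p)
    (P : MvPolynomial (Fin n) K) (hP : P ≠ 0) (hD : P.totalDegree ≤ D) (a : Fin n → ℤ) :
    ∃ y : Fin n → ℤ, (∀ i, (p : ℤ) ∣ y i - a i) ∧ (∀ i, 0 ≤ y i ∧ y i < p * (D + 1)) ∧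
      MvPolynomial.eval (fun i => (y i : K)) P ≠ 0 := by
  classical
  have hp' : (0 : ℤ) < p := by exact_mod_cast hp
  let g : Fin n → ℕ → ℤ := fun i k => a i % p + p * k
  have hg : ∀ i, Function.Injective fun k : ℕ => ((g i k : ℤ) : K) := by
    intro i k l hkl
    have h1 : g i k = g i l := Int.cast_injective hkl
    have h2 : (p : ℤ) * k = p * l := by
      simp only [g] at h1
      linarith
    have h3 : (k : ℤ) = l := by
      exact mul_left_cancel₀ hp'.ne' h2
    exact_mod_cast h3
  by_contra hcon
  push Not at hcon
  apply hP
  refine MvPolynomial.eq_zero_of_eval_zero_at_prod_finset P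
    (fun i => (Finset.range (D + 1)).image fun k => ((g i k : ℤ) : K)) ?_ ?_
  · intro i
    rw [Finset.card_image_of_injective _ (hg i), Finset.card_range]
    exact Nat.lt_succ_of_le ((MvPolynomial.degreeOf_le_totalDegree P i).trans hD)
  · intro x hx
    have h1 : ∀ i, ∃ k ∈ Finset.range (D + 1), ((g i k : ℤ) : K) = x i := by
      intro i
      exact Finset.mem_image.mp (hx i)
    choose k hk hkx using h1
    have h2 := hcon (fun i => g i (k i)) (by
      intro i
      simp only [g]
      have h3 : a i % p + p * (k i : ℤ) - a i = p * ((k i : ℤ) - a i / p) := by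
        have := Int.emod_add_mul_ediv (a i) p
        linarith
      rw [h3]
      exact dvd_mul_right _ _) (by
      intro i
      have h4 : 0 ≤ a i % (p : ℤ) := Int.emod_nonneg _ hp'.ne'
      have h5 : a i % (p : ℤ) < p := Int.emod_lt_of_pos _ hp'
      have h6 : (k i : ℤ) ≤ D := by
        have := Finset.mem_range.mp (hk i)
        exact_mod_cast Nat.lt_succ_iff.mp this
      have h7 : (0 : ℤ) ≤ k i := Int.natCast_nonneg _
      simp only [g]
      constructor
      · positivity
      · nlinarith)
    have h8 : (fun i => ((g i (k i) : ℤ) : K)) = x := funext hkx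
    rw [h8] at h2
    exact h2

end Pool.Agent.H73.HK
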