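import Mathlib

/-!
# A p-adic interpolation determinant (module DET of the hyperkaehler fourfold theorem)

`An F` says that the function `F` of a vector of `p`-adic integers is, modulo every power of `p`,
a polynomial in the variables `p * n i`.  `det_bound` is the upper bound for the `p`-adic size of
the determinant of the values of `N` such functions at `N` points, when all the functions factor
through a linear map whose image spans a space of dimension at most two.
-/

namespace Pool.Agent.H73.HK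

open Finset

/-! ### A determinant which is a low rank matrix modulo `t` -/

theorem det_low_rank {R : Type*} [CommRing R] [IsDomain R] {N : ℕ} {κ : Type*} [Fintype κ]
    (t : R) (W : Fin N → κ → R) (C : κ → Fin N → R) (E : Fin N → Fin N → R) :
    t ^ (N - Fintype.card κ) ∣
      Matrix.det (Matrix.of fun i j => (∑ a, W i a * C a j) + t * E i j) := by
  classical
  set A : Fin N → Fin N → R := fun i j => ∑ a, W i a * C a j with hA
  have key : Matrix.det (Matrix.of fun i j => (∑ a, W i a * C a j) + t * E i j)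
      = ∑ s : Finset (Fin N), t ^ s.card *
          (Matrix.detRowAlternating : (Fin N → R) [⋀^Fin N]→ₗ[R] R) (s.piecewise E A) := by
    have h1 : Matrix.det (Matrix.of fun i j => (∑ a, W i a * C a j) + t * E i j)
        = (Matrix.detRowAlternating : (Fin N → R) [⋀^Fin N]→ₗ[R] R)
            ((fun i => t • E i) + A) := by
      show (Matrix.detRowAlternating : (Fin N → R) [⋀^Fin N]→ₗ[R] R) _ = _
      congr 1
      funext i j
      simp [hA, Matrix.of_apply, add_comm]
    rw [h1]
    have h2 := (Matrix.detRowAlternating : (Fin N → R) [⋀^Fin N]→ₗ[R] R).toMultilinearMap.map_add_univ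
      (fun i => t • E i) A
    rw [show (Matrix.detRowAlternating : (Fin N → R) [⋀^Fin N]→ₗ[R] R) ((fun i => t • E i) + A)
      = (Matrix.detRowAlternating : (Fin N → R) [⋀^Fin N]→ₗ[R] R).toMultilinearMap
          ((fun i => t • E i) + A) from rfl, h2]
    refine Finset.sum_congr rfl fun s _ => ?_
    have h3 := (Matrix.detRowAlternating : (Fin N → R) [⋀^Fin N]→ₗ[R] R).toMultilinearMap.map_piecewise_smul
      (fun _ => t) (s.piecewise E A) s
    have h4 : s.piecewise (fun i => t • (s.piecewise E A) i) (s.piecewise E A)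
        = s.piecewise (fun i => t • E i) A := by
      funext i
      by_cases hi : i ∈ s <;> simp [Finset.piecewise, hi]
    rw [h4] at h3
    rw [h3]
    simp [Finset.prod_const, smul_eq_mul]
  rw [key]
  refine Finset.dvd_sum fun s _ => ?_
  by_cases hs : N - Fintype.card κ ≤ s.card
  · exact Dvd.dvd.mul_right (pow_dvd_pow t hs) _
  · have hz : (Matrix.detRowAlternating : (Fin N → R) [⋀^Fin N]→ₗ[R] R) (s.piecewise E A) = 0 := by
      apply AlternatingMap.map_linearDependent
      intro hli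
      have hli' : LinearIndependent R (fun i : {i : Fin N // i ∉ s} => A i.1) := by
        have h5 := hli.comp (fun i : {i : Fin N // i ∉ s} => i.1) Subtype.val_injective
        have h6 : (s.piecewise E A) ∘ (fun i : {i : Fin N // i ∉ s} => i.1)
            = fun i : {i : Fin N // i ∉ s} => A i.1 := by
          funext i
          simp [Finset.piecewise, i.2]
        rw [h6] at h5
        exact h5
      have hle := linearIndependent_le_span' _ hli' (Set.range C) (by
        rintro _ ⟨i, rfl⟩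
        have : A i.1 = ∑ a, W i.1 a • C a := by
          funext j
          simp [hA, Finset.sum_apply]
        show A i.1 ∈ Submodule.span R (Set.range C)
        rw [this]
        exact Submodule.sum_mem _ fun a _ =>
          Submodule.smul_mem _ _ (Submodule.subset_span ⟨a, rfl⟩))
      have h1 : Fintype.card {i : Fin N // i ∉ s} ≤ Fintype.card (Set.range C) := by
        have := hle
        rw [Cardinal.mk_fintype] at this
        exact_mod_cast this
      have h2 : Fintype.card (Set.range C) ≤ Fintype.card κ := Fintype.card_range_le C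
      have h3 : Fintype.card {i : Fin N // i ∉ s} = N - s.card := by
        rw [Fintype.card_subtype_compl]
        simp
      omega
    rw [hz, mul_zero]
    exact dvd_zero _

/-! ### Functions which are polynomials in `p * n` modulo every power of `p` -/

section An

variable {p : ℕ} [Fact p.Prime] {r : ℕ}

/-- `F` is, modulo every power of `p`, a polynomial function of `p * n`. -/
def An (F : (Fin r → ℤ_[p]) → ℤ_[p]) : Prop :=
  ∀ D : ℕ, ∃ Q : MvPolynomial (Fin r) ℤ_[p],
    ∀ n : Fin r → ℤ_[p], (p : ℤ_[p]) ^ D ∣ F n - MvPolynomial.eval (fun i => (p : ℤ_[p]) * n i) Q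

theorem An.const (c : ℤ_[p]) : An (fun _ : Fin r → ℤ_[p] => c) :=
  fun D => ⟨MvPolynomial.C c, fun n => by simp⟩

theorem An.add {F G : (Fin r → ℤ_[p]) → ℤ_[p]} (hF : An F) (hG : An G) :
    An (fun n => F n + G n) := by
  intro D
  obtain ⟨P, hP⟩ := hF D
  obtain ⟨Q, hQ⟩ := hG D
  refine ⟨P + Q, fun n => ?_⟩
  have := dvd_add (hP n) (hQ n)
  rw [map_add]
  convert this using 1
  ring

theorem An.mul {F G : (Fin r → ℤ_[p]) → ℤ_[p]} (hF : An F) (hG : An G) :
    An (fun n => F n * G n) := by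
  intro D
  obtain ⟨P, hP⟩ := hF D
  obtain ⟨Q, hQ⟩ := hG D
  refine ⟨P * Q, fun n => ?_⟩
  rw [map_mul]
  have h : F n * G n - MvPolynomial.eval (fun i => (p : ℤ_[p]) * n i) P *
      MvPolynomial.eval (fun i => (p : ℤ_[p]) * n i) Q
      = (F n - MvPolynomial.eval (fun i => (p : ℤ_[p]) * n i) P) * G n
        + MvPolynomial.eval (fun i => (p : ℤ_[p]) * n i) P *
          (G n - MvPolynomial.eval (fun i => (p : ℤ_[p]) * n i) Q) := by ring
  rw [h]
  exact dvd_add (Dvd.dvd.mul_right (hP n) _) (Dvd.dvd.mul_left (hQ n) _)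

theorem An.sum {ι : Type*} (s : Finset ι) {F : ι → (Fin r → ℤ_[p]) → ℤ_[p]}
    (hF : ∀ i ∈ s, An (F i)) : An (fun n => ∑ i ∈ s, F i n) := by
  classical
  induction s using Finset.induction_on with
  | empty => simpa using An.const (r := r) (0 : ℤ_[p])
  | insert a s ha ih =>
    have h1 := (hF a (Finset.mem_insert_self a s)).add
      (ih fun i hi => hF i (Finset.mem_insert_of_mem hi))
    simpa [Finset.sum_insert ha] using h1

theorem An.prod {ι : Type*} (s : Finset ι) {F : ι → (Fin r → ℤ_[p]) → ℤ_[p]}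
    (hF : ∀ i ∈ s, An (F i)) : An (fun n => ∏ i ∈ s, F i n) := by
  classical
  induction s using Finset.induction_on with
  | empty => simpa using An.const (r := r) (1 : ℤ_[p])
  | insert a s ha ih =>
    have h1 := (hF a (Finset.mem_insert_self a s)).mul
      (ih fun i hi => hF i (Finset.mem_insert_of_mem hi))
    simpa [Finset.prod_insert ha] using h1

/-- composition with an affine map `ν ↦ n₀ + ∑ k, ν k • e k` -/
theorem An.affine {F : (Fin r → ℤ_[p]) → ℤ_[p]} (hF : An F) {d : ℕ} (n₀ : Fin r → ℤ_[p])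
    (e : Fin d → Fin r → ℤ_[p]) :
    An (fun ν : Fin d → ℤ_[p] => F (fun i => n₀ i + ∑ k, ν k * e k i)) := by
  intro D
  obtain ⟨P, hP⟩ := hF D
  refine ⟨MvPolynomial.aeval (fun i : Fin r => MvPolynomial.C ((p : ℤ_[p]) * n₀ i)
      + ∑ k : Fin d, MvPolynomial.X k * MvPolynomial.C (e k i)) P, fun ν => ?_⟩
  have h := hP (fun i => n₀ i + ∑ k, ν k * e k i)
  have h2 : MvPolynomial.eval (fun k => (p : ℤ_[p]) * ν k)
      (MvPolynomial.aeval (fun i : Fin r => MvPolynomial.C ((p : ℤ_[p]) * n₀ i)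
        + ∑ k : Fin d, MvPolynomial.X k * MvPolynomial.C (e k i)) P)
      = MvPolynomial.eval (fun i => (p : ℤ_[p]) * (n₀ i + ∑ k, ν k * e k i)) P := by
    rw [MvPolynomial.aeval_def, ← MvPolynomial.coe_eval₂Hom]
    rw [← RingHom.comp_apply]
    have h3 : (MvPolynomial.eval (fun k => (p : ℤ_[p]) * ν k)).comp
        (MvPolynomial.eval₂Hom (algebraMap ℤ_[p] (MvPolynomial (Fin d) ℤ_[p]))
          (fun i : Fin r => MvPolynomial.C ((p : ℤ_[p]) * n₀ i)
            + ∑ k : Fin d, MvPolynomial.X k * MvPolynomial.C (e k i)))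
        = MvPolynomial.eval (fun i => (p : ℤ_[p]) * (n₀ i + ∑ k, ν k * e k i)) := by
      apply MvPolynomial.ringHom_ext
      · intro c
        simp
      · intro i
        simp only [RingHom.comp_apply, MvPolynomial.coe_eval₂Hom, MvPolynomial.eval₂_X, map_add,
          MvPolynomial.eval_C, map_sum, map_mul, MvPolynomial.eval_X]
        rw [mul_add, Finset.mul_sum]
        congr 1
        exact Finset.sum_congr rfl fun k _ => by ring
    rw [h3]
  rw [h2]
  exact h

theorem An.shift {F : (Fin r → ℤ_[p]) → ℤ_[p]} (hF : An F) (n₀ : Fin r → ℤ_[p]) :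
    An (fun n => F (n + n₀)) := by
  have h := hF.affine n₀ (fun k : Fin r => (Pi.single k 1 : Fin r → ℤ_[p]))
  have h2 : (fun ν : Fin r → ℤ_[p] => F (fun i => n₀ i + ∑ k, ν k * (Pi.single k 1 : Fin r → ℤ_[p]) i))
      = fun n => F (n + n₀) := by
    funext n
    congr 1
    funext i
    simp [Pi.single_apply, add_comm]
  rw [h2] at h
  exact h

/-- the coordinate functions `n ↦ p * n i` -/
theorem An.coord (i : Fin r) : An (fun n : Fin r → ℤ_[p] => (p : ℤ_[p]) * n i) :=
  fun D => ⟨MvPolynomial.X i, fun n => by simp⟩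

/-- a function which is a limit, modulo powers of `p`, of functions with `An` -/
theorem An.of_approx {F : (Fin r → ℤ_[p]) → ℤ_[p]}
    (h : ∀ D : ℕ, ∃ G : (Fin r → ℤ_[p]) → ℤ_[p], An G ∧ ∀ n, (p : ℤ_[p]) ^ D ∣ F n - G n) :
    An F := by
  intro D
  obtain ⟨G, hG, hFG⟩ := h D
  obtain ⟨Q, hQ⟩ := hG D
  refine ⟨Q, fun n => ?_⟩
  have := dvd_add (hFG n) (hQ n)
  convert this using 1
  ring

/-- the index set of the monomials of degree less than `D` in two variables -/
abbrev Mon (D : ℕ) : Type := Σ s : Fin D, Fin (s.1 + 1)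

theorem card_Mon (D : ℕ) : Fintype.card (Mon D) = D * (D + 1) / 2 := by
  have h1 : Fintype.card (Mon D) = ∑ s : Fin D, (s.1 + 1) := by
    simp [Mon, Fintype.card_sigma]
  have h2 : ∑ s : Fin D, (s.1 + 1) = ∑ s ∈ Finset.range D, (s + 1) :=
    Fin.sum_univ_eq_sum_range (fun s => s + 1) D
  rw [h1, h2]
  have h3 : (∑ s ∈ Finset.range D, (s + 1)) * 2 = D * (D + 1) := by
    clear h1 h2
    induction D with
    | zero => simp
    | succ k ih =>
      rw [Finset.sum_range_succ, add_mul, ih]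
      ring
  omega

/-- modulo `p ^ D` a polynomial in `p * ν` is a combination of the monomials of degree `< D` -/
theorem poly_trunc (D : ℕ) (H : MvPolynomial (Fin 2) ℤ_[p]) :
    ∃ C : Mon D → ℤ_[p], ∀ ν : Fin 2 → ℤ_[p],
      (p : ℤ_[p]) ^ D ∣ MvPolynomial.eval (fun k => (p : ℤ_[p]) * ν k) H
        - ∑ x : Mon D, (ν 0 ^ x.2.1 * ν 1 ^ (x.1.1 - x.2.1)) * C x := by
  classical
  induction H using MvPolynomial.induction_on' with
  | monomial u c =>
    have hev : ∀ ν : Fin 2 → ℤ_[p], MvPolynomial.eval (fun k => (p : ℤ_[p]) * ν k)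
        (MvPolynomial.monomial u c) = (p : ℤ_[p]) ^ (u 0 + u 1) * (c * (ν 0 ^ u 0 * ν 1 ^ u 1)) := by
      intro ν
      rw [MvPolynomial.eval_monomial, Finsupp.prod_fintype _ _ (fun i => pow_zero _)]
      rw [Fin.prod_univ_two, mul_pow, mul_pow, pow_add]
      ring
    by_cases h : u 0 + u 1 < D
    · refine ⟨Pi.single (⟨⟨u 0 + u 1, h⟩, ⟨u 0, by simp⟩⟩ : Mon D)
        ((p : ℤ_[p]) ^ (u 0 + u 1) * c), fun ν => ?_⟩
      rw [hev]
      rw [Finset.sum_eq_single (⟨⟨u 0 + u 1, h⟩, ⟨u 0, by simp⟩⟩ : Mon D)]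
      · rw [Pi.single_eq_same]
        have h5 : (u 0 + u 1) - u 0 = u 1 := by omega
        simp only [h5]
        convert dvd_zero _ using 1
        ring
      · intro x _ hx
        rw [Pi.single_eq_of_ne hx, mul_zero]
      · intro hx
        exact absurd (Finset.mem_univ _) hx
    · refine ⟨0, fun ν => ?_⟩
      rw [hev]
      simp only [Pi.zero_apply, mul_zero, Finset.sum_const_zero, sub_zero]
      exact Dvd.dvd.mul_right (pow_dvd_pow _ (by omega)) _
  | add P Q hP hQ =>
    obtain ⟨C₁, h₁⟩ := hP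
    obtain ⟨C₂, h₂⟩ := hQ
    refine ⟨C₁ + C₂, fun ν => ?_⟩
    have := dvd_add (h₁ ν) (h₂ ν)
    rw [map_add]
    convert this using 1
    simp only [Pi.add_apply, mul_add, Finset.sum_add_distrib]
    ring

/-! ### The linear map -/

/-- a linear map with image of rank at most `δ` has, up to its kernel, `δ` coordinates -/
theorem coords {m δ : ℕ} (V : (Fin r → ℤ_[p]) →ₗ[ℤ_[p]] (Fin m → ℚ_[p]))
    (hV : Module.finrank ℚ_[p] (Submodule.span ℚ_[p] (Set.range V)) ≤ δ) :
    ∃ e : Fin δ → Fin r → ℤ_[p], ∀ n : Fin r → ℤ_[p], ∃ c : Fin δ → ℤ_[p],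
      V (n - fun i => ∑ k, c k * e k i) = 0 := by
  classical
  let M := LinearMap.range V
  have hfin : Module.Finite ℤ_[p] M := inferInstance
  have htf : Module.IsTorsionFree ℤ_[p] M := inferInstance
  have hfree : Module.Free ℤ_[p] M := inferInstance
  let d := Module.finrank ℤ_[p] M
  let b : Module.Basis (Fin d) ℤ_[p] M := Module.finBasis ℤ_[p] M
  have hli : LinearIndependent ℤ_[p] (fun k => (b k : Fin m → ℚ_[p])) :=
    b.linearIndependent.map' M.subtype (Submodule.ker_subtype M)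
  have hli2 : LinearIndependent ℚ_[p] (fun k => (b k : Fin m → ℚ_[p])) :=
    (LinearIndependent.iff_fractionRing ℤ_[p] ℚ_[p]).mp hli
  have hd : d ≤ δ := by
    have hmem : ∀ k, (b k : Fin m → ℚ_[p]) ∈ Submodule.span ℚ_[p] (Set.range V) := by
      intro k
      obtain ⟨n, hn⟩ := (b k).2
      exact Submodule.subset_span ⟨n, hn⟩
    have h3 : LinearIndependent ℚ_[p]
        (fun k => (⟨b k, hmem k⟩ : Submodule.span ℚ_[p] (Set.range V))) := by
      apply LinearIndependent.of_comp (Submodule.subtype _)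
      exact hli2
    have h4 := h3.fintype_card_le_finrank
    rw [Fintype.card_fin] at h4
    exact h4.trans hV
  choose g hg using fun k => (b k).2
  let e : Fin δ → Fin r → ℤ_[p] := fun k => if h : k.1 < d then g ⟨k.1, h⟩ else 0
  have hspan : ∀ x : M, ∃ c : Fin δ → ℤ_[p], ∑ k, c k • V (e k) = (x : Fin m → ℚ_[p]) := by
    intro x
    have h5 : (x : Fin m → ℚ_[p]) ∈ Submodule.span ℤ_[p] (Set.range fun k => V (e k)) := by
      have h6 := b.sum_repr x
      have h7 : (x : Fin m → ℚ_[p]) = ∑ k, (b.repr x) k • V (g k) := by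
        calc (x : Fin m → ℚ_[p]) = ((∑ i, (b.repr x) i • b i : M) : Fin m → ℚ_[p]) := by rw [h6]
          _ = ∑ k, (b.repr x) k • (b k : Fin m → ℚ_[p]) := by
              rw [Submodule.coe_sum]
              rfl
          _ = ∑ k, (b.repr x) k • V (g k) := by
              exact Finset.sum_congr rfl fun k _ => by rw [hg k]
      rw [h7]
      refine Submodule.sum_mem _ fun k _ => Submodule.smul_mem _ _ (Submodule.subset_span ?_)
      refine ⟨⟨k.1, lt_of_lt_of_le k.2 hd⟩, ?_⟩
      simp [e]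
    exact (Submodule.mem_span_range_iff_exists_fun ℤ_[p]).mp h5
  refine ⟨e, fun n => ?_⟩
  obtain ⟨c, hc⟩ := hspan ⟨V n, LinearMap.mem_range_self V n⟩
  refine ⟨c, ?_⟩
  have h8 : (fun i => ∑ k, c k * e k i) = ∑ k, c k • e k := by
    funext i
    simp [Finset.sum_apply]
  rw [h8, map_sub, map_sum]
  simp only [map_smul]
  rw [hc]
  simp

/-- the case `δ = 2` -/
theorem two_coords {m : ℕ} (V : (Fin r → ℤ_[p]) →ₗ[ℤ_[p]] (Fin m → ℚ_[p]))
    (hV : Module.finrank ℚ_[p] (Submodule.span ℚ_[p] (Set.range V)) ≤ 2) :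
    ∃ e : Fin 2 → Fin r → ℤ_[p], ∀ n : Fin r → ℤ_[p], ∃ c : Fin 2 → ℤ_[p],
      V (n - fun i => ∑ k, c k * e k i) = 0 :=
  coords V hV

/-- modulo `p ^ D` a polynomial in `p * ν` is a combination of the monomials with all
exponents `< D` -/
theorem poly_trunc_box {δ : ℕ} (D : ℕ) (H : MvPolynomial (Fin δ) ℤ_[p]) :
    ∃ C : (Fin δ → Fin D) → ℤ_[p], ∀ ν : Fin δ → ℤ_[p],
      (p : ℤ_[p]) ^ D ∣ MvPolynomial.eval (fun k => (p : ℤ_[p]) * ν k) H
        - ∑ x : Fin δ → Fin D, (∏ k, ν k ^ (x k : ℕ)) * C x := by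
  classical
  induction H using MvPolynomial.induction_on' with
  | monomial u c =>
    have hev : ∀ ν : Fin δ → ℤ_[p], MvPolynomial.eval (fun k => (p : ℤ_[p]) * ν k)
        (MvPolynomial.monomial u c)
        = c * ((∏ k, (p : ℤ_[p]) ^ u k) * ∏ k, ν k ^ u k) := by
      intro ν
      rw [MvPolynomial.eval_monomial, Finsupp.prod_fintype _ _ (fun i => pow_zero _),
        ← Finset.prod_mul_distrib]
      congr 1
      exact Finset.prod_congr rfl fun k _ => by rw [mul_pow]
    by_cases h : ∀ k, u k < D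
    · refine ⟨Pi.single (fun k => ⟨u k, h k⟩) (c * ∏ k, (p : ℤ_[p]) ^ u k), fun ν => ?_⟩
      rw [hev]
      rw [Finset.sum_eq_single (fun k => (⟨u k, h k⟩ : Fin D))]
      · rw [Pi.single_eq_same]
        convert dvd_zero _ using 1
        ring
      · intro x _ hx
        rw [Pi.single_eq_of_ne hx, mul_zero]
      · intro hx
        exact absurd (Finset.mem_univ _) hx
    · push Not at h
      obtain ⟨k, hk⟩ := h
      refine ⟨0, fun ν => ?_⟩
      rw [hev]
      simp only [Pi.zero_apply, mul_zero, Finset.sum_const_zero, sub_zero]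
      refine Dvd.dvd.mul_left (Dvd.dvd.mul_right ?_ _) _
      exact (pow_dvd_pow _ hk).trans (Finset.dvd_prod_of_mem _ (Finset.mem_univ k))
  | add P Q hP hQ =>
    obtain ⟨C₁, h₁⟩ := hP
    obtain ⟨C₂, h₂⟩ := hQ
    refine ⟨C₁ + C₂, fun ν => ?_⟩
    have := dvd_add (h₁ ν) (h₂ ν)
    rw [map_add]
    convert this using 1
    simp only [Pi.add_apply, mul_add, Finset.sum_add_distrib]
    ring

/-- **The determinant bound for rank at most `δ`.** -/
theorem det_bound_d {m N D δ : ℕ} (F : Fin N → (Fin r → ℤ_[p]) → ℤ_[p]) (hF : ∀ j, An (F j))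
    (V : (Fin r → ℤ_[p]) →ₗ[ℤ_[p]] (Fin m → ℚ_[p]))
    (hV : Module.finrank ℚ_[p] (Submodule.span ℚ_[p] (Set.range V)) ≤ δ)
    (inv : ∀ j n n', V n' = 0 → F j (n + n') = F j n) (pt : Fin N → (Fin r → ℤ_[p])) :
    (p : ℤ_[p]) ^ (D * (N - D ^ δ)) ∣ Matrix.det (Matrix.of fun i j => F j (pt i)) := by
  classical
  obtain ⟨e, he⟩ := coords V hV
  choose c hc using he
  have hpt : ∀ i j, F j (pt i) = F j (fun l => (0 : Fin r → ℤ_[p]) l + ∑ k, c (pt i) k * e k l) := by
    intro i j
    have h1 := inv j (fun l => ∑ k, c (pt i) k * e k l)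
      (pt i - fun l => ∑ k, c (pt i) k * e k l) (hc (pt i))
    rw [add_sub_cancel] at h1
    rw [h1]
    simp
  have hH : ∀ j, ∃ C : (Fin δ → Fin D) → ℤ_[p], ∀ ν : Fin δ → ℤ_[p], (p : ℤ_[p]) ^ D ∣
      F j (fun l => (0 : Fin r → ℤ_[p]) l + ∑ k, ν k * e k l)
        - ∑ x : Fin δ → Fin D, (∏ k, ν k ^ (x k : ℕ)) * C x := by
    intro j
    obtain ⟨H, hH⟩ := ((hF j).affine 0 e) D
    obtain ⟨C, hC⟩ := poly_trunc_box D H
    refine ⟨C, fun ν => ?_⟩
    have := dvd_add (hH ν) (hC ν)
    convert this using 1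
    ring
  choose C hC using hH
  choose E hE using fun i j => hC j (c (pt i))
  have hmat : (Matrix.of fun i j => F j (pt i)) = Matrix.of fun i j =>
      (∑ x : Fin δ → Fin D, (∏ k, c (pt i) k ^ (x k : ℕ)) * C j x)
        + (p : ℤ_[p]) ^ D * E i j := by
    ext i j
    rw [Matrix.of_apply, Matrix.of_apply, ← hE i j, hpt i j]
    ring
  rw [hmat, pow_mul]
  have := det_low_rank ((p : ℤ_[p]) ^ D)
    (fun i (x : Fin δ → Fin D) => ∏ k, c (pt i) k ^ (x k : ℕ))
    (fun x j => C j x) E
  rw [Fintype.card_fun, Fintype.card_fin, Fintype.card_fin] at this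
  exact this

/-- **The determinant bound.** -/
theorem det_bound {m N D : ℕ} (F : Fin N → (Fin r → ℤ_[p]) → ℤ_[p]) (hF : ∀ j, An (F j))
    (V : (Fin r → ℤ_[p]) →ₗ[ℤ_[p]] (Fin m → ℚ_[p]))
    (hV : Module.finrank ℚ_[p] (Submodule.span ℚ_[p] (Set.range V)) ≤ 2)
    (inv : ∀ j n n', V n' = 0 → F j (n + n') = F j n) (pt : Fin N → (Fin r → ℤ_[p])) :
    (p : ℤ_[p]) ^ (D * (N - D * (D + 1) / 2)) ∣
      Matrix.det (Matrix.of fun i j => F j (pt i)) := by
  classical
  obtain ⟨e, he⟩ := two_coords V hV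
  choose c hc using he
  have hpt : ∀ i j, F j (pt i) = F j (fun l => (0 : Fin r → ℤ_[p]) l + ∑ k, c (pt i) k * e k l) := by
    intro i j
    have h1 := inv j (fun l => ∑ k, c (pt i) k * e k l)
      (pt i - fun l => ∑ k, c (pt i) k * e k l) (hc (pt i))
    rw [add_sub_cancel] at h1
    rw [h1]
    simp
  have hH : ∀ j, ∃ C : Mon D → ℤ_[p], ∀ ν : Fin 2 → ℤ_[p], (p : ℤ_[p]) ^ D ∣
      F j (fun l => (0 : Fin r → ℤ_[p]) l + ∑ k, ν k * e k l)
        - ∑ x : Mon D, (ν 0 ^ x.2.1 * ν 1 ^ (x.1.1 - x.2.1)) * C x := by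
    intro j
    obtain ⟨H, hH⟩ := ((hF j).affine 0 e) D
    obtain ⟨C, hC⟩ := poly_trunc D H
    refine ⟨C, fun ν => ?_⟩
    have := dvd_add (hH ν) (hC ν)
    convert this using 1
    ring
  choose C hC using hH
  choose E hE using fun i j => hC j (c (pt i))
  have hmat : (Matrix.of fun i j => F j (pt i)) = Matrix.of fun i j =>
      (∑ x : Mon D, (c (pt i) 0 ^ x.2.1 * c (pt i) 1 ^ (x.1.1 - x.2.1)) * C j x)
        + (p : ℤ_[p]) ^ D * E i j := by
    ext i j
    rw [Matrix.of_apply, Matrix.of_apply, ← hE i j, hpt i j]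
    ring
  rw [hmat, pow_mul]
  have := det_low_rank ((p : ℤ_[p]) ^ D)
    (fun i (x : Mon D) => c (pt i) 0 ^ x.2.1 * c (pt i) 1 ^ (x.1.1 - x.2.1))
    (fun x j => C j x) E
  rw [card_Mon] at this
  exact this

end An

end Pool.Agent.H73.HK
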