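import Pool.Agent.H73.HK.Iface
import Pool.Agent.H73.HK.PT

/-!
# A point of small height off the divisor of an integral combination of products (module PTS)
-/

namespace Pool.Agent.H73.HK

open Finset

variable {Lam : Type} [AddCommGroup Lam] {q : Lam → Lam → ℤ} {NS Ample : Set Lam} {P : Type}
  {SecA : Submodule ℂ (P → ℂ)} {r : ℕ} {act : (Fin r → ℤ) → P → P}
  {pull : (Fin r → ℤ) → Lam → Lam} {A : Lam} {g0 : Fin r → ℤ} {p : ℕ} [Fact p.Prime]

/-- If an integral combination of products of translates of coordinates is not identically zero,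
it is nonzero at a point of the residue disc whose height is bounded by the logarithm of the
degree. -/
theorem Disc.point (Dd : Disc q NS Ample SecA act pull A g0 p)
    (hq : ∀ n, 0 ≤ q (pull n A) A) :
    ∃ C : ℝ, ∀ (I : Type) [Fintype I] [DecidableEq I] (nu : I → (Fin r → ℤ))
      (c : (I → Fin (Dd.k + 1)) → ℤ),
      (∃ y : P, ∑ J, (c J : ℂ) * ∏ l, Dd.a (J l) (act (nu l) y) ≠ 0) →
      ∃ x : Dd.D, (∑ J, (c J : ℂ) * ∏ l, Dd.a (J l) (act (nu l) (Dd.pt x)) ≠ 0) ∧
        Height.logHeight (Dd.co x 0) ≤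
          C * (1 + Real.log (1 + ∑ l, (q (pull (nu l) A) A : ℝ))) := by
  classical
  obtain ⟨C₁, hC₁⟩ := Dd.hensel
  obtain ⟨C₀, hC₀, hpush⟩ := Dd.push
  have hp : 0 < p := (Fact.out : p.Prime).pos
  have hpR : (1 : ℝ) ≤ p := by exact_mod_cast hp
  refine ⟨|C₁| * (1 + Real.log (5 * p) + Real.log (1 + C₀)), ?_⟩
  intro I _ _ nu c hne
  obtain ⟨G, hG, hdeg, hGx⟩ := hpush I nu c hne
  obtain ⟨y, hy0, hyb, hyG⟩ := grid_point hp G hG le_rfl Dd.y0
  obtain ⟨x, hfx, hht⟩ := hC₁ y hy0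
  refine ⟨x, ?_, ?_⟩
  · apply hGx x
    rw [hfx]
    exact hyG
  · set S : ℝ := ∑ l, (q (pull (nu l) A) A : ℝ) with hS
    have hS0 : 0 ≤ S := Finset.sum_nonneg fun l _ => by exact_mod_cast hq (nu l)
    have h1 : ∑ i, |(y i : ℝ)| ≤ 4 * (p * ((G.totalDegree : ℝ) + 1)) := by
      calc ∑ i, |(y i : ℝ)| ≤ ∑ _i : Fin 4, (p : ℝ) * ((G.totalDegree : ℝ) + 1) := by
            refine Finset.sum_le_sum fun i _ => ?_
            obtain ⟨h2, h3⟩ := hyb i
            have h4 : (0 : ℝ) ≤ (y i : ℝ) := by exact_mod_cast h2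
            rw [abs_of_nonneg h4]
            have h5 : (y i : ℝ) < (p : ℝ) * ((G.totalDegree : ℝ) + 1) := by exact_mod_cast h3
            exact h5.le
        _ = 4 * (p * ((G.totalDegree : ℝ) + 1)) := by simp
    have h6 : (1 : ℝ) + ∑ i, |(y i : ℝ)| ≤ (5 * p) * ((1 + C₀) * (1 + S)) := by
      have h7 : (G.totalDegree : ℝ) + 1 ≤ (1 + C₀) * (1 + S) := by nlinarith
      have h8 : (1 : ℝ) ≤ p * ((G.totalDegree : ℝ) + 1) := by
        have h9 : (0 : ℝ) ≤ (G.totalDegree : ℝ) := Nat.cast_nonneg _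
        nlinarith
      have h10 : (p : ℝ) * ((G.totalDegree : ℝ) + 1) ≤ p * ((1 + C₀) * (1 + S)) :=
        mul_le_mul_of_nonneg_left h7 (by positivity)
      nlinarith
    have h11 : (0 : ℝ) < 1 + ∑ i, |(y i : ℝ)| := by
      have : (0 : ℝ) ≤ ∑ i, |(y i : ℝ)| := Finset.sum_nonneg fun i _ => abs_nonneg _
      linarith
    have h12 : Real.log (1 + ∑ i, |(y i : ℝ)|)
        ≤ Real.log (5 * p) + Real.log (1 + C₀) + Real.log (1 + S) := by
      have h13 := Real.log_le_log h11 h6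
      have ha : Real.log (5 * p * ((1 + C₀) * (1 + S))) =
          Real.log (5 * p) + Real.log ((1 + C₀) * (1 + S)) :=
        Real.log_mul (by positivity) (by positivity)
      have hb : Real.log ((1 + C₀) * (1 + S)) = Real.log (1 + C₀) + Real.log (1 + S) :=
        Real.log_mul (by positivity) (by positivity)
      rw [ha, hb] at h13
      linarith
    have h14 : 0 ≤ Real.log (1 + ∑ i, |(y i : ℝ)|) := by
      apply Real.log_nonneg
      have : (0 : ℝ) ≤ ∑ i, |(y i : ℝ)| := Finset.sum_nonneg fun i _ => abs_nonneg _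
      linarith
    have h15 : 0 ≤ Real.log (1 + S) := Real.log_nonneg (by linarith)
    have h16 : 0 ≤ Real.log (5 * p) := Real.log_nonneg (by linarith)
    have h17 : 0 ≤ Real.log (1 + C₀) := Real.log_nonneg (by linarith)
    calc Height.logHeight (Dd.co x 0) ≤ C₁ * (1 + Real.log (1 + ∑ i, |(y i : ℝ)|)) := hht
      _ ≤ |C₁| * (1 + Real.log (1 + ∑ i, |(y i : ℝ)|)) :=
          mul_le_mul_of_nonneg_right (le_abs_self _) (by linarith)
      _ ≤ |C₁| * ((1 + Real.log (5 * p) + Real.log (1 + C₀)) * (1 + Real.log (1 + S))) := by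
          apply mul_le_mul_of_nonneg_left _ (abs_nonneg _)
          nlinarith [mul_nonneg h16 h15, mul_nonneg h17 h15]
      _ = |C₁| * (1 + Real.log (5 * p) + Real.log (1 + C₀)) * (1 + Real.log (1 + S)) := by ring

end Pool.Agent.H73.HK
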