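import Pool.Agent.H73.HK.Para
import Pool.Agent.H73.HK.DET
import Pool.Agent.H73.HK.PF
import Pool.Agent.H73.HK.PTS

/-!
# The interpolation determinant at a point of a residue disc
-/

namespace Pool.Agent.H73.HK

open Height

/-- the total weight of a number field is its degree -/
theorem totalWeight_eq (K : Type*) [Field K] [NumberField K] :
    totalWeight K = Module.finrank ℚ K := by
  have h := NumberField.sum_archAbsVal_eq (K := K) (fun _ => (1 : ℕ))
  simp only [Multiset.map_const', Multiset.sum_replicate, smul_eq_mul, mul_one] at h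
  rw [totalWeight, h, NumberField.InfinitePlace.sum_mult_eq]

/-- the determinant of a matrix of products, as a combination of products -/
theorem det_expand {N L k : ℕ} (J : Fin N → Fin L → Fin (k + 1)) :
    ∃ c : (Fin N × Fin L → Fin (k + 1)) → ℤ, ∀ (R : Type) [CommRing R]
      (b : Fin N → Fin L → Fin (k + 1) → R),
      Matrix.det (Matrix.of fun i j => ∏ s, b i s (J j s)) =
        ∑ T, (c T : R) * ∏ e : Fin N × Fin L, b e.1 e.2 (T e) := by
  classical
  refine ⟨fun T => ∑ σ : Equiv.Perm (Fin N),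
    if T = (fun e => J (σ e.1) e.2) then (Equiv.Perm.sign σ : ℤ) else 0, ?_⟩
  intro R _ b
  rw [← Matrix.det_transpose, Matrix.det_apply']
  simp only [Matrix.transpose_apply, Matrix.of_apply, Int.cast_sum, Finset.sum_mul]
  rw [Finset.sum_comm]
  refine Finset.sum_congr rfl fun σ _ => ?_
  rw [Finset.sum_eq_single (fun e : Fin N × Fin L => J (σ e.1) e.2)]
  · simp only [if_true]
    rw [Fintype.prod_prod_type]
  · intro T _ hT
    rw [if_neg hT]
    simp
  · intro h
    exact absurd (Finset.mem_univ _) h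

/-- vectors of a space of dimension four which are orthogonal to a vector that is not zero -/
theorem finrank_orthogonal_vector {K : Type*} [Field K] (B : LinearMap.BilinForm K (Fin 4 → K))
    (hn : B.Nondegenerate) {ι : Type*} (v : ι → Fin 4 → K) (w : Fin 4 → K) (hw : w ≠ 0)
    (hv : ∀ i, B w (v i) = 0) :
    Module.finrank K (Submodule.span K (Set.range v)) ≤ 3 := by
  have h1 : Submodule.span K (Set.range v) ≤ B.orthogonal (Submodule.span K {w}) := by
    rw [Submodule.span_le]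
    rintro _ ⟨i, rfl⟩
    rw [SetLike.mem_coe, LinearMap.BilinForm.mem_orthogonal_iff]
    intro u hu
    obtain ⟨c, rfl⟩ := Submodule.mem_span_singleton.1 hu
    change (B (c • w)) (v i) = 0
    rw [map_smul, LinearMap.smul_apply, hv, smul_zero]
  have h2 := LinearMap.BilinForm.finrank_orthogonal hn (Submodule.span K {w})
  have h3 := Submodule.finrank_mono h1
  have h4 : Module.finrank K (Fin 4 → K) = 4 := by simp
  have h5 : Module.finrank K (Submodule.span K {w}) = 1 := finrank_span_singleton hw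
  omega

section Main

variable {Lam : Type} [AddCommGroup Lam] {q : Lam → Lam → ℤ} {NS Ample : Set Lam}
  {P : Type} {SecA : Submodule ℂ (P → ℂ)} {r : ℕ} {act : (Fin r → ℤ) → P → P}
  {pull : (Fin r → ℤ) → Lam → Lam} {A : Lam} {g0 : Fin r → ℤ} {p : ℕ} [Fact p.Prime]

/-- the determinant over `K x` is not zero if the one over `ℂ` is not -/
theorem det_ne_zero_of_complex (Dd : Disc q NS Ample SecA act pull A g0 p) (x : Dd.D) {N L : ℕ}
    (n : Fin N → Fin L → (Fin r → ℤ)) (J : Fin N → Fin L → Fin (Dd.k + 1))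
    (h : Matrix.det (Matrix.of fun i j => ∏ s, Dd.a (J j s) (act (n i s) (Dd.pt x))) ≠ 0) :
    Matrix.det (Matrix.of fun i j => ∏ s, Dd.co x (n i s) (J j s)) ≠ 0 := by
  intro h0
  apply h
  choose t _ ht using Dd.co_val x
  have h1 : (Matrix.of fun i j => ∏ s, Dd.a (J j s) (act (n i s) (Dd.pt x))) =
      Matrix.of fun i j => (∏ s, t (n i s)) *
        ((Dd.emb x).mapMatrix (Matrix.of fun i j => ∏ s, Dd.co x (n i s) (J j s))) i j := by
    ext i j
    simp only [Matrix.of_apply, RingHom.mapMatrix_apply, Matrix.map_apply, map_prod, ht]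
    rw [← Finset.prod_mul_distrib]
  rw [h1, Matrix.det_mul_column, ← RingHom.map_det, h0, map_zero, mul_zero]

/-- the field of `g0` does not vanish at a point which is not fixed by `g0` -/
theorem field_ne_zero (Dd : Disc q NS Ample SecA act pull A g0 p) (x : Dd.D)
    {i j : Fin (Dd.k + 1)}
    (h : Dd.a i (act 0 (Dd.pt x)) * Dd.a j (act g0 (Dd.pt x)) ≠
      Dd.a j (act 0 (Dd.pt x)) * Dd.a i (act g0 (Dd.pt x))) :
    (∑ i, (g0 i : ℚ_[p]) • Dd.vec x i) ≠ 0 := by
  intro h0
  apply h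
  have h1 : ∀ j, Dd.fn x j (fun i => ((g0 i : ℤ) : ℤ_[p])) =
      Dd.fn x j (fun i => (((0 : Fin r → ℤ) i : ℤ) : ℤ_[p])) := by
    intro j
    have h2 := Dd.flow x (fun i => (((0 : Fin r → ℤ) i : ℤ) : ℤ_[p]))
      (fun i => ((g0 i : ℤ) : ℤ_[p])) (by simpa using h0) j
    rw [← h2]
    congr 1
    funext i
    simp
  have h3 : ∀ i j, Dd.co x 0 i * Dd.co x g0 j = Dd.co x 0 j * Dd.co x g0 i := by
    intro i j
    apply (Dd.iota x).injective
    rw [map_mul, map_mul, Dd.fn_val x i 0, Dd.fn_val x j g0, Dd.fn_val x j 0, Dd.fn_val x i g0,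
      h1 i, h1 j]
    ring
  obtain ⟨t, _, ht⟩ := Dd.co_val x 0
  obtain ⟨u, _, hu⟩ := Dd.co_val x g0
  rw [ht, ht, hu, hu]
  have h4 := congrArg (Dd.emb x) (h3 i j)
  rw [map_mul, map_mul] at h4
  linear_combination (t * u) * h4

/-- the determinant of the analytic functions -/
theorem det_fn_dvd (Dd : Disc q NS Ample SecA act pull A g0 p) (x : Dd.D)
    (hx : (∑ i, (g0 i : ℚ_[p]) • Dd.vec x i) ≠ 0) {N L : ℕ}
    (l : Fin L → (Fin r → ℤ)) (ν : Fin N → (Fin r → ℤ)) (J : Fin N → Fin L → Fin (Dd.k + 1))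
    (D : ℕ) : (p : ℤ_[p]) ^ (D * (N - D ^ 3)) ∣
      Matrix.det (Matrix.of fun i j => ∏ s, Dd.fn x (J j s)
        ((fun t => ((ν i t : ℤ) : ℤ_[p])) + fun t => ((l s t : ℤ) : ℤ_[p]))) := by
  let V : (Fin r → ℤ_[p]) →ₗ[ℤ_[p]] (Fin 4 → ℚ_[p]) :=
    { toFun := fun n' => ∑ i, (n' i : ℚ_[p]) • Dd.vec x i
      map_add' := fun a b => by
        rw [← Finset.sum_add_distrib]
        refine Finset.sum_congr rfl fun i _ => ?_
        rw [Pi.add_apply, PadicInt.coe_add, add_smul]
      map_smul' := fun c a => by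
        rw [RingHom.id_apply, Finset.smul_sum]
        refine Finset.sum_congr rfl fun i _ => ?_
        rw [Pi.smul_apply, smul_eq_mul, PadicInt.coe_mul, mul_smul]
        rfl }
  have hV : Module.finrank ℚ_[p] (Submodule.span ℚ_[p] (Set.range V)) ≤ 3 := by
    have h1 : Submodule.span ℚ_[p] (Set.range V) ≤
        Submodule.span ℚ_[p] (Set.range (Dd.vec x)) := by
      rw [Submodule.span_le]
      rintro _ ⟨n', rfl⟩
      change (∑ i, (n' i : ℚ_[p]) • Dd.vec x i) ∈ _
      exact Submodule.sum_mem _ fun i _ =>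
        Submodule.smul_mem _ _ (Submodule.subset_span (Set.mem_range_self i))
    refine (Submodule.finrank_mono h1).trans ?_
    refine finrank_orthogonal_vector (Dd.form x) (Dd.form_nondeg x) (Dd.vec x) _ hx fun j => ?_
    have h2 : (Dd.form x) (∑ i, (g0 i : ℚ_[p]) • Dd.vec x i) (Dd.vec x j) =
        Dd.formz (∑ i, (g0 i : ℚ_[p]) • Dd.vecz i) (Dd.vecz j) := by
      simp only [map_sum, map_smul, LinearMap.sum_apply, LinearMap.smul_apply, Dd.form_const]
    rw [h2, Dd.vecz_fix, map_zero, LinearMap.zero_apply]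
  have hF : ∀ j, An (fun n : Fin r → ℤ_[p] => ∏ s, Dd.fn x (J j s)
      (n + fun t => ((l s t : ℤ) : ℤ_[p]))) := by
    intro j
    refine An.prod _ fun s _ => ?_
    exact An.shift (Dd.fn_an x (J j s)) _
  exact det_bound_d (fun j n => ∏ s, Dd.fn x (J j s) (n + fun t => ((l s t : ℤ) : ℤ_[p]))) hF V hV
    (fun j n n' hn' => by
      refine Finset.prod_congr rfl fun s _ => ?_
      have := Dd.flow x (n + fun t => ((l s t : ℤ) : ℤ_[p])) n' hn' (J j s)
      rw [← this]
      congr 1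
      abel) (fun i t => ((ν i t : ℤ) : ℤ_[p]))

/-- **The inequality at one point.** -/
theorem det_point (Dd : Disc q NS Ample SecA act pull A g0 p) (x : Dd.D)
    (hx : (∑ i, (g0 i : ℚ_[p]) • Dd.vec x i) ≠ 0) {N L : ℕ}
    (l : Fin L → (Fin r → ℤ)) (ν : Fin N → (Fin r → ℤ)) (J : Fin N → Fin L → Fin (Dd.k + 1))
    (h : Matrix.det (Matrix.of fun i j => ∏ s, Dd.a (J j s) (act (l s + ν i) (Dd.pt x))) ≠ 0)
    (D : ℕ) :
    Real.log p * ((D * (N - D ^ 3) : ℕ) : ℝ) ≤
      ∑ i, ∑ s, logHeight (Dd.co x (l s + ν i)) + Dd.d * Real.log (N.factorial) := by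
  obtain ⟨w, hw, hwx⟩ := Dd.place x
  have hp : (0 : ℝ) < p := by exact_mod_cast (Fact.out : p.Prime).pos
  have h1 := det_ne_zero_of_complex Dd x (fun i s => l s + ν i) J h
  have hcast : ∀ i s, (fun t => (((l s + ν i) t : ℤ) : ℤ_[p])) =
      (fun t => ((ν i t : ℤ) : ℤ_[p])) + fun t => ((l s t : ℤ) : ℤ_[p]) := by
    intro i s
    funext t
    simp [add_comm]
  have hval : ∀ i s j, Dd.iota x (Dd.co x (l s + ν i) j) = Dd.iota x (Dd.co x (l s + ν i) 0) *
      (Dd.fn x j ((fun t => ((ν i t : ℤ) : ℤ_[p])) + fun t => ((l s t : ℤ) : ℤ_[p])) : ℚ_[p]) := by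
    intro i s j
    rw [Dd.fn_val, hcast]
  have hle : ∀ i s j, w (Dd.co x (l s + ν i) j) ≤ w (Dd.co x (l s + ν i) 0) := by
    intro i s j
    rw [hwx, hwx, hval i s j, norm_mul]
    exact mul_le_of_le_one_right (norm_nonneg _) (PadicInt.norm_le_one _)
  have hdet : w (Matrix.det (Matrix.of fun i j => ∏ s, Dd.co x (l s + ν i) (J j s))) ≤
      (p : ℝ) ^ (-((D * (N - D ^ 3) : ℕ) : ℤ)) *
        ∏ i, ∏ s, w (Dd.co x (l s + ν i) 0) := by
    have h2 : Dd.iota x (Matrix.det (Matrix.of fun i j => ∏ s, Dd.co x (l s + ν i) (J j s))) =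
        (∏ i, ∏ s, Dd.iota x (Dd.co x (l s + ν i) 0)) *
        ((Matrix.det (Matrix.of fun i j => ∏ s, Dd.fn x (J j s)
          ((fun t => ((ν i t : ℤ) : ℤ_[p])) + fun t => ((l s t : ℤ) : ℤ_[p]))) : ℤ_[p]) :
            ℚ_[p]) := by
      have h3 : ((Matrix.det (Matrix.of fun i j => ∏ s, Dd.fn x (J j s)
          ((fun t => ((ν i t : ℤ) : ℤ_[p])) + fun t => ((l s t : ℤ) : ℤ_[p]))) : ℤ_[p]) :
            ℚ_[p]) = Matrix.det ((PadicInt.Coe.ringHom (p := p)).mapMatrix
          (Matrix.of fun i j => ∏ s, Dd.fn x (J j s)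
          ((fun t => ((ν i t : ℤ) : ℤ_[p])) + fun t => ((l s t : ℤ) : ℤ_[p])))) :=
        RingHom.map_det (PadicInt.Coe.ringHom (p := p)) _
      rw [h3, ← Matrix.det_mul_column, RingHom.map_det]
      congr 1
      ext i j
      simp only [RingHom.mapMatrix_apply, Matrix.map_apply, Matrix.of_apply, map_prod]
      rw [← Finset.prod_mul_distrib]
      refine Finset.prod_congr rfl fun s _ => ?_
      rw [hval i s (J j s)]
      rfl
    rw [hwx, h2, norm_mul, mul_comm]
    have h4 : ∏ i, ∏ s, w (Dd.co x (l s + ν i) 0) =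
        ‖∏ i, ∏ s, Dd.iota x (Dd.co x (l s + ν i) 0)‖ := by
      rw [norm_prod]
      refine Finset.prod_congr rfl fun i _ => ?_
      rw [norm_prod]
      exact Finset.prod_congr rfl fun s _ => hwx _
    rw [h4]
    refine mul_le_mul_of_nonneg_right ?_ (norm_nonneg _)
    have h5 := det_fn_dvd Dd x hx l ν J D
    exact (PadicInt.norm_le_pow_iff_mem_span_pow _ _).2 (Ideal.mem_span_singleton.2 h5)
  have h6 := pf (fun i s => Dd.co x (l s + ν i)) J
    (fun i s h0 => Dd.co_ne x (l s + ν i) (by rw [h0]; rfl)) h1 hw hle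
    (zpow_pos hp _) hdet
  rw [Real.log_zpow] at h6
  have h7 : (totalWeight (Dd.K x) : ℝ) * Real.log (N.factorial) ≤
      Dd.d * Real.log (N.factorial) := by
    refine mul_le_mul_of_nonneg_right ?_ (Real.log_natCast_nonneg _)
    rw [totalWeight_eq]
    exact_mod_cast Dd.deg x
  push_cast at h6 ⊢
  linarith

/-- the product of two combinations of products is a combination of products -/
theorem value_mul {k : ℕ} (a : Fin (k + 1) → P → ℂ) {I I' : Type} [Fintype I] [DecidableEq I]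
    [Fintype I'] [DecidableEq I'] (nu : I → (Fin r → ℤ)) (nu' : I' → (Fin r → ℤ))
    (c : (I → Fin (k + 1)) → ℤ) (c' : (I' → Fin (k + 1)) → ℤ) (act : (Fin r → ℤ) → P → P) (y : P) :
    ∑ T : I ⊕ I' → Fin (k + 1), ((c (fun i => T (Sum.inl i)) * c' (fun i => T (Sum.inr i)) : ℤ) : ℂ) *
        ∏ l, a (T l) (act (Sum.elim nu nu' l) y) =
      (∑ T, (c T : ℂ) * ∏ l, a (T l) (act (nu l) y)) *
        ∑ T, (c' T : ℂ) * ∏ l, a (T l) (act (nu' l) y) := by
  rw [Finset.sum_mul_sum, ← Finset.sum_product', Finset.univ_product_univ]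
  refine Fintype.sum_equiv (Equiv.sumArrowEquivProdArrow I I' (Fin (k + 1))) _ _ fun T => ?_
  rw [Fintype.prod_sum_type]
  simp only [Sum.elim_inl, Sum.elim_inr, Equiv.sumArrowEquivProdArrow, Equiv.coe_fn_mk,
    Function.comp_def]
  push_cast
  ring

/-- a two by two minor as a combination of products -/
theorem value_minor {k : ℕ} (a : Fin (k + 1) → P → ℂ) (act : (Fin r → ℤ) → P → P)
    (n n' : Fin r → ℤ) (i j : Fin (k + 1)) (y : P) :
    ∑ T : Fin 2 → Fin (k + 1), (((if T = ![i, j] then 1 else 0) -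
        (if T = ![j, i] then 1 else 0) : ℤ) : ℂ) * ∏ l, a (T l) (act (![n, n'] l) y) =
      a i (act n y) * a j (act n' y) - a j (act n y) * a i (act n' y) := by
  simp only [Int.cast_sub, Int.cast_ite, Int.cast_one, Int.cast_zero, sub_mul, ite_mul, one_mul,
    zero_mul, Finset.sum_sub_distrib, Finset.sum_ite_eq', Finset.mem_univ,
    if_true, Fin.prod_univ_two, Matrix.cons_val_zero, Matrix.cons_val_one]

/-- **Module ALG**, for a residue disc. -/
theorem alg_disc (Dd : Disc q NS Ample SecA act pull A g0 p) (hq : ∀ n, 0 ≤ q (pull n A) A) :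
    ∃ C : ℝ, ∀ {N L : ℕ} (rows : Fin N → (Fin r → ℤ)) (l : Fin L → (Fin r → ℤ))
      (J : Fin N → Fin L → Fin (Dd.k + 1)) (i j : Fin (Dd.k + 1)) (y : P),
      Matrix.det (Matrix.of fun i j => ∏ s, Dd.a (J j s) (act (l s + rows i) y)) ≠ 0 →
      Dd.a i (act 0 y) * Dd.a j (act g0 y) ≠ Dd.a j (act 0 y) * Dd.a i (act g0 y) →
      ∃ x : Dd.D, (∀ D : ℕ, Real.log p * ((D * (N - D ^ 3) : ℕ) : ℝ) ≤
          ∑ i, ∑ s, logHeight (Dd.co x (l s + rows i)) + Dd.d * Real.log (N.factorial)) ∧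
        logHeight (Dd.co x 0) ≤ C * (1 + Real.log (1 + (∑ i, ∑ s,
          (q (pull (l s + rows i) A) A : ℝ) + (q (pull 0 A) A + q (pull g0 A) A : ℝ)))) := by
  classical
  obtain ⟨C, hC⟩ := Dd.point hq
  refine ⟨C, fun {N L} rows l J i j y hy hij => ?_⟩
  obtain ⟨c, hc⟩ := det_expand J
  have key : ∀ y, Matrix.det (Matrix.of fun i j =>
      ∏ s, Dd.a (J j s) (act (l s + rows i) y)) =
      ∑ T, (c T : ℂ) * ∏ e : Fin N × Fin L, Dd.a (T e) (act (l e.2 + rows e.1) y) :=
    fun y => hc ℂ fun i s j => Dd.a j (act (l s + rows i) y)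
  set c' : (Fin 2 → Fin (Dd.k + 1)) → ℤ :=
    fun T => (if T = ![i, j] then 1 else 0) - (if T = ![j, i] then 1 else 0) with hc'
  have key' : ∀ y, ∑ T, (c' T : ℂ) * ∏ e, Dd.a (T e) (act ((![0, g0] : Fin 2 → _) e) y) =
      Dd.a i (act 0 y) * Dd.a j (act g0 y) - Dd.a j (act 0 y) * Dd.a i (act g0 y) :=
    fun y => value_minor Dd.a act 0 g0 i j y
  obtain ⟨x, hx, hxC⟩ := hC ((Fin N × Fin L) ⊕ Fin 2)
    (Sum.elim (fun e => l e.2 + rows e.1) ![0, g0])
    (fun T => c (fun i => T (Sum.inl i)) * c' (fun i => T (Sum.inr i))) ⟨y, by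
      rw [value_mul Dd.a _ _ c c' act y, ← key, key']
      exact mul_ne_zero hy (sub_ne_zero.2 hij)⟩
  rw [value_mul Dd.a _ _ c c' act (Dd.pt x), ← key, key'] at hx
  refine ⟨x, fun D => det_point Dd x (field_ne_zero Dd x (sub_ne_zero.1 (right_ne_zero_of_mul hx)))
    l rows J (left_ne_zero_of_mul hx) D, ?_⟩
  rw [Fintype.sum_sum_type, Fintype.sum_prod_type, Fin.sum_univ_two] at hxC
  exact hxC

end Main

/-- **Module ALG**, for the parabolic group of a manifold. -/
theorem alg {Lam : Type} [AddCommGroup Lam] {q : Lam → Lam → ℤ} {M : Manifold Lam q} {L A : Lam}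
    {r : ℕ} (π : Para M L A r) (hA : A ∈ M.VeryAmple) {g0 : Fin r → ℤ} {p : ℕ} [Fact p.Prime]
    (Dd : Disc q (M.NS : Set Lam) M.Ample (M.Sec A) (fun n (y : M.P) => π.rho n • y)
      (fun n x => M.pull (π.rho n) x) A g0 p) (hq : ∀ n, 0 ≤ q (M.pull (π.rho n) A) A) :
    ∃ C : ℝ, ∀ {N L : ℕ} (rows : Fin N → (Fin r → ℤ)) (l : Fin L → (Fin r → ℤ))
      (J : Fin N → Fin L → Fin (Dd.k + 1)) (y : M.P),
      Matrix.det (Matrix.of fun i j => ∏ s, Dd.a (J j s) (π.rho (l s + rows i) • y)) ≠ 0 →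
      π.rho g0 • y ≠ y →
      ∃ x : Dd.D, (∀ D : ℕ, Real.log p * ((D * (N - D ^ 3) : ℕ) : ℝ) ≤
          ∑ i, ∑ s, logHeight (Dd.co x (l s + rows i)) + Dd.d * Real.log (N.factorial)) ∧
        logHeight (Dd.co x 0) ≤ C * (1 + Real.log (1 + (∑ i, ∑ s,
          (q (M.pull (π.rho (l s + rows i)) A) A : ℝ) +
            (q A A + q (M.pull (π.rho g0) A) A : ℝ)))) := by
  obtain ⟨C, hC⟩ := alg_disc Dd hq
  refine ⟨C, fun {N L} rows l J y hy hne => ?_⟩
  have h1 : ∃ i j, Dd.a i y * Dd.a j (π.rho g0 • y) ≠ Dd.a j y * Dd.a i (π.rho g0 • y) := by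
    by_contra hcon
    push Not at hcon
    apply hne
    refine M.separate A hA _ _ fun s hs t ht => ?_
    rw [← Dd.span_a] at hs ht
    induction hs using Submodule.span_induction with
    | mem s hs =>
      obtain ⟨i, rfl⟩ := hs
      induction ht using Submodule.span_induction with
      | mem t ht =>
        obtain ⟨j, rfl⟩ := ht
        have := hcon i j
        linear_combination -this
      | zero => simp
      | add t u _ _ ht hu =>
        simp only [Pi.add_apply]
        linear_combination ht + hu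
      | smul c t _ ht =>
        simp only [Pi.smul_apply, smul_eq_mul]
        linear_combination c * ht
    | zero => simp
    | add t u _ _ ht hu =>
      simp only [Pi.add_apply]
      linear_combination ht + hu
    | smul c t _ ht =>
      simp only [Pi.smul_apply, smul_eq_mul]
      linear_combination c * ht
  obtain ⟨i, j, hij⟩ := h1
  obtain ⟨x, hx, hxC⟩ := hC rows l J i j y hy (by
    simpa only [π.rho_zero, one_smul] using hij)
  refine ⟨x, hx, ?_⟩
  simpa only [π.rho_zero, M.pull_one, AddMonoidHom.id_apply] using hxC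

end Pool.Agent.H73.HK
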