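import Pool.Agent.H73.HK.GenPara

/-!
# The choice of the constants: numerical lemmas
-/

namespace Pool.Agent.H73.HK

open Filter Topology

theorem three_geo (K : ℕ) : 3 * geo K + 1 = 4 ^ K := by
  induction K with
  | zero => simp [geo]
  | succ K ih =>
    have h : geo (K + 1) = geo K + 4 ^ K := by
      simp [geo, Finset.sum_range_succ]
    rw [h, pow_succ]
    omega

/-- the choice of `K` -/
theorem exists_K (c1 : ℝ) (hc1 : 0 ≤ c1) :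
    ∃ m1 : ℕ, ∀ m : ℕ, m1 ≤ m → ∃ K : ℕ, K + 1 ≤ m ∧
      c1 * (m : ℝ) ^ 4 ≤ ((2 : ℝ) ^ K) ^ 15 ∧
      ((2 : ℝ) ^ K) ^ 15 ≤ 2 ^ 15 * (c1 * (m : ℝ) ^ 4) + 2 ^ 15 := by
  classical
  have h1 : Tendsto (fun n : ℕ => (n : ℝ) ^ 4 / (2 ^ 15 : ℝ) ^ n) atTop (𝓝 0) :=
    tendsto_pow_const_div_const_pow_of_one_lt 4 (by norm_num)
  have h2 : ∀ᶠ n : ℕ in atTop, (n : ℝ) ^ 4 / (2 ^ 15 : ℝ) ^ n < 1 / (2 ^ 15 * (c1 + 1)) :=
    h1.eventually (gt_mem_nhds (by positivity))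
  obtain ⟨m1, hm1⟩ := eventually_atTop.1 h2
  refine ⟨max m1 1, fun m hm => ?_⟩
  have hmm : 1 ≤ m := (le_max_right m1 1).trans hm
  have h3 := hm1 m ((le_max_left m1 1).trans hm)
  have h4 : c1 * (m : ℝ) ^ 4 ≤ (2 ^ 15 : ℝ) ^ (m - 1) := by
    have h5 : (2 ^ 15 : ℝ) ^ m = 2 ^ 15 * (2 ^ 15 : ℝ) ^ (m - 1) := by
      rw [← pow_succ']
      congr 1
      omega
    rw [div_lt_div_iff₀ (by positivity) (by positivity), h5] at h3
    have h6 : (m : ℝ) ^ 4 * (c1 + 1) < (2 ^ 15 : ℝ) ^ (m - 1) := by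
      have h7 : (2 ^ 15 : ℝ) * ((m : ℝ) ^ 4 * (c1 + 1)) < 2 ^ 15 * (2 ^ 15 : ℝ) ^ (m - 1) := by
        linarith
      exact lt_of_mul_lt_mul_left h7 (by norm_num)
    have h8 : 0 ≤ (m : ℝ) ^ 4 := by positivity
    linarith
  have hex : ∃ K : ℕ, c1 * (m : ℝ) ^ 4 ≤ (2 ^ 15 : ℝ) ^ K := ⟨m - 1, h4⟩
  have hpow : ∀ K : ℕ, ((2 : ℝ) ^ K) ^ 15 = (2 ^ 15 : ℝ) ^ K := fun K => by
    rw [← pow_mul, ← pow_mul, mul_comm]
  refine ⟨Nat.find hex, ?_, ?_, ?_⟩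
  · have := Nat.find_min' hex h4
    omega
  · rw [hpow]
    exact Nat.find_spec hex
  · rw [hpow]
    rcases Nat.eq_zero_or_pos (Nat.find hex) with h0 | h0
    · rw [h0, pow_zero]
      have : 0 ≤ (2 : ℝ) ^ 15 * (c1 * (m : ℝ) ^ 4) := by positivity
      linarith
    · have h5 := Nat.find_min hex (m := Nat.find hex - 1) (by omega)
      rw [not_le] at h5
      have h6 : (2 ^ 15 : ℝ) ^ (Nat.find hex) = 2 ^ 15 * (2 ^ 15 : ℝ) ^ (Nat.find hex - 1) := by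
        rw [← pow_succ']
        congr 1
        omega
      rw [h6]
      have h7 : (2 ^ 15 : ℝ) * (2 ^ 15 : ℝ) ^ (Nat.find hex - 1) ≤
          2 ^ 15 * (c1 * (m : ℝ) ^ 4) := mul_le_mul_of_nonneg_left h5.le (by norm_num)
      have h8 : (0 : ℝ) ≤ 2 ^ 15 := by norm_num
      linarith

/-- the choice of `D` -/
theorem exists_D (N : ℕ) : ∃ D : ℕ, 2 * D ^ 3 ≤ N ∧ N < 2 * (D + 1) ^ 3 := by
  classical
  have hex : ∃ D : ℕ, N < 2 * (D + 1) ^ 3 := by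
    refine ⟨N, ?_⟩
    have h1 : N + 1 ≤ (N + 1) ^ 3 := Nat.le_self_pow (by norm_num) _
    omega
  refine ⟨Nat.find hex, ?_, Nat.find_spec hex⟩
  rcases Nat.eq_zero_or_pos (Nat.find hex) with h0 | h0
  · rw [h0]
    simp
  · have h5 := Nat.find_min hex (m := Nat.find hex - 1) (by omega)
    rw [not_lt, Nat.sub_add_cancel h0] at h5
    exact h5

theorem log_factorial_le (N : ℕ) : Real.log (N.factorial) ≤ N * Real.log N := by
  have h1 : (N.factorial : ℝ) ≤ (N : ℝ) ^ N := by exact_mod_cast Nat.factorial_le_pow N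
  have h2 := Real.log_le_log (by exact_mod_cast N.factorial_pos) h1
  rwa [Real.log_pow] at h2

/-- the coefficients of `E` -/
theorem xE_le (C K m : ℕ) (hC : C ≤ m) (hK : K + 1 ≤ m) : (xE C K m : ℝ) ≤ 43 * m := by
  unfold xE
  push_cast
  have h1 : (C : ℝ) ≤ m := by exact_mod_cast hC
  have h2 : (K : ℝ) + 1 ≤ m := by exact_mod_cast hK
  linarith

theorem le_xE (C K m : ℕ) : 2 * (m : ℝ) ≤ xE C K m := by
  unfold xE
  push_cast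
  have h1 : (0 : ℝ) ≤ C := Nat.cast_nonneg _
  have h2 : (0 : ℝ) ≤ K := Nat.cast_nonneg _
  linarith

theorem yE_le (c : ℤ) (K m : ℕ) (hc : 0 ≤ c) (hm : 1 ≤ m) :
    (yE c K m : ℝ) ≤ 56 * m * c * ((2 : ℝ) ^ K) ^ 2 := by
  have h1 : (4 : ℝ) ^ K = ((2 : ℝ) ^ K) ^ 2 := by
    rw [← pow_mul, mul_comm, pow_mul]
    norm_num
  have h2 : 3 * (geo (K + 1) : ℝ) ≤ 4 * 4 ^ K := by
    have h3 := three_geo (K + 1)
    rw [pow_succ] at h3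
    have h4 : ((3 * geo (K + 1) + 1 : ℕ) : ℝ) = ((4 ^ K * 4 : ℕ) : ℝ) := by rw [h3]
    push_cast at h4
    linarith
  have hc' : (0 : ℝ) ≤ c := by exact_mod_cast hc
  have hm' : (1 : ℝ) ≤ m := by exact_mod_cast hm
  unfold yE
  push_cast
  rw [h1] at h2 ⊢
  have hR : 0 ≤ ((2 : ℝ) ^ K) ^ 2 := by positivity
  generalize ((2 : ℝ) ^ K) ^ 2 = S at *
  have h5 : 40 * (c : ℝ) * (geo (K + 1) : ℝ) ≤ 54 * (c * S) := by
    have h6 : (c : ℝ) * (3 * (geo (K + 1) : ℝ)) ≤ c * (4 * S) := mul_le_mul_of_nonneg_left h2 hc'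
    have h7 : 0 ≤ (c : ℝ) * S := mul_nonneg hc' hR
    linarith
  have h8 : (c : ℝ) * S ≤ m * (c * S) := le_mul_of_one_le_left (mul_nonneg hc' hR) hm'
  have h9 : 56 * (m : ℝ) * c * S = 54 * (m * (c * S)) + 2 * m * c * S := by ring
  rw [h9]
  linarith

theorem le_yE (c : ℤ) (K m : ℕ) (hc : 0 ≤ c) :
    2 * m * c * ((2 : ℝ) ^ K) ^ 2 ≤ (yE c K m : ℝ) := by
  have h1 : (4 : ℝ) ^ K = ((2 : ℝ) ^ K) ^ 2 := by
    rw [← pow_mul, mul_comm, pow_mul]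
    norm_num
  have hc' : (0 : ℝ) ≤ c := by exact_mod_cast hc
  unfold yE
  push_cast
  rw [h1]
  have h2 : (0 : ℝ) ≤ 40 * c * geo (K + 1) := by positivity
  linarith

/-- the square of `E`, from above -/
theorem qE_le (a l c x R X Y : ℝ) (ha : 0 ≤ a) (hl : 0 ≤ l) (hc : 0 ≤ c) (hx : 1 ≤ x)
    (hR : 1 ≤ R) (hX0 : 2 * x ≤ X) (hX : X ≤ 43 * x) (hY0 : 2 * x * c * R ^ 2 ≤ Y)
    (hY : Y ≤ 56 * x * c * R ^ 2) :
    X ^ 2 * a + 2 * X * Y * l ≤ (1849 * a + 4816 * c * l) * (x ^ 2 * R ^ 2) := by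
  have hX00 : 0 ≤ X := by linarith
  have hY00 : 0 ≤ Y := le_trans (by positivity) hY0
  have h1 : X ^ 2 ≤ (43 * x) ^ 2 := pow_le_pow_left₀ hX00 hX 2
  have h2 : X * Y ≤ 43 * x * (56 * x * c * R ^ 2) := mul_le_mul hX hY hY00 (by positivity)
  have h3 : (1 : ℝ) ≤ R ^ 2 := one_le_pow₀ hR
  have h4 : x ^ 2 * a ≤ x ^ 2 * a * R ^ 2 := le_mul_of_one_le_right (by positivity) h3
  have h5 : X ^ 2 * a ≤ (43 * x) ^ 2 * a := mul_le_mul_of_nonneg_right h1 ha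
  have h6 : X * Y * l ≤ 43 * x * (56 * x * c * R ^ 2) * l := mul_le_mul_of_nonneg_right h2 hl
  calc X ^ 2 * a + 2 * X * Y * l = X ^ 2 * a + 2 * (X * Y * l) := by ring
    _ ≤ (43 * x) ^ 2 * a + 2 * (43 * x * (56 * x * c * R ^ 2) * l) := by linarith
    _ = 1849 * (x ^ 2 * a) + 4816 * c * l * (x ^ 2 * R ^ 2) := by ring
    _ ≤ 1849 * (x ^ 2 * a * R ^ 2) + 4816 * c * l * (x ^ 2 * R ^ 2) := by linarith
    _ = (1849 * a + 4816 * c * l) * (x ^ 2 * R ^ 2) := by ring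

/-- the square of `E`, from below -/
theorem le_qE (a l c x R X Y : ℝ) (ha : 0 ≤ a) (hl : 0 ≤ l) (hc : 0 ≤ c) (hx : 1 ≤ x)
    (hX0 : 2 * x ≤ X) (hY0 : 2 * x * c * R ^ 2 ≤ Y) :
    8 * c * l * (x ^ 2 * R ^ 2) ≤ X ^ 2 * a + 2 * X * Y * l := by
  have hX00 : 0 ≤ X := by linarith
  have h2 : 2 * x * (2 * x * c * R ^ 2) ≤ X * Y := mul_le_mul hX0 hY0 (by positivity) hX00
  have h6 : 2 * x * (2 * x * c * R ^ 2) * l ≤ X * Y * l := mul_le_mul_of_nonneg_right h2 hl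
  have h7 : 0 ≤ X ^ 2 * a := by positivity
  calc 8 * c * l * (x ^ 2 * R ^ 2) = 2 * (2 * x * (2 * x * c * R ^ 2) * l) := by ring
    _ ≤ 2 * (X * Y * l) := by linarith
    _ ≤ X ^ 2 * a + 2 * X * Y * l := by linarith

/-- the square of `B` -/
theorem qB_le (a l c b x R X Y : ℝ) (ha : 0 ≤ a) (hl : 0 ≤ l) (hc : 0 ≤ c) (hb : 0 ≤ b)
    (hx : 1 ≤ x) (hR : 1 ≤ R) (hX0 : 2 * x ≤ X) (hX : X ≤ 43 * x) (hY0 : 2 * x * c * R ^ 2 ≤ Y)
    (hY : Y ≤ 56 * x * c * R ^ 2) :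
    0 ≤ (2 * X + 5) ^ 2 * a + 2 * (2 * X + 5) * (Y + 4 * X * (b * (7 * R) ^ 2) * l) * l ∧
    (2 * X + 5) ^ 2 * a + 2 * (2 * X + 5) * (Y + 4 * X * (b * (7 * R) ^ 2) * l) * l ≤
      (8281 * a + 182 * (56 * c + 8428 * b * l) * l) * (x ^ 2 * R ^ 2) := by
  have hX00 : 0 ≤ X := by linarith
  have hY00 : 0 ≤ Y := le_trans (by positivity) hY0
  refine ⟨by positivity, ?_⟩
  have h0 : 2 * X + 5 ≤ 91 * x := by linarith
  have h1 : (2 * X + 5) ^ 2 ≤ (91 * x) ^ 2 := pow_le_pow_left₀ (by linarith) h0 2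
  have h2 : Y + 4 * X * (b * (7 * R) ^ 2) * l ≤
      56 * x * c * R ^ 2 + 4 * (43 * x) * (b * (7 * R) ^ 2) * l := by
    have h3 : 4 * X * (b * (7 * R) ^ 2) * l ≤ 4 * (43 * x) * (b * (7 * R) ^ 2) * l := by
      gcongr
    linarith
  have h3 : (1 : ℝ) ≤ R ^ 2 := one_le_pow₀ hR
  have h4 : x ^ 2 * a ≤ x ^ 2 * a * R ^ 2 := le_mul_of_one_le_right (by positivity) h3
  have h5 : (2 * X + 5) ^ 2 * a ≤ (91 * x) ^ 2 * a := mul_le_mul_of_nonneg_right h1 ha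
  have h6 : (2 * X + 5) * (Y + 4 * X * (b * (7 * R) ^ 2) * l) ≤
      91 * x * (56 * x * c * R ^ 2 + 4 * (43 * x) * (b * (7 * R) ^ 2) * l) :=
    mul_le_mul h0 h2 (by positivity) (by positivity)
  have h7 := mul_le_mul_of_nonneg_right h6 hl
  calc (2 * X + 5) ^ 2 * a + 2 * (2 * X + 5) * (Y + 4 * X * (b * (7 * R) ^ 2) * l) * l
      = (2 * X + 5) ^ 2 * a + 2 * ((2 * X + 5) * (Y + 4 * X * (b * (7 * R) ^ 2) * l) * l) := by
        ring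
    _ ≤ (91 * x) ^ 2 * a +
        2 * (91 * x * (56 * x * c * R ^ 2 + 4 * (43 * x) * (b * (7 * R) ^ 2) * l) * l) := by
        linarith
    _ = 8281 * (x ^ 2 * a) + 182 * (56 * c + 8428 * b * l) * l * (x ^ 2 * R ^ 2) := by ring
    _ ≤ 8281 * (x ^ 2 * a * R ^ 2) + 182 * (56 * c + 8428 * b * l) * l * (x ^ 2 * R ^ 2) := by
        linarith
    _ = (8281 * a + 182 * (56 * c + 8428 * b * l) * l) * (x ^ 2 * R ^ 2) := by ring

/-- the number of translates is larger than the number of components -/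
theorem card_bound (bez CB Q x R : ℝ) (hx : 1 ≤ x) (hR : 1 ≤ R) (hQ0 : 0 ≤ Q)
    (hQ : Q ≤ CB * (x ^ 2 * R ^ 2)) (h15 : (|bez| * CB ^ 2 + 1) * x ^ 4 ≤ R ^ 15) :
    bez * Q ^ 2 < (2 * R + 1) ^ 19 := by
  have h1 : Q ^ 2 ≤ (CB * (x ^ 2 * R ^ 2)) ^ 2 := pow_le_pow_left₀ hQ0 hQ 2
  have h2 : bez * Q ^ 2 ≤ |bez| * (CB * (x ^ 2 * R ^ 2)) ^ 2 :=
    (mul_le_mul_of_nonneg_right (le_abs_self bez) (by positivity)).trans
      (mul_le_mul_of_nonneg_left h1 (abs_nonneg _))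
  have h3 : |bez| * (CB * (x ^ 2 * R ^ 2)) ^ 2 ≤ (|bez| * CB ^ 2 + 1) * x ^ 4 * R ^ 4 := by
    have h4 : 0 ≤ x ^ 4 * R ^ 4 := by positivity
    have h5 : |bez| * (CB * (x ^ 2 * R ^ 2)) ^ 2 = |bez| * CB ^ 2 * (x ^ 4 * R ^ 4) := by ring
    rw [h5]
    linarith
  have h6 : (|bez| * CB ^ 2 + 1) * x ^ 4 * R ^ 4 ≤ R ^ 15 * R ^ 4 :=
    mul_le_mul_of_nonneg_right h15 (by positivity)
  have h7 : R ^ 15 * R ^ 4 < (2 * R + 1) ^ 19 := by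
    rw [← pow_add]
    exact pow_lt_pow_left₀ (by linarith) (by linarith) (by norm_num)
  linarith

/-- Riemann-Roch: the dimension from above and below -/
theorem rr_bounds (al be Q x R c CE n : ℝ) (hal : 0 < al) (hc : 1 ≤ c)
    (hx : 1 ≤ x) (hR : 1 ≤ R) (hbe : 2 * |be| / al ≤ x)
    (hQ0 : 8 * c * (x ^ 2 * R ^ 2) ≤ Q) (hQ : Q ≤ CE * (x ^ 2 * R ^ 2))
    (hn : n = al * Q ^ 2 + be * Q + 3) :
    al / 2 * (8 * c) ^ 2 * x ^ 4 * R ^ 4 ≤ n ∧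
      n ≤ (al + |be| + 3) * CE ^ 2 * x ^ 4 * R ^ 4 := by
  have h3 : (1 : ℝ) ≤ R ^ 2 := one_le_pow₀ hR
  have hx2 : x ≤ x ^ 2 := le_self_pow₀ hx (by norm_num)
  have h4 : x ≤ x ^ 2 * R ^ 2 := hx2.trans (le_mul_of_one_le_right (by positivity) h3)
  have h5 : x ^ 2 * R ^ 2 ≤ 8 * c * (x ^ 2 * R ^ 2) :=
    le_mul_of_one_le_left (by positivity) (by linarith)
  have hQx : x ≤ Q := h4.trans (h5.trans hQ0)
  have hQ1 : 1 ≤ Q := hx.trans hQx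
  have hQpos : 0 < Q := by linarith
  have hb1 : -(|be| * Q) ≤ be * Q := by
    have := mul_le_mul_of_nonneg_right (neg_abs_le be) hQpos.le
    linarith
  have hb2 : be * Q ≤ |be| * Q := mul_le_mul_of_nonneg_right (le_abs_self be) hQpos.le
  constructor
  · have h6 : |be| ≤ al / 2 * Q := by
      rw [div_le_iff₀ hal] at hbe
      have : x * al ≤ Q * al := mul_le_mul_of_nonneg_right hQx hal.le
      linarith
    have h7 : |be| * Q ≤ al / 2 * Q * Q := mul_le_mul_of_nonneg_right h6 hQpos.le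
    have h8 : (8 * c * (x ^ 2 * R ^ 2)) ^ 2 ≤ Q ^ 2 := pow_le_pow_left₀ (by positivity) hQ0 2
    have h9 : al / 2 * (8 * c * (x ^ 2 * R ^ 2)) ^ 2 ≤ al / 2 * Q ^ 2 :=
      mul_le_mul_of_nonneg_left h8 (by positivity)
    have h10 : al / 2 * (8 * c) ^ 2 * x ^ 4 * R ^ 4 = al / 2 * (8 * c * (x ^ 2 * R ^ 2)) ^ 2 := by
      ring
    have h11 : al / 2 * Q * Q = al / 2 * Q ^ 2 := by ring
    have h12 : al * Q ^ 2 = al / 2 * Q ^ 2 + al / 2 * Q ^ 2 := by ring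
    rw [hn, h10, h12]
    rw [h11] at h7
    linarith
  · have h6 : Q ≤ Q ^ 2 := le_self_pow₀ hQ1 (by norm_num)
    have h7 : (1 : ℝ) ≤ Q ^ 2 := one_le_pow₀ hQ1
    have h8 : n ≤ (al + |be| + 3) * Q ^ 2 := by
      have h9 : |be| * Q ≤ |be| * Q ^ 2 := mul_le_mul_of_nonneg_left h6 (abs_nonneg _)
      have h10 : (al + |be| + 3) * Q ^ 2 = al * Q ^ 2 + |be| * Q ^ 2 + 3 * Q ^ 2 := by ring
      rw [hn, h10]
      linarith
    have h11 : Q ^ 2 ≤ (CE * (x ^ 2 * R ^ 2)) ^ 2 := pow_le_pow_left₀ hQpos.le hQ 2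
    calc n ≤ (al + |be| + 3) * Q ^ 2 := h8
      _ ≤ (al + |be| + 3) * (CE * (x ^ 2 * R ^ 2)) ^ 2 :=
        mul_le_mul_of_nonneg_left h11 (by positivity)
      _ = (al + |be| + 3) * CE ^ 2 * x ^ 4 * R ^ 4 := by ring

/-- the logarithm of a polynomial bound -/
theorem log_bound (S c6 c7 x R : ℝ) (hc6 : 0 ≤ c6) (hc7 : 0 ≤ c7) (hx : 1 ≤ x) (hR : 1 ≤ R)
    (hS0 : 0 ≤ S) (hS : S ≤ c6 * (x ^ 5 * R ^ 6) + c7) :
    1 + Real.log (1 + S) ≤ (7 + Real.log (1 + c6 + c7)) * (1 + Real.log (1 + x * R)) := by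
  have hx0 : 0 < x := by linarith
  have hR0 : 0 < R := by linarith
  have hxR : 0 < x * R := mul_pos hx0 hR0
  have h1 : x ^ 5 * R ^ 6 ≤ (1 + x * R) ^ 6 := by
    have h2 : x ^ 5 ≤ x ^ 6 := pow_le_pow_right₀ hx (by norm_num)
    calc x ^ 5 * R ^ 6 ≤ x ^ 6 * R ^ 6 := mul_le_mul_of_nonneg_right h2 (by positivity)
      _ = (x * R) ^ 6 := by ring
      _ ≤ (1 + x * R) ^ 6 := pow_le_pow_left₀ hxR.le (by linarith) 6
  have h2 : (1 : ℝ) ≤ (1 + x * R) ^ 6 := one_le_pow₀ (by linarith)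
  have h3 : 1 + S ≤ (1 + c6 + c7) * (1 + x * R) ^ 6 := by
    have h4 : c6 * (x ^ 5 * R ^ 6) ≤ c6 * (1 + x * R) ^ 6 := mul_le_mul_of_nonneg_left h1 hc6
    have h5 : c7 ≤ c7 * (1 + x * R) ^ 6 := le_mul_of_one_le_right hc7 h2
    have h6 : (1 + c6 + c7) * (1 + x * R) ^ 6 =
        (1 + x * R) ^ 6 + c6 * (1 + x * R) ^ 6 + c7 * (1 + x * R) ^ 6 := by ring
    rw [h6]
    linarith
  have h4 := Real.log_le_log (by linarith) h3
  rw [Real.log_mul (by positivity) (by positivity), Real.log_pow] at h4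
  have h5 : 0 ≤ Real.log (1 + c6 + c7) := Real.log_nonneg (by linarith)
  have h6 : 0 ≤ Real.log (1 + x * R) := Real.log_nonneg (by linarith)
  have h7 : 0 ≤ Real.log (1 + c6 + c7) * Real.log (1 + x * R) := mul_nonneg h5 h6
  have h8 : (7 + Real.log (1 + c6 + c7)) * (1 + Real.log (1 + x * R)) = 7 +
      Real.log (1 + c6 + c7) + 7 * Real.log (1 + x * R) +
      Real.log (1 + c6 + c7) * Real.log (1 + x * R) := by ring
  rw [h8]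
  push_cast at h4
  linarith

/-- the height of one point -/
theorem height_bound (Ch S R h0 H u c5 : ℝ) (hCh : 0 ≤ Ch) (hS0 : 0 ≤ S) (hR : 0 ≤ R)
    (hS : 1 + S ≤ 171 * (1 + R)) (hh0 : h0 ≤ c5 * (1 + u)) (hh00 : 0 ≤ h0)
    (hH : H ≤ Ch * (1 + S) ^ 2 * (Real.sqrt (1 + S) + 1 + h0)) :
    H ≤ Ch * 171 ^ 2 * 14 * ((1 + R) ^ 2 * (Real.sqrt (1 + R) + 1 + c5 * (1 + u))) := by
  have h1 : (1 + S) ^ 2 ≤ (171 * (1 + R)) ^ 2 := pow_le_pow_left₀ (by linarith) hS 2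
  have h2 : Real.sqrt (1 + S) ≤ 14 * Real.sqrt (1 + R) := by
    have h3 : 171 * (1 + R) ≤ 14 ^ 2 * (1 + R) := by nlinarith
    calc Real.sqrt (1 + S) ≤ Real.sqrt (14 ^ 2 * (1 + R)) := Real.sqrt_le_sqrt (hS.trans h3)
      _ = 14 * Real.sqrt (1 + R) := by
        rw [Real.sqrt_mul (by norm_num), Real.sqrt_sq (by norm_num)]
  have hs := Real.sqrt_nonneg (1 + R)
  have hs' := Real.sqrt_nonneg (1 + S)
  have h4 : Real.sqrt (1 + S) + 1 + h0 ≤ 14 * (Real.sqrt (1 + R) + 1 + c5 * (1 + u)) := by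
    linarith
  calc H ≤ Ch * (1 + S) ^ 2 * (Real.sqrt (1 + S) + 1 + h0) := hH
    _ ≤ Ch * (171 * (1 + R)) ^ 2 * (14 * (Real.sqrt (1 + R) + 1 + c5 * (1 + u))) := by
      refine mul_le_mul (mul_le_mul_of_nonneg_left h1 hCh) h4 (by positivity) (by positivity)
    _ = Ch * 171 ^ 2 * 14 * ((1 + R) ^ 2 * (Real.sqrt (1 + R) + 1 + c5 * (1 + u))) := by ring

end Pool.Agent.H73.HK
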