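import Pool.Agent.H73.HK.Para
import Pool.Agent.H13.HK.Growth

/-!
# Growth of heights along the orbits of the parabolic group (module HT, interface version 3)

The bookkeeping in `Z^r` is `Pool.Agent.H13.HK.Heights.growth`; here its hypotheses are derived from
Weil's height machine in `Disc`.
-/

namespace Pool.Agent.H73.HK

open scoped BigOperators

variable {Lam : Type} [AddCommGroup Lam] {q : Lam → Lam → ℤ} {M : Manifold Lam q} {L A : Lam}
  {r : ℕ}

/-- additive functions on the combinations which occur -/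
theorem additive_three (NS : AddSubgroup Lam) (F : Lam → ℝ)
    (hF : ∀ G ∈ NS, ∀ G' ∈ NS, F (G + G') = F G + F G') {u v w : Lam} (hu : u ∈ NS) (hv : v ∈ NS)
    (hw : w ∈ NS) (a c : ℤ) : F (u + a • v - c • w) = F u + a * F v - c * F w := by
  let φ : NS →+ ℝ := AddMonoidHom.mk' (fun G => F G) (fun G G' => hF G G.2 G' G'.2)
  have h1 : ((⟨u, hu⟩ + a • ⟨v, hv⟩ - c • ⟨w, hw⟩ : NS) : Lam) = u + a • v - c • w := by
    simp
  have h2 : F (u + a • v - c • w) = φ (⟨u, hu⟩ + a • ⟨v, hv⟩ - c • ⟨w, hw⟩ : NS) := by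
    rw [← h1]; rfl
  rw [h2, map_sub, map_add, map_zsmul, map_zsmul]
  simp only [zsmul_eq_mul]
  rfl

theorem Para.pull_L (π : Para M L A r) (hLL : q L L = 0) (g : Fin r → ℤ) :
    M.pull (π.rho g) L = L := by
  rw [π.pull_eq, hLL, π.b_L]
  simp

theorem Para.pull_A' (π : Para M L A r) (g : Fin r → ℤ) :
    M.pull (π.rho g) A = A + (2 * q L A) • π.b g - (2 * q L A * q (π.b g) (π.b g)) • L := by
  rw [π.pull_eq, π.b_A]
  congr 2
  ring

/-- Every class is dominated by the ample class `A`, uniformly in the points of the orbits. -/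
theorem Disc.dominated {g0 : Fin r → ℤ} {p : ℕ} [Fact p.Prime] {act : (Fin r → ℤ) → M.P → M.P}
    {pull : (Fin r → ℤ) → Lam → Lam}
    (Dd : Disc q (M.NS : Set Lam) M.Ample (M.Sec A) act pull A g0 p) (hA : A ∈ M.Ample) {G : Lam}
    (hG : G ∈ M.NS) : ∃ c : ℝ, 0 ≤ c ∧ ∀ x n, |Dd.H x n G| ≤ c * (1 + |Dd.H x n A|) := by
  have hANS : A ∈ M.NS := M.nef_NS (M.ample_nef hA)
  have hlow : ∀ G ∈ M.NS, ∃ c : ℝ, 0 ≤ c ∧ ∀ x n,
      - Dd.H x n G ≤ c * (1 + |Dd.H x n A|) := by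
    intro G hG
    obtain ⟨N, hN, hNa⟩ := M.ample_dom A hA G hG
    obtain ⟨c, hc⟩ := Dd.H_pos _ hNa
    refine ⟨|c| + N, by positivity, fun x n => ?_⟩
    have h4 := hc x n
    have h5 := additive_three M.NS (Dd.H x n) (Dd.H_add x n) hG hANS hANS (N : ℤ) 0
    rw [zero_smul, sub_zero, natCast_zsmul, add_comm] at h5
    rw [h5] at h4
    push_cast at h4
    have h6 := le_abs_self (Dd.H x n A)
    have h7 := abs_nonneg (Dd.H x n A)
    have h8 := le_abs_self c
    have h9 := abs_nonneg c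
    have hN0 : (0 : ℝ) ≤ N := Nat.cast_nonneg _
    have h10 : (N : ℝ) * Dd.H x n A ≤ N * |Dd.H x n A| := mul_le_mul_of_nonneg_left h6 hN0
    nlinarith [mul_nonneg h9 h7]
  obtain ⟨c1, hc1, h1⟩ := hlow G hG
  obtain ⟨c2, hc2, h2⟩ := hlow (-G) (AddSubgroup.neg_mem _ hG)
  refine ⟨c1 + c2, by positivity, fun x n => ?_⟩
  have hneg : Dd.H x n (-G) = - Dd.H x n G := by
    have h5 := additive_three M.NS (Dd.H x n) (Dd.H_add x n) hG hG hG (-2) 0
    have h6 : G + (-2 : ℤ) • G - (0 : ℤ) • G = -G := by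
      rw [zero_smul, sub_zero, neg_smul, two_smul]; abel
    rw [h6] at h5
    push_cast at h5
    linarith
  have h3 := h1 x n
  have h4 := h2 x n
  rw [hneg] at h4
  have hh : 0 ≤ 1 + |Dd.H x n A| := by positivity
  have p1 := mul_nonneg hc1 hh
  have p2 := mul_nonneg hc2 hh
  rw [abs_le]
  constructor <;> nlinarith

/-- **HEIGHT GROWTH** (step (9')): the height of the point `n.x` is at most
`C (1 + |n|)^2 ((1 + |n|)^(1/2) + 1 + h(x))`. -/
theorem Para.growth (π : Para M L A r) (hr : 2 ≤ r) (hA : A ∈ M.Ample) (hL : L ∈ M.NS)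
    (hLL : q L L = 0) (hLA : 0 < q L A)
    (q_symm : ∀ x y, q x y = q y x) (q_add : ∀ x y z, q (x + y) z = q x z + q y z)
    {g0 : Fin r → ℤ} {p : ℕ} [Fact p.Prime]
    (Dd : Disc q (M.NS : Set Lam) M.Ample (M.Sec A) (fun n (y : M.P) => π.rho n • y)
      (fun n x => M.pull (π.rho n) x) A g0 p) :
    ∃ C : ℝ, 0 ≤ C ∧ ∀ (x : Dd.D) (n : Fin r → ℤ),
      Height.logHeight (Dd.co x n) ≤ C * (1 + ∑ i, |(n i : ℝ)|) ^ 2 *
        (√(1 + ∑ i, |(n i : ℝ)|) + 1 + Height.logHeight (Dd.co x 0)) := by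
  have hANS : A ∈ M.NS := M.nef_NS (M.ample_nef hA)
  obtain ⟨CA, hCA⟩ := Dd.H_A
  let HD : Pool.Agent.H13.HK.Heights :=
    { r := r
      two_le := hr
      X := Dd.D × (Fin r → ℤ)
      act := fun g y => (y.1, y.2 + g)
      act_zero := fun y => by simp
      act_add := fun g g' y => by
        refine Prod.ext rfl ?_
        show y.2 + (g + g') = y.2 + g' + g
        abel
      hA := fun y => Dd.H y.1 y.2 A
      hL := fun y => Dd.H y.1 y.2 L
      k := fun b c => ((-4 * q L A * q (π.b b) (π.b c) : ℤ) : ℝ)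
      k_add := fun b b' c => by
        rw [map_add, q_add]
        push_cast
        ring
      k_symm := fun b c => by rw [q_symm (π.b b)]
      k_pos := fun b hb => by
        have h1 := π.b_neg b hb
        have h2 : 0 < -4 * q L A * q (π.b b) (π.b b) := by nlinarith
        exact_mod_cast h2
      k_int := ⟨1, one_ne_zero, fun b c => ⟨-4 * q L A * q (π.b b) (π.b c), by rw [one_mul]⟩⟩
      invL := fun g => by
        obtain ⟨C, hC⟩ := Dd.H_pull L hL g
        refine ⟨C, fun y => ?_⟩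
        have h1 := hC y.1 y.2
        simp only [π.pull_L hLL g] at h1
        exact h1
      sq := fun g g' => by
        obtain ⟨C1, hC1⟩ := Dd.H_pull A hANS (g + g')
        obtain ⟨C2, hC2⟩ := Dd.H_pull A hANS g
        obtain ⟨C3, hC3⟩ := Dd.H_pull A hANS g'
        refine ⟨C1 + C2 + C3, fun y => ?_⟩
        have h1 := abs_le.1 (hC1 y.1 y.2)
        have h2 := abs_le.1 (hC2 y.1 y.2)
        have h3 := abs_le.1 (hC3 y.1 y.2)
        have hadd := Dd.H_add y.1 y.2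
        have e1 : Dd.H y.1 y.2 (M.pull (π.rho (g + g')) A) = Dd.H y.1 y.2 A +
            ((2 * q L A : ℤ) : ℝ) * Dd.H y.1 y.2 (π.b (g + g')) -
            ((2 * q L A * q (π.b (g + g')) (π.b (g + g')) : ℤ) : ℝ) * Dd.H y.1 y.2 L := by
          rw [π.pull_A']
          exact additive_three M.NS _ hadd hANS (π.b_NS _) hL _ _
        have e2 : Dd.H y.1 y.2 (M.pull (π.rho g) A) = Dd.H y.1 y.2 A +
            ((2 * q L A : ℤ) : ℝ) * Dd.H y.1 y.2 (π.b g) -
            ((2 * q L A * q (π.b g) (π.b g) : ℤ) : ℝ) * Dd.H y.1 y.2 L := by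
          rw [π.pull_A']
          exact additive_three M.NS _ hadd hANS (π.b_NS _) hL _ _
        have e3 : Dd.H y.1 y.2 (M.pull (π.rho g') A) = Dd.H y.1 y.2 A +
            ((2 * q L A : ℤ) : ℝ) * Dd.H y.1 y.2 (π.b g') -
            ((2 * q L A * q (π.b g') (π.b g') : ℤ) : ℝ) * Dd.H y.1 y.2 L := by
          rw [π.pull_A']
          exact additive_three M.NS _ hadd hANS (π.b_NS _) hL _ _
        have e4 : Dd.H y.1 y.2 (π.b (g + g')) = Dd.H y.1 y.2 (π.b g) + Dd.H y.1 y.2 (π.b g') := by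
          rw [map_add]
          exact hadd _ (π.b_NS _) _ (π.b_NS _)
        have e5 : q (π.b (g + g')) (π.b (g + g')) =
            q (π.b g) (π.b g) + 2 * q (π.b g) (π.b g') + q (π.b g') (π.b g') := by
          rw [map_add, q_add, q_symm (π.b g), q_symm (π.b g'), q_add, q_add, q_symm (π.b g') (π.b g)]
          ring
        have e6 : Dd.H y.1 y.2 (M.pull (π.rho (g + g')) A) - Dd.H y.1 y.2 (M.pull (π.rho g) A) -
            Dd.H y.1 y.2 (M.pull (π.rho g') A) + Dd.H y.1 y.2 A -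
            ((-4 * q L A * q (π.b g) (π.b g') : ℤ) : ℝ) * Dd.H y.1 y.2 L = 0 := by
          rw [e1, e2, e3, e4, e5]
          push_cast
          ring
        show |Dd.H y.1 (y.2 + (g + g')) A - Dd.H y.1 (y.2 + g) A - Dd.H y.1 (y.2 + g') A +
          Dd.H y.1 y.2 A - ((-4 * q L A * q (π.b g) (π.b g') : ℤ) : ℝ) * Dd.H y.1 y.2 L| ≤ _
        rw [abs_le]
        constructor <;> linarith [h1.1, h1.2, h2.1, h2.2, h3.1, h3.2]
      domL := by
        obtain ⟨c, _, hc⟩ := Dd.dominated hA hL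
        exact ⟨c, fun y => hc y.1 y.2⟩
      domA := fun g => by
        obtain ⟨C, hC⟩ := Dd.H_pull A hANS g
        obtain ⟨c, hc0, hc⟩ := Dd.dominated hA (M.pull_NS (π.rho g) A hANS)
        refine ⟨|C| + c, fun y => ?_⟩
        have h1 := abs_le.1 (hC y.1 y.2)
        have h2 := abs_le.1 (hc y.1 y.2)
        have h3 := le_abs_self C
        have h4 := abs_nonneg (Dd.H y.1 y.2 A)
        have h5 := mul_nonneg (abs_nonneg C) h4
        show |Dd.H y.1 (y.2 + g) A| ≤ _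
        rw [abs_le]
        constructor <;> nlinarith [h1.1, h1.2, h2.1, h2.2] }
  obtain ⟨C, hC0, hC⟩ := HD.growth
  refine ⟨|CA| + C * (1 + |CA|), by positivity, fun x n => ?_⟩
  have h1 := hC (∑ i, (n i).natAbs) n (x, 0) (by
    intro i
    have h2 : (n i).natAbs ≤ ∑ i, (n i).natAbs :=
      Finset.single_le_sum (f := fun i => (n i).natAbs) (fun _ _ => Nat.zero_le _)
        (Finset.mem_univ i)
    rw [Int.abs_eq_natAbs]
    exact_mod_cast h2)
  have hcast : ((∑ i, (n i).natAbs : ℕ) : ℝ) = ∑ i, |(n i : ℝ)| := by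
    push_cast
    refine Finset.sum_congr rfl fun i _ => ?_
    rw [Nat.cast_natAbs]
    push_cast
    rfl
  rw [hcast] at h1
  have h2 : |Dd.H x n A| ≤ C * (∑ i, |(n i : ℝ)| + 1) ^ 2 *
      (1 + |Dd.H x 0 A| + √(∑ i, |(n i : ℝ)|)) := by
    have h3 : HD.hA (HD.act n (x, 0)) = Dd.H x n A := by
      show Dd.H x (0 + n) A = _
      rw [zero_add]
    rw [← h3]
    exact h1
  obtain ⟨S, hS⟩ : ∃ S : ℝ, S = ∑ i, |(n i : ℝ)| := ⟨_, rfl⟩
  have hS0 : 0 ≤ S := by rw [hS]; exact Finset.sum_nonneg fun i _ => abs_nonneg _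
  rw [← hS] at h2 ⊢
  obtain ⟨h, hh'⟩ : ∃ h, h = Height.logHeight (Dd.co x 0) := ⟨_, rfl⟩
  have hh : 0 ≤ h := by rw [hh']; exact Height.logHeight_nonneg _
  have h4 := abs_le.1 (hCA x n)
  have h5 := abs_le.1 (hCA x 0)
  have h6 := le_abs_self CA
  have h6' := abs_nonneg CA
  have h7 : |Dd.H x 0 A| ≤ h + |CA| := by
    rw [hh', abs_le]
    have := Height.logHeight_nonneg (Dd.co x 0)
    constructor <;> linarith [h5.1, h5.2]
  have h8 : √S ≤ √(1 + S) := Real.sqrt_le_sqrt (by linarith)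
  have hs : 0 ≤ √(1 + S) := Real.sqrt_nonneg _
  have h9 : Height.logHeight (Dd.co x n) ≤ |CA| + |Dd.H x n A| := by
    have := le_abs_self (Dd.H x n A)
    linarith [h4.1, h4.2]
  rw [← hh']
  have h10 : C * (S + 1) ^ 2 * (1 + |Dd.H x 0 A| + √S) ≤
      C * (1 + |CA|) * (1 + S) ^ 2 * (√(1 + S) + 1 + h) := by
    have e1 : C * (1 + |CA|) * (1 + S) ^ 2 * (√(1 + S) + 1 + h) =
        C * (S + 1) ^ 2 * ((1 + |CA|) * (√(1 + S) + 1 + h)) := by ring
    rw [e1]
    refine mul_le_mul_of_nonneg_left ?_ (by positivity)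
    nlinarith [mul_nonneg h6' hs, mul_nonneg h6' hh]
  have h11 : |CA| ≤ |CA| * (1 + S) ^ 2 * (√(1 + S) + 1 + h) := by
    have hs2 : (1 : ℝ) ≤ (1 + S) ^ 2 := by nlinarith
    have hs3 : (1 : ℝ) ≤ √(1 + S) + 1 + h := by linarith
    have hs4 : (1 : ℝ) ≤ (1 + S) ^ 2 * (√(1 + S) + 1 + h) := by nlinarith
    rw [mul_assoc]
    nlinarith
  have e2 : (|CA| + C * (1 + |CA|)) * (1 + S) ^ 2 * (√(1 + S) + 1 + h) =
      |CA| * (1 + S) ^ 2 * (√(1 + S) + 1 + h) +
        C * (1 + |CA|) * (1 + S) ^ 2 * (√(1 + S) + 1 + h) := by ring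
  rw [e2]
  linarith

end Pool.Agent.H73.HK
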