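import Mathlib

/-!
# The final inequality of the interpolation argument, rank three

With `R ^ 15` at most of the order of `m ^ 4`, `N` of the order of `m ^ 4 R ^ 4` and `D` of the order
of the cube root of `N`, the lower bound `P * D * (N / 2)` is larger than `N` times the height
`m R ^ 2 (√R + log m)`.
-/

namespace Pool.Agent.H73.HK

open Filter Topology

private lemma ev_pow_log (A B : ℝ) (hB : 0 < B) :
    ∀ᶠ m : ℕ in atTop, A * (1 + Real.log m) ^ 45 < B * (m : ℝ) ^ 7 := by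
  have h1 : (fun x : ℝ => Real.log x ^ 45) =o[atTop] (id : ℝ → ℝ) :=
    Real.isLittleO_pow_log_id_atTop
  have h2 := h1.bound (c := B / (2 * (2 ^ 45 * (|A| + 1)))) (by positivity)
  have h6 : Tendsto (fun m : ℕ => (m : ℝ)) atTop atTop := tendsto_natCast_atTop_atTop
  filter_upwards [h6.eventually h2, h6.eventually (eventually_ge_atTop (Real.exp 1))] with m hm he
  have hm1 : 1 ≤ (m : ℝ) := by
    have h := Real.add_one_le_exp (1 : ℝ)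
    linarith
  have hm0 : 0 < (m : ℝ) := by linarith
  have hl : 1 ≤ Real.log m := by
    rw [Real.le_log_iff_exp_le hm0]
    exact he
  have h3 : Real.log m ^ 45 ≤ B / (2 * (2 ^ 45 * (|A| + 1))) * m := by
    have h4 : ‖Real.log m ^ 45‖ = Real.log m ^ 45 := by
      rw [Real.norm_eq_abs, abs_of_nonneg (by positivity)]
    rw [h4, id, Real.norm_eq_abs, abs_of_pos hm0] at hm
    exact hm
  have h5 : (1 + Real.log m) ^ 45 ≤ 2 ^ 45 * Real.log m ^ 45 := by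
    rw [← mul_pow]
    exact pow_le_pow_left₀ (by linarith) (by linarith) 45
  have h7 : A * (1 + Real.log m) ^ 45 ≤ (|A| + 1) * (2 ^ 45 * Real.log m ^ 45) := by
    have h8 : A * (1 + Real.log m) ^ 45 ≤ (|A| + 1) * (1 + Real.log m) ^ 45 :=
      mul_le_mul_of_nonneg_right (by linarith [le_abs_self A]) (by positivity)
    exact h8.trans (mul_le_mul_of_nonneg_left h5 (by positivity))
  have h9 : (|A| + 1) * (2 ^ 45 * Real.log m ^ 45) ≤ B / 2 * m := by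
    calc (|A| + 1) * (2 ^ 45 * Real.log m ^ 45)
        ≤ (|A| + 1) * (2 ^ 45 * (B / (2 * (2 ^ 45 * (|A| + 1))) * m)) := by gcongr
      _ = B / 2 * m := by field_simp
  have h10 : (m : ℝ) ≤ (m : ℝ) ^ 7 := le_self_pow₀ hm1 (by norm_num)
  have h11 : B / 2 * m < B * (m : ℝ) ^ 7 := by nlinarith
  linarith

private lemma ev_const (A : ℝ) : ∀ᶠ m : ℕ in atTop, A < (m : ℝ) := by
  have h6 : Tendsto (fun m : ℕ => (m : ℝ)) atTop atTop := tendsto_natCast_atTop_atTop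
  exact h6.eventually (eventually_gt_atTop A)

/-- The core: `c2 x ≤ F R ^ 2 (y + l) ^ 3`, `y ^ 2 = R`, `R ^ 15 ≤ c1 x ^ 4`. -/
private lemma core (c1 c2 F x R y l : ℝ) (hc2 : 0 < c2) (hF : 0 ≤ F) (hx : 0 < x)
    (hR : 0 < R) (hy : 0 < y) (hyR : y ^ 2 = R) (hl : 0 < l)
    (h15 : R ^ 15 ≤ c1 * x ^ 4) (h : c2 * x ≤ F * (R ^ 2 * (y + l) ^ 3)) :
    c2 ^ 30 * x ^ 2 ≤ (64 * F ^ 2) ^ 15 * c1 ^ 7 ∨ c2 ^ 15 * x ^ 7 ≤ (8 * F) ^ 15 * c1 ^ 2 * l ^ 45 := by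
  rcases le_total l y with hly | hly
  · left
    have h1 : (y + l) ^ 3 ≤ (2 * y) ^ 3 := pow_le_pow_left₀ (by positivity) (by linarith) 3
    have h2 : c2 * x ≤ 8 * F * (R ^ 2 * y ^ 3) := by
      calc c2 * x ≤ F * (R ^ 2 * (y + l) ^ 3) := h
        _ ≤ F * (R ^ 2 * (2 * y) ^ 3) := by gcongr
        _ = 8 * F * (R ^ 2 * y ^ 3) := by ring
    have h3 : (c2 * x) ^ 2 ≤ (8 * F * (R ^ 2 * y ^ 3)) ^ 2 := pow_le_pow_left₀ (by positivity) h2 2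
    have h4 : (8 * F * (R ^ 2 * y ^ 3)) ^ 2 = 64 * F ^ 2 * R ^ 7 := by
      have : y ^ 6 = R ^ 3 := by rw [← hyR]; ring
      calc (8 * F * (R ^ 2 * y ^ 3)) ^ 2 = 64 * F ^ 2 * R ^ 4 * y ^ 6 := by ring
        _ = 64 * F ^ 2 * R ^ 7 := by rw [this]; ring
    rw [h4] at h3
    have h5 : ((c2 * x) ^ 2) ^ 15 ≤ (64 * F ^ 2 * R ^ 7) ^ 15 := pow_le_pow_left₀ (by positivity) h3 15
    have h6 : (64 * F ^ 2 * R ^ 7) ^ 15 ≤ (64 * F ^ 2) ^ 15 * (c1 * x ^ 4) ^ 7 := by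
      calc (64 * F ^ 2 * R ^ 7) ^ 15 = (64 * F ^ 2) ^ 15 * (R ^ 15) ^ 7 := by ring
        _ ≤ (64 * F ^ 2) ^ 15 * (c1 * x ^ 4) ^ 7 := by gcongr
    have h7 : c2 ^ 30 * x ^ 2 * x ^ 28 ≤ (64 * F ^ 2) ^ 15 * c1 ^ 7 * x ^ 28 := by
      calc c2 ^ 30 * x ^ 2 * x ^ 28 = ((c2 * x) ^ 2) ^ 15 := by ring
        _ ≤ (64 * F ^ 2) ^ 15 * (c1 * x ^ 4) ^ 7 := h5.trans h6
        _ = (64 * F ^ 2) ^ 15 * c1 ^ 7 * x ^ 28 := by ring
    exact le_of_mul_le_mul_right h7 (by positivity)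
  · right
    have h1 : (y + l) ^ 3 ≤ (2 * l) ^ 3 := pow_le_pow_left₀ (by positivity) (by linarith) 3
    have h2 : c2 * x ≤ 8 * F * (R ^ 2 * l ^ 3) := by
      calc c2 * x ≤ F * (R ^ 2 * (y + l) ^ 3) := h
        _ ≤ F * (R ^ 2 * (2 * l) ^ 3) := by gcongr
        _ = 8 * F * (R ^ 2 * l ^ 3) := by ring
    have h3 : (c2 * x) ^ 15 ≤ (8 * F * (R ^ 2 * l ^ 3)) ^ 15 :=
      pow_le_pow_left₀ (by positivity) h2 15
    have h4 : (8 * F * (R ^ 2 * l ^ 3)) ^ 15 ≤ (8 * F) ^ 15 * (c1 * x ^ 4) ^ 2 * l ^ 45 := by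
      calc (8 * F * (R ^ 2 * l ^ 3)) ^ 15 = (8 * F) ^ 15 * (R ^ 15) ^ 2 * l ^ 45 := by ring
        _ ≤ (8 * F) ^ 15 * (c1 * x ^ 4) ^ 2 * l ^ 45 := by gcongr
    have h5 : c2 ^ 15 * x ^ 7 * x ^ 8 ≤ (8 * F) ^ 15 * c1 ^ 2 * l ^ 45 * x ^ 8 := by
      calc c2 ^ 15 * x ^ 7 * x ^ 8 = (c2 * x) ^ 15 := by ring
        _ ≤ (8 * F) ^ 15 * (c1 * x ^ 4) ^ 2 * l ^ 45 := h3.trans h4
        _ = (8 * F) ^ 15 * c1 ^ 2 * l ^ 45 * x ^ 8 := by ring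
    exact le_of_mul_le_mul_right h5 (by positivity)

/-- The right hand side after division by `N`. -/
private lemma rhs_le (c4 c5 d a x R y l u v : ℝ) (hc4 : 0 ≤ c4) (hc5 : 0 ≤ c5) (hd : 0 ≤ d)
    (ha : 0 ≤ a) (hx1 : 1 ≤ x) (hR1 : 1 ≤ R) (hy1 : 1 ≤ y) (hl1 : 1 ≤ l) (hu0 : 0 ≤ u)
    (hu : u ≤ 2 * l) (hv : v ≤ a * l) :
    c4 * x * (1 + R) ^ 2 * (y + 1 + c5 * (1 + u)) + d * v ≤
      (8 * c4 + 12 * c4 * c5 + d * a) * (x * R ^ 2 * (y + l)) := by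
  have hx0 : 0 < x := by linarith
  have hR0 : 0 < R := by linarith
  have hl0 : 0 < l := by linarith
  have hy0 : 0 < y := by linarith
  have h1 : (1 + R) ^ 2 ≤ 4 * R ^ 2 := by nlinarith
  have h2 : y + 1 + c5 * (1 + u) ≤ 2 * y + c5 * (3 * l) := by
    have h3 : 1 + u ≤ 3 * l := by linarith
    have h3' := mul_le_mul_of_nonneg_left h3 hc5
    linarith
  have h4 : c4 * x * (1 + R) ^ 2 * (y + 1 + c5 * (1 + u)) ≤
      c4 * x * (4 * R ^ 2) * (2 * y + c5 * (3 * l)) := by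
    have h5 : 0 ≤ y + 1 + c5 * (1 + u) := by positivity
    gcongr
  have h6 : d * v ≤ d * (a * l) := mul_le_mul_of_nonneg_left hv hd
  have h7 : 1 ≤ x * R ^ 2 := by
    have h70 : 1 ≤ R ^ 2 := one_le_pow₀ hR1
    calc (1 : ℝ) = 1 * 1 := by norm_num
      _ ≤ x * R ^ 2 := by gcongr
  have h8 : d * (a * l) ≤ d * a * (x * R ^ 2 * (y + l)) := by
    have h9 : l ≤ x * R ^ 2 * (y + l) := by
      calc l ≤ 1 * (y + l) := by linarith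
        _ ≤ x * R ^ 2 * (y + l) := by gcongr
    calc d * (a * l) = d * a * l := by ring
      _ ≤ d * a * (x * R ^ 2 * (y + l)) := by gcongr
  have h11 : c4 * x * (4 * R ^ 2) * (2 * y + c5 * (3 * l)) ≤
      (8 * c4 + 12 * c4 * c5) * (x * R ^ 2 * (y + l)) := by
    have h12 : (8 * c4 + 12 * c4 * c5) * (x * R ^ 2 * (y + l)) -
        c4 * x * (4 * R ^ 2) * (2 * y + c5 * (3 * l)) =
        c4 * (x * R ^ 2) * (8 * l) + c4 * c5 * (x * R ^ 2) * (12 * y) := by ring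
    have h13 : 0 ≤ c4 * (x * R ^ 2) * (8 * l) + c4 * c5 * (x * R ^ 2) * (12 * y) := by positivity
    linarith
  have h14 : (8 * c4 + 12 * c4 * c5 + d * a) * (x * R ^ 2 * (y + l)) =
      (8 * c4 + 12 * c4 * c5) * (x * R ^ 2 * (y + l)) + d * a * (x * R ^ 2 * (y + l)) := by
    ring
  rw [h14]
  linarith

/-- Cubing. -/
private lemma cube_le (c2 E P x R D s : ℝ) (hP : 0 < P) (hx : 0 < x)
    (hR : 0 < R) (hD1 : 1 ≤ D) (hs : 0 < s) (hN : c2 * x ^ 4 * R ^ 4 < 2 * (D + 1) ^ 3)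
    (h : P * D ≤ 2 * E * (x * R ^ 2 * s)) :
    c2 * x ≤ 128 * E ^ 3 / P ^ 3 * (R ^ 2 * s ^ 3) := by
  have h1 : (D + 1) ^ 3 ≤ (2 * D) ^ 3 := pow_le_pow_left₀ (by positivity) (by linarith) 3
  have h2 : c2 * x ^ 4 * R ^ 4 ≤ 16 * D ^ 3 := by
    have h3 : (2 * D) ^ 3 = 8 * D ^ 3 := by ring
    rw [h3] at h1
    linarith
  have h4 : (P * D) ^ 3 ≤ (2 * E * (x * R ^ 2 * s)) ^ 3 :=
    pow_le_pow_left₀ (by positivity) h 3
  have hcube : c2 * x ^ 4 * R ^ 4 * P ^ 3 ≤ 128 * E ^ 3 * (x * R ^ 2 * s) ^ 3 := by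
    calc c2 * x ^ 4 * R ^ 4 * P ^ 3 ≤ 16 * D ^ 3 * P ^ 3 := by gcongr
      _ = 16 * (P * D) ^ 3 := by ring
      _ ≤ 16 * (2 * E * (x * R ^ 2 * s)) ^ 3 := by gcongr
      _ = 128 * E ^ 3 * (x * R ^ 2 * s) ^ 3 := by ring
  have h5 : (c2 * x) * (x ^ 3 * R ^ 4 * P ^ 3) ≤
      (128 * E ^ 3 / P ^ 3 * (R ^ 2 * s ^ 3)) * (x ^ 3 * R ^ 4 * P ^ 3) := by
    have h6 : (128 * E ^ 3 / P ^ 3 * (R ^ 2 * s ^ 3)) * (x ^ 3 * R ^ 4 * P ^ 3) =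
        128 * E ^ 3 * (x * R ^ 2 * s) ^ 3 := by
      field_simp
    rw [h6]
    calc (c2 * x) * (x ^ 3 * R ^ 4 * P ^ 3) = c2 * x ^ 4 * R ^ 4 * P ^ 3 := by ring
      _ ≤ _ := hcube
  exact le_of_mul_le_mul_right h5 (by positivity)

private lemma le_of_pow (c1 x R : ℝ) (hx1 : 1 < x) (hc : c1 < x) (h15 : R ^ 15 ≤ c1 * x ^ 4) :
    R ≤ x := by
  by_contra hlt
  push Not at hlt
  have hx0 : 0 < x := by linarith
  have h1 : x ^ 15 < R ^ 15 := pow_lt_pow_left₀ hlt hx0.le (by norm_num)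
  have h3 : x ≤ x ^ 11 := le_self_pow₀ hx1.le (by norm_num)
  have h2 : c1 * x ^ 4 ≤ x ^ 15 := by
    calc c1 * x ^ 4 ≤ x ^ 11 * x ^ 4 := mul_le_mul_of_nonneg_right (by linarith) (by positivity)
      _ = x ^ 15 := by ring
  linarith

private lemma log_one (x R : ℝ) (hx1 : 1 < x) (hR1 : 1 ≤ R) (hRx : R ≤ x) :
    Real.log (1 + x * R) ≤ 2 * (1 + Real.log x) := by
  have hx0 : 0 < x := by linarith
  have hR0 : 0 < R := by linarith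
  have h1 : 1 + x * R ≤ 2 * x ^ 2 := by nlinarith
  have h2 : Real.log (1 + x * R) ≤ Real.log (2 * x ^ 2) := Real.log_le_log (by positivity) h1
  have h3 : Real.log (2 * x ^ 2) = Real.log 2 + 2 * Real.log x := by
    rw [Real.log_mul (by norm_num) (by positivity), Real.log_pow]
    norm_num
  have h4 : Real.log 2 ≤ 1 := by
    have := Real.log_two_lt_d9
    linarith
  linarith

private lemma log_two (c3 x R N : ℝ) (hc3 : 0 < c3) (hx1 : 1 < x) (hR1 : 1 ≤ R) (hRx : R ≤ x)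
    (hN0 : 0 < N) (hN2 : N ≤ c3 * x ^ 4 * R ^ 4) :
    Real.log N ≤ (|Real.log c3| + 8) * (1 + Real.log x) := by
  have hx0 : 0 < x := by linarith
  have hR0 : 0 < R := by linarith
  have hl : 0 ≤ Real.log x := Real.log_nonneg hx1.le
  have h1 : N ≤ c3 * x ^ 8 := by
    have h2 : R ^ 4 ≤ x ^ 4 := pow_le_pow_left₀ hR0.le hRx 4
    calc N ≤ c3 * x ^ 4 * R ^ 4 := hN2
      _ ≤ c3 * x ^ 4 * x ^ 4 := mul_le_mul_of_nonneg_left h2 (by positivity)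
      _ = c3 * x ^ 8 := by ring
  have h2 : Real.log N ≤ Real.log (c3 * x ^ 8) := Real.log_le_log hN0 h1
  have h3 : Real.log (c3 * x ^ 8) = Real.log c3 + 8 * Real.log x := by
    rw [Real.log_mul hc3.ne' (by positivity), Real.log_pow]
    norm_num
  have h4 : Real.log c3 ≤ |Real.log c3| * (1 + Real.log x) :=
    (le_abs_self _).trans (le_mul_of_one_le_right (abs_nonneg _) (by linarith))
  calc Real.log N ≤ Real.log c3 + 8 * Real.log x := by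
        rw [← h3]
        exact h2
    _ ≤ |Real.log c3| * (1 + Real.log x) + 8 * (1 + Real.log x) := add_le_add h4 (by linarith)
    _ = (|Real.log c3| + 8) * (1 + Real.log x) := by ring

private lemma big (c2 x R : ℝ) (hc2 : 0 < c2) (hx1 : 1 < x) (hR1 : 1 ≤ R) (h : 2 / c2 < x) :
    2 < c2 * x ^ 4 * R ^ 4 := by
  have hx0 : 0 < x := by linarith
  have h1 : 2 < c2 * x := by
    rw [div_lt_iff₀ hc2] at h
    linarith
  have h2 : x ≤ x ^ 4 := le_self_pow₀ hx1.le (by norm_num)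
  have h3 : 1 ≤ R ^ 4 := one_le_pow₀ hR1
  calc 2 < c2 * x := h1
    _ ≤ c2 * x ^ 4 := mul_le_mul_of_nonneg_left h2 hc2.le
    _ ≤ c2 * x ^ 4 * R ^ 4 := le_mul_of_one_le_right (by positivity) h3

/-- **The final inequality**, rank three and heights with a saving of `√R`. -/
theorem num_three (c1 c2 c3 c4 c5 d P : ℝ) (hc1 : 0 < c1) (hc2 : 0 < c2) (hc3 : 0 < c3)
    (hc4 : 0 ≤ c4) (hc5 : 0 ≤ c5) (hd : 0 ≤ d) (hP : 0 < P) :
    ∃ m0 : ℕ, ∀ m : ℕ, m0 ≤ m → ∀ (R : ℝ) (N D : ℕ), 1 ≤ R → R ^ 15 ≤ c1 * (m : ℝ) ^ 4 →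
      c2 * (m : ℝ) ^ 4 * R ^ 4 ≤ N → (N : ℝ) ≤ c3 * (m : ℝ) ^ 4 * R ^ 4 →
      (N : ℝ) < 2 * ((D : ℝ) + 1) ^ 3 →
      (N : ℝ) * (c4 * m * (1 + R) ^ 2 * (Real.sqrt R + 1 + c5 * (1 + Real.log (1 + m * R)))) +
        d * N * Real.log N < P * D * ((N : ℝ) / 2) := by
  obtain ⟨E, hE⟩ : ∃ E : ℝ, E = 8 * c4 + 12 * c4 * c5 + d * (|Real.log c3| + 8) := ⟨_, rfl⟩
  obtain ⟨F, hF⟩ : ∃ F : ℝ, F = 128 * E ^ 3 / P ^ 3 := ⟨_, rfl⟩
  have hE0 : 0 ≤ E := by rw [hE]; positivity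
  have hF0 : 0 ≤ F := by rw [hF]; positivity
  have hev : ∀ᶠ m : ℕ in atTop, (8 * F) ^ 15 * c1 ^ 2 * (1 + Real.log m) ^ 45 <
      c2 ^ 15 * (m : ℝ) ^ 7 := ev_pow_log _ _ (by positivity)
  have hall : ∀ᶠ m : ℕ in atTop, (8 * F) ^ 15 * c1 ^ 2 * (1 + Real.log m) ^ 45 <
      c2 ^ 15 * (m : ℝ) ^ 7 ∧ (64 * F ^ 2) ^ 15 * c1 ^ 7 / c2 ^ 30 < (m : ℝ) ∧ c1 < (m : ℝ) ∧
      1 < (m : ℝ) ∧ 2 / c2 < (m : ℝ) := by
    filter_upwards [hev, ev_const ((64 * F ^ 2) ^ 15 * c1 ^ 7 / c2 ^ 30), ev_const c1, ev_const 1,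
      ev_const (2 / c2)] with m h1 h2 h3 h4 h5
    exact ⟨h1, h2, h3, h4, h5⟩
  obtain ⟨m0, hm0⟩ := eventually_atTop.1 hall
  refine ⟨m0, fun m hm R N D hR1 h15 hN1 hN2 hD => ?_⟩
  obtain ⟨e1, e2, e3, e4, e5⟩ := hm0 m hm
  generalize (m : ℝ) = x at *
  have hx0 : 0 < x := by linarith
  have hR0 : 0 < R := by linarith
  have hlog0 : 0 ≤ Real.log x := Real.log_nonneg e4.le
  by_contra hcon
  push Not at hcon
  have hRx : R ≤ x := le_of_pow c1 x R e4 e3 h15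
  have hyR : Real.sqrt R ^ 2 = R := Real.sq_sqrt hR0.le
  have hy1 : 1 ≤ Real.sqrt R := Real.one_le_sqrt.2 hR1
  generalize Real.sqrt R = y at *
  have hy0 : 0 < y := by linarith
  have hl1 : 1 ≤ 1 + Real.log x := by linarith
  have hx4 := big c2 x R hc2 e4 hR1 e5
  have hN0 : 0 < (N : ℝ) := by linarith
  have hN3 : 2 < (N : ℝ) := by linarith
  have hlog1 := log_one x R e4 hR1 hRx
  have hlogN := log_two c3 x R N hc3 e4 hR1 hRx hN0 hN2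
  have hD1 : 1 ≤ (D : ℝ) := by
    rcases Nat.eq_zero_or_pos D with h0 | h0
    · rw [h0, Nat.cast_zero] at hD
      linarith
    · exact_mod_cast h0
  have hu0 : 0 ≤ Real.log (1 + x * R) := Real.log_nonneg (by
    have := mul_pos hx0 hR0
    linarith)
  generalize Real.log (1 + x * R) = u at *
  generalize Real.log (N : ℝ) = v at *
  generalize (N : ℝ) = n at *
  generalize 1 + Real.log x = l at *
  have hl0 : 0 < l := by linarith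
  have hdiv : P * D / 2 ≤ c4 * x * (1 + R) ^ 2 * (y + 1 + c5 * (1 + u)) + d * v := by
    have h1 : (P * D / 2) * n ≤ (c4 * x * (1 + R) ^ 2 * (y + 1 + c5 * (1 + u)) + d * v) * n := by
      have h2 : P * D * (n / 2) = (P * D / 2) * n := by ring
      have h3 : n * (c4 * x * (1 + R) ^ 2 * (y + 1 + c5 * (1 + u))) + d * n * v =
          (c4 * x * (1 + R) ^ 2 * (y + 1 + c5 * (1 + u)) + d * v) * n := by ring
      rw [← h2, ← h3]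
      exact hcon
    exact le_of_mul_le_mul_right h1 hN0
  have hrhs := rhs_le c4 c5 d (|Real.log c3| + 8) x R y l u v hc4 hc5 hd (by positivity) e4.le hR1
    hy1 hl1 hu0 hlog1 hlogN
  rw [← hE] at hrhs
  have hDle : P * D ≤ 2 * E * (x * R ^ 2 * (y + l)) := by linarith
  have hcore : c2 * x ≤ F * (R ^ 2 * (y + l) ^ 3) := by
    rw [hF]
    exact cube_le c2 E P x R D (y + l) hP hx0 hR0 hD1 (by positivity)
      (lt_of_le_of_lt hN1 hD) hDle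
  rcases core c1 c2 F x R y l hc2 hF0 hx0 hR0 hy0 hyR hl0 h15 hcore with h | h
  · rw [div_lt_iff₀ (by positivity)] at e2
    have h1 : x ≤ x ^ 2 := le_self_pow₀ e4.le (by norm_num)
    have h2 : x * c2 ^ 30 ≤ c2 ^ 30 * x ^ 2 := by
      rw [mul_comm]
      exact mul_le_mul_of_nonneg_left h1 (by positivity)
    linarith
  · linarith

/-- The form used in the assembly: `R = 2 ^ K`. -/
theorem num_board (c1 c2 c3 c4 c5 d P : ℝ) (hc1 : 0 < c1) (hc2 : 0 < c2) (hc3 : 0 < c3)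
    (hc4 : 0 ≤ c4) (hc5 : 0 ≤ c5) (hd : 0 ≤ d) (hP : 0 < P) :
    ∃ m0 : ℕ, ∀ m : ℕ, m0 ≤ m → ∀ K N D : ℕ,
      ((2 : ℝ) ^ K) ^ 15 ≤ 2 ^ 15 * (c1 * (m : ℝ) ^ 4) + 2 ^ 15 →
      c2 * (m : ℝ) ^ 4 * ((2 : ℝ) ^ K) ^ 4 ≤ N → (N : ℝ) ≤ c3 * (m : ℝ) ^ 4 * ((2 : ℝ) ^ K) ^ 4 →
      (N : ℝ) < 2 * ((D : ℝ) + 1) ^ 3 →
      (N : ℝ) * (c4 * m * (1 + (2 : ℝ) ^ K) ^ 2 * (Real.sqrt (1 + (2 : ℝ) ^ K) + 1 +
        c5 * (1 + Real.log (1 + m * (2 : ℝ) ^ K)))) + d * N * Real.log N <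
      P * D * ((N : ℝ) / 2) := by
  obtain ⟨m0, hm0⟩ := num_three (2 ^ 15 * c1 + 2 ^ 15) c2 c3 (2 * c4) c5 d P (by positivity) hc2 hc3
    (by positivity) hc5 hd hP
  refine ⟨max m0 1, fun m hm K N D h15 hN1 hN2 hD => ?_⟩
  have hm1 : (1 : ℝ) ≤ m := by exact_mod_cast (le_max_right m0 1).trans hm
  have hR1 : (1 : ℝ) ≤ (2 : ℝ) ^ K := one_le_pow₀ (by norm_num)
  have hm4 : (1 : ℝ) ≤ (m : ℝ) ^ 4 := one_le_pow₀ hm1
  have h := hm0 m ((le_max_left m0 1).trans hm) ((2 : ℝ) ^ K) N D hR1 (by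
    calc ((2 : ℝ) ^ K) ^ 15 ≤ 2 ^ 15 * (c1 * (m : ℝ) ^ 4) + 2 ^ 15 := h15
      _ ≤ 2 ^ 15 * (c1 * (m : ℝ) ^ 4) + 2 ^ 15 * (m : ℝ) ^ 4 := by linarith
      _ = (2 ^ 15 * c1 + 2 ^ 15) * (m : ℝ) ^ 4 := by ring) hN1 hN2 hD
  refine lt_of_le_of_lt (add_le_add ?_ le_rfl) h
  refine mul_le_mul_of_nonneg_left ?_ (Nat.cast_nonneg N)
  have hsqrt : Real.sqrt (1 + (2 : ℝ) ^ K) ≤ 2 * Real.sqrt ((2 : ℝ) ^ K) := by
    have h1 : (1 : ℝ) + 2 ^ K ≤ 2 ^ 2 * 2 ^ K := by linarith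
    calc Real.sqrt (1 + (2 : ℝ) ^ K) ≤ Real.sqrt (2 ^ 2 * 2 ^ K) := Real.sqrt_le_sqrt h1
      _ = 2 * Real.sqrt ((2 : ℝ) ^ K) := by
        rw [Real.sqrt_mul (by norm_num), Real.sqrt_sq (by norm_num)]
  have hlog : 0 ≤ Real.log (1 + m * (2 : ℝ) ^ K) := Real.log_nonneg (by
    have : (0 : ℝ) ≤ m * (2 : ℝ) ^ K := by positivity
    linarith)
  generalize Real.sqrt (1 + (2 : ℝ) ^ K) = s1 at *
  have hs2 : 0 ≤ Real.sqrt ((2 : ℝ) ^ K) := Real.sqrt_nonneg _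
  generalize Real.sqrt ((2 : ℝ) ^ K) = s2 at *
  generalize Real.log (1 + m * (2 : ℝ) ^ K) = u at *
  have h2 : s1 + 1 + c5 * (1 + u) ≤ 2 * (s2 + 1 + c5 * (1 + u)) := by
    have : 0 ≤ c5 * (1 + u) := by positivity
    linarith
  calc c4 * m * (1 + (2 : ℝ) ^ K) ^ 2 * (s1 + 1 + c5 * (1 + u))
      ≤ c4 * m * (1 + (2 : ℝ) ^ K) ^ 2 * (2 * (s2 + 1 + c5 * (1 + u))) :=
        mul_le_mul_of_nonneg_left h2 (by positivity)
    _ = 2 * c4 * m * (1 + (2 : ℝ) ^ K) ^ 2 * (s2 + 1 + c5 * (1 + u)) := by ring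

end Pool.Agent.H73.HK
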