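import Pool.Agent.H73.HK.Minor
import Pool.Agent.H73.HK.Consts
import Pool.Agent.H73.HK.ALG
import Pool.Agent.H73.HK.HT
import Pool.Agent.H73.HK.NUM3

/-!
# The end of the arithmetic argument

A residue disc, a parabolic group of rank `19` and a point with dense orbits lead to a
contradiction.
-/

namespace Pool.Agent.H73.HK

open scoped BigOperators

variable {Lam : Type} [AddCommGroup Lam] {q : Lam → Lam → ℤ} {M : Manifold Lam q} {L A : Lam}
  {r : ℕ}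

/-- a fixed point with a dense orbit is the only point -/
theorem eq_of_fixed (π : Para M L A r) (g0 : Fin r → ℤ) (x : M.P)
    (dense : Dense (Set.range fun k : ℤ => π.rho (k • g0) • x)) (hfix : π.rho g0 • x = x)
    (y : M.P) : y = x := by
  let H : AddSubgroup (Fin r → ℤ) :=
    { carrier := {n | π.rho n • x = x}
      zero_mem' := by
        change π.rho 0 • x = x
        rw [π.rho_zero, one_smul]
      add_mem' := fun {a b} ha hb => by
        change π.rho (a + b) • x = x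
        rw [π.rho_add, mul_smul]
        change π.rho a • x = x at ha
        change π.rho b • x = x at hb
        rw [hb, ha]
      neg_mem' := fun {a} ha => by
        change π.rho (-a) • x = x
        change π.rho a • x = x at ha
        have h1 : π.rho (-a) • π.rho a • x = x := by
          rw [← mul_smul, ← π.rho_add, neg_add_cancel, π.rho_zero, one_smul]
        rwa [ha] at h1 }
  have h1 : (Set.range fun k : ℤ => π.rho (k • g0) • x) ⊆ {x} := by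
    rintro _ ⟨k, rfl⟩
    have : k • g0 ∈ H := H.zsmul_mem hfix k
    exact this
  have h2 : closure ({x} : Set M.P) = Set.univ := (dense.mono h1).closure_eq
  rw [closure_singleton] at h2
  have : y ∈ ({x} : Set M.P) := by
    rw [h2]
    exact Set.mem_univ y
  exact this

theorem sum_le_mul {N Lc : ℕ} (f : Fin N → Fin Lc → ℝ) (b : ℝ) (h : ∀ i s, f i s ≤ b) :
    ∑ i, ∑ s, f i s ≤ N * (Lc * b) := by
  have h1 : ∀ i, ∑ s, f i s ≤ Lc * b := fun i => by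
    calc ∑ s, f i s ≤ ∑ _s : Fin Lc, b := Finset.sum_le_sum fun s _ => h i s
      _ = Lc * b := by simp
  calc ∑ i, ∑ s, f i s ≤ ∑ _i : Fin N, (Lc * b) := Finset.sum_le_sum fun i _ => h1 i
    _ = N * (Lc * b) := by simp

/-- **The end.** -/
theorem endgame (hsymm : ∀ x y, q x y = q y x) (hadd : ∀ x y z, q (x + y) z = q x z + q y z)
    (M : Manifold Lam q) (L A : Lam) (π : Para M L A 19)
    (hA : A ∈ M.VeryAmple) (hL : L ∈ M.Nef) (hLL : q L L = 0) (hLA : 0 < q L A)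
    (g0 : Fin 19 → ℤ) (hg0 : g0 ≠ 0) (p : ℕ) [Fact p.Prime]
    (Dd : Disc q (M.NS : Set Lam) M.Ample (M.Sec A) (fun n (y : M.P) => π.rho n • y)
        (fun n x => M.pull (π.rho n) x) A g0 p) (x : M.P)
    (dense : ∀ n : Fin 19 → ℤ, n ≠ 0 → Dense (Set.range fun k : ℤ => π.rho (k • n) • x)) :
    False := by
  have hAmp : A ∈ M.Ample := M.va_ample hA
  have hAA : 0 < q A A := M.ample_q A hAmp
  -- the element `e` and the constant `c`
  obtain ⟨e, he⟩ : ∃ e : Fin 19 → ℤ, e = Pi.single 0 1 := ⟨_, rfl⟩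
  have he0 : e ≠ 0 := by
    rw [he]
    intro h
    have := congrFun h 0
    simp at this
  have he1 : ∀ i, |e i| ≤ 1 := by
    intro i
    rw [he]
    by_cases hi : i = 0
    · subst hi
      simp
    · rw [Pi.single_eq_of_ne hi]
      simp
  obtain ⟨c, hc⟩ : ∃ c : ℤ, c = c0 π e := ⟨_, rfl⟩
  have hc1 : 1 ≤ c := by
    have h1 := π.b_neg e he0
    have h2 : 0 < -2 * q (π.b e) (π.b e) * q L A := by
      have : 0 < -2 * q (π.b e) (π.b e) := by linarith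
      exact mul_pos this hLA
    rw [hc, c0]
    omega
  -- the constant `C`
  obtain ⟨n0, hn0, hamp⟩ := M.ample_dom A hAmp ((-(10 * c)) • L)
    (M.NS.zsmul_mem (M.nef_NS hL) _)
  obtain ⟨C, hCdef⟩ : ∃ C : ℕ, C = n0 + 10 := ⟨_, rfl⟩
  have hC5 : 5 ≤ C := by omega
  have hC' : (C : ℤ) • A - (5 : ℤ) • ((2 : ℤ) • A + (2 * c0 π e) • L) ∈ M.Nef := by
    have h1 : (C : ℤ) • A - (5 : ℤ) • ((2 : ℤ) • A + (2 * c0 π e) • L) =
        n0 • A + (-(10 * c)) • L := by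
      rw [← hc, hCdef]
      push_cast
      module
    rw [h1]
    exact M.ample_nef hamp
  -- heights and the determinant
  obtain ⟨Ch, hCh, hHT⟩ := π.growth (by norm_num) hAmp (M.nef_NS hL) hLL hLA hsymm hadd Dd
  have hbb : ∀ n, q (π.b n) (π.b n) ≤ 0 := by
    intro n
    by_cases hn : n = 0
    · rw [hn, map_zero, q_zero_left hadd]
    · exact (π.b_neg n hn).le
  have hq : ∀ n, 0 ≤ q (M.pull (π.rho n) A) A := by
    intro n
    rw [q_pull_A hadd]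
    have h1 := mul_nonneg (neg_nonneg.2 (hbb n)) (sq_nonneg (q L A))
    linarith
  obtain ⟨Cp, hCp⟩ := alg π hA Dd hq
  -- the real constants
  obtain ⟨a, ha⟩ : ∃ a : ℝ, a = (q A A : ℝ) := ⟨_, rfl⟩
  obtain ⟨l, hl⟩ : ∃ l : ℝ, l = (q L A : ℝ) := ⟨_, rfl⟩
  obtain ⟨cr, hcr⟩ : ∃ cr : ℝ, cr = (c : ℝ) := ⟨_, rfl⟩
  obtain ⟨b, hb⟩ : ∃ b : ℝ, b = (cb q π.b : ℝ) := ⟨_, rfl⟩
  have ha0 : 0 < a := by rw [ha]; exact_mod_cast hAA
  have hl1 : 1 ≤ l := by rw [hl]; exact_mod_cast hLA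
  have hcr1 : 1 ≤ cr := by rw [hcr]; exact_mod_cast hc1
  have hb0 : 0 ≤ b := by rw [hb]; exact_mod_cast cb_nonneg π.b
  have hcl : 1 ≤ cr * l := by nlinarith
  obtain ⟨al, hal⟩ : ∃ al : ℝ, al = (M.alpha : ℝ) := ⟨_, rfl⟩
  obtain ⟨be, hbe⟩ : ∃ be : ℝ, be = (M.beta : ℝ) := ⟨_, rfl⟩
  have hal0 : 0 < al := by rw [hal]; exact_mod_cast M.alpha_pos
  obtain ⟨g, hg⟩ : ∃ g : ℝ, g = (q (M.pull (π.rho g0) A) A : ℝ) := ⟨_, rfl⟩
  have hg1 : 0 ≤ g := by rw [hg]; exact_mod_cast hq g0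
  obtain ⟨CE, hCE⟩ : ∃ CE : ℝ, CE = 1849 * a + 4816 * cr * l := ⟨_, rfl⟩
  obtain ⟨CB, hCB⟩ : ∃ CB : ℝ, CB = 8281 * a + 182 * (56 * cr + 8428 * b * l) * l := ⟨_, rfl⟩
  have hCE0 : 0 < CE := by rw [hCE]; positivity
  obtain ⟨c1, hc1'⟩ : ∃ c1 : ℝ, c1 = |M.bez| * CB ^ 2 + 1 := ⟨_, rfl⟩
  obtain ⟨c2, hc2'⟩ : ∃ c2 : ℝ, c2 = al / 2 * (8 * (cr * l)) ^ 2 := ⟨_, rfl⟩
  obtain ⟨c3, hc3'⟩ : ∃ c3 : ℝ, c3 = (al + |be| + 3) * CE ^ 2 := ⟨_, rfl⟩
  have hc10 : 0 < c1 := by rw [hc1']; positivity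
  have hc20 : 0 < c2 := by rw [hc2']; positivity
  have hc30 : 0 < c3 := by rw [hc3']; positivity
  obtain ⟨c6, hc6'⟩ : ∃ c6 : ℝ, c6 = c3 * 43 * (a + 162 * b * l ^ 2) := ⟨_, rfl⟩
  have hc60 : 0 ≤ c6 := by rw [hc6']; positivity
  obtain ⟨c5, hc5'⟩ : ∃ c5 : ℝ, c5 = |Cp| * (7 + Real.log (1 + c6 + (a + g))) := ⟨_, rfl⟩
  have hc50 : 0 ≤ c5 := by
    rw [hc5']
    have : 0 ≤ Real.log (1 + c6 + (a + g)) := Real.log_nonneg (by linarith)
    positivity
  obtain ⟨c4, hc4'⟩ : ∃ c4 : ℝ, c4 = 43 * (Ch * 171 ^ 2 * 14) := ⟨_, rfl⟩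
  have hc40 : 0 ≤ c4 := by rw [hc4']; positivity
  have hp2 : 2 ≤ p := (Fact.out : p.Prime).two_le
  have hlp : 0 < Real.log p := Real.log_pos (by exact_mod_cast hp2)
  obtain ⟨m0, hm0⟩ := num_board c1 c2 c3 c4 c5 Dd.d (Real.log p) hc10 hc20 hc30 hc40 hc50
    (Nat.cast_nonneg _) hlp
  obtain ⟨m1, hm1⟩ := exists_K c1 hc10.le
  -- the choice of `m`
  obtain ⟨m2, hm2⟩ := exists_nat_ge (2 * |be| / al)
  obtain ⟨m3, hm3⟩ := exists_nat_ge (2 / c2)
  obtain ⟨m, hm⟩ : ∃ m : ℕ, m = m0 + m1 + m2 + m3 + C + 1 := ⟨_, rfl⟩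
  obtain ⟨K, hK1, hK2, hK3⟩ := hm1 m (by omega)
  obtain ⟨xr, hxr⟩ : ∃ xr : ℝ, xr = (m : ℝ) := ⟨_, rfl⟩
  obtain ⟨R, hR⟩ : ∃ R : ℝ, R = (2 : ℝ) ^ K := ⟨_, rfl⟩
  have hx1 : 1 ≤ xr := by rw [hxr]; exact_mod_cast (by omega : 1 ≤ m)
  have hR1 : 1 ≤ R := by rw [hR]; exact one_le_pow₀ (by norm_num)
  have hxb : 2 * |be| / al ≤ xr := by
    refine hm2.trans ?_
    rw [hxr]
    exact_mod_cast (by omega : m2 ≤ m)
  have hx2 : 2 / c2 ≤ xr := by
    refine hm3.trans ?_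
    rw [hxr]
    exact_mod_cast (by omega : m3 ≤ m)
  obtain ⟨X, hX⟩ : ∃ X : ℝ, X = (xE C K m : ℝ) := ⟨_, rfl⟩
  obtain ⟨Y, hY⟩ : ∃ Y : ℝ, Y = (yE c K m : ℝ) := ⟨_, rfl⟩
  have hX1 : X ≤ 43 * xr := by rw [hX, hxr]; exact xE_le C K m (by omega) hK1
  have hX0 : 2 * xr ≤ X := by rw [hX, hxr]; exact le_xE C K m
  have hY1 : Y ≤ 56 * xr * cr * R ^ 2 := by
    rw [hY, hxr, hcr, hR]; exact yE_le c K m (by omega) (by omega)
  have hY0 : 2 * xr * cr * R ^ 2 ≤ Y := by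
    rw [hY, hxr, hcr, hR]; exact le_yE c K m (by omega)
  have hYnn : 0 ≤ yE (c0 π e) K m := by
    have h1 : 0 ≤ Y := le_trans (by positivity) hY0
    rw [hY] at h1
    rw [← hc]
    exact_mod_cast h1
  have hXpos : 0 < xE C K m := by
    have h1 : 0 < X := by linarith
    rw [hX] at h1
    exact_mod_cast h1
  -- the class `B`
  obtain ⟨B, hB⟩ : ∃ B : Lam, B = (2 * xE C K m + 5) • A + (yE (c0 π e) K m +
      4 * xE C K m * (cb q π.b * (7 * ((2 ^ K : ℕ) : ℤ)) ^ 2) * q L A) • L := ⟨_, rfl⟩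
  have hqB : (q B B : ℝ) = (2 * X + 5) ^ 2 * a +
      2 * (2 * X + 5) * (Y + 4 * X * (b * (7 * R) ^ 2) * l) * l := by
    rw [hB, q_comb hadd hsymm hLL, hX, hY, ha, hl, hb, hR, hc]
    push_cast
    ring
  have hBb := qB_le a l cr b xr R X Y ha0.le (by linarith) (by linarith) hb0 hx1 hR1 hX0 hX1 hY0 hY1
  have hcard : M.bez * (q B B : ℝ) ^ 2 < (2 * ((2 ^ K : ℕ) : ℝ) + 1) ^ 19 := by
    have h1 : (((2 ^ K : ℕ)) : ℝ) = R := by rw [hR]; push_cast; rfl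
    rw [h1, hqB]
    refine card_bound M.bez CB _ xr R hx1 hR1 hBb.1 (by rw [hCB]; exact hBb.2) ?_
    rw [← hc1', hxr, hR]
    exact hK2
  -- the class `E`
  obtain ⟨E, hE⟩ : ∃ E : Lam, E = xE C K m • A + yE (c0 π e) K m • L := ⟨_, rfl⟩
  have hEamp : E ∈ M.Ample := by
    have h1 : E = A + ((xE C K m - 1) • A + yE (c0 π e) K m • L) := by
      rw [hE]
      module
    rw [h1]
    exact M.ample_add A hAmp _ (M.nef_add _ (zsmul_nef M _ _ (by omega) (M.ample_nef hAmp)) _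
      (zsmul_nef M _ _ hYnn hL))
  obtain ⟨N, hN⟩ : ∃ N : ℕ, N = Module.finrank ℂ (M.Sec E) := ⟨_, rfl⟩
  have hqE : (q E E : ℝ) = X ^ 2 * a + 2 * X * Y * l := by
    rw [hE, q_comb hadd hsymm hLL, hX, hY, ha, hl, hc]
    push_cast
    ring
  have hNr : (N : ℝ) = al * (q E E : ℝ) ^ 2 + be * (q E E : ℝ) + 3 := by
    have h1 := M.rr E hEamp
    rw [← hN] at h1
    have h2 : ((N : ℚ) : ℝ) = ((M.alpha * (q E E : ℚ) ^ 2 + M.beta * (q E E : ℚ) + 3 : ℚ) : ℝ) := by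
      rw [h1]
    push_cast at h2
    rw [hal, hbe]
    exact h2
  have hrr := rr_bounds al be (q E E : ℝ) xr R (cr * l) CE N hal0 hcl hx1 hR1 hxb
    (by
      rw [hqE]
      have := le_qE a l cr xr R X Y ha0.le (by linarith) (by linarith) hx1 hX0 hY0
      calc 8 * (cr * l) * (xr ^ 2 * R ^ 2) = 8 * cr * l * (xr ^ 2 * R ^ 2) := by ring
        _ ≤ _ := this)
    (by
      rw [hqE, hCE]
      exact qE_le a l cr xr R X Y ha0.le (by linarith) (by linarith) hx1 hR1 hX0 hX1 hY0 hY1) hNr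
  rw [← hc2', ← hc3'] at hrr
  obtain ⟨hN1, hN2⟩ := hrr
  have hx4 : xr ≤ xr ^ 4 := le_self_pow₀ hx1 (by norm_num)
  have hR4 : 1 ≤ R ^ 4 := one_le_pow₀ hR1
  have hN2' : (2 : ℝ) ≤ N := by
    have h1 : 2 ≤ c2 * xr := by
      rw [div_le_iff₀ hc20] at hx2
      linarith
    calc (2 : ℝ) ≤ c2 * xr := h1
      _ ≤ c2 * xr ^ 4 := mul_le_mul_of_nonneg_left hx4 hc20.le
      _ ≤ c2 * xr ^ 4 * R ^ 4 := le_mul_of_one_le_right (by positivity) hR4
      _ ≤ N := hN1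
  have hN2n : 2 ≤ N := by exact_mod_cast hN2'
  -- rows and columns
  obtain ⟨rows, J, hrows, hdet⟩ := minor hadd hsymm π hA hL hLL hLA.le Dd.a Dd.span_a e C hC5 hC'
    K m (2 ^ K) hYnn x dense B hB hcard N (by rw [hN, hE])
  -- the point is not fixed by `g0`
  have hnf : π.rho g0 • x ≠ x := by
    intro hfix
    have h1 := eq_of_fixed π g0 x (dense g0 hg0) hfix
    apply hdet
    refine Matrix.det_zero_of_row_eq (i := ⟨0, by omega⟩) (j := ⟨1, by omega⟩)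
      (by simp) ?_
    funext j
    rw [Matrix.of_apply, Matrix.of_apply]
    refine Finset.prod_congr rfl fun s _ => ?_
    rw [h1 (π.rho _ • x), h1 (π.rho _ • x)]
  obtain ⟨Lc, hLc⟩ : ∃ Lc : ℝ, Lc = ((lstAll e C K m).length : ℝ) := ⟨_, rfl⟩
  have hLc0 : 0 ≤ Lc := by rw [hLc]; exact Nat.cast_nonneg _
  have hLc1 : Lc ≤ 43 * xr := by
    have h1 : Lc = X := by
      rw [hLc, length_lstAll, hX, xE]
      push_cast
      ring
    rw [h1]
    exact hX1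
  obtain ⟨x', hD, hh0⟩ := hCp rows (fun s => (lstAll e C K m).get s) J x hdet hnf
  -- the coordinates of the group elements
  have hcoord : ∀ i s t, |((lstAll e C K m).get s + rows i) t| ≤ 9 * ((2 ^ K : ℕ) : ℤ) := by
    intro i s t
    have h1 := mem_lstAll e C K m ((lstAll e C K m).get s) (List.get_mem _ _) t
    have h2 := hrows i t
    have h3 : (2 : ℤ) ^ K * |e t| ≤ 2 ^ K * 1 :=
      mul_le_mul_of_nonneg_left (he1 t) (by positivity)
    rw [Pi.add_apply]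
    refine (abs_add_le _ _).trans ?_
    push_cast at h2 ⊢
    linarith
  -- the degrees
  have hdeg : ∀ i s, (q (M.pull (π.rho ((lstAll e C K m).get s + rows i)) A) A : ℝ) ≤
      (a + 162 * b * l ^ 2) * R ^ 2 := by
    intro i s
    have h1 := neg_q_b_le hadd hsymm π.b _ _ (hcoord i s)
    obtain ⟨n, hn⟩ : ∃ n, n = (lstAll e C K m).get s + rows i := ⟨_, rfl⟩
    rw [← hn] at h1 ⊢
    rw [q_pull_A hadd]
    have h2 : (-(q (π.b n) (π.b n)) : ℝ) ≤ b * (9 * R) ^ 2 := by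
      have h3 : ((-(q (π.b n) (π.b n)) : ℤ) : ℝ) ≤
          ((cb q π.b * (9 * ((2 ^ K : ℕ) : ℤ)) ^ 2 : ℤ) : ℝ) := by exact_mod_cast h1
      push_cast at h3
      rw [hb, hR]
      exact h3
    push_cast
    rw [← ha, ← hl]
    have hR2 : 1 ≤ R ^ 2 := one_le_pow₀ hR1
    have h4 := mul_le_mul_of_nonneg_right h2 (sq_nonneg l)
    have h5 : a ≤ a * R ^ 2 := le_mul_of_one_le_right ha0.le hR2
    have h6 : (a + 162 * b * l ^ 2) * R ^ 2 = a * R ^ 2 + 2 * (b * (9 * R) ^ 2 * l ^ 2) := by ring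
    rw [h6]
    linarith
  -- the height of the point
  have hh0' : Height.logHeight (Dd.co x' 0) ≤ c5 * (1 + Real.log (1 + xr * R)) := by
    obtain ⟨S, hS⟩ : ∃ S : ℝ, S = (∑ i, ∑ s,
          (q (M.pull (π.rho ((lstAll e C K m).get s + rows i)) A) A : ℝ) +
            (q A A + q (M.pull (π.rho g0) A) A : ℝ)) := ⟨_, rfl⟩
    rw [← hS] at hh0
    have hS0 : 0 ≤ S := by
      rw [hS, ← ha, ← hg]
      have h1 : (0 : ℝ) ≤ ∑ i, ∑ s,
          (q (M.pull (π.rho ((lstAll e C K m).get s + rows i)) A) A : ℝ) :=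
        Finset.sum_nonneg fun i _ => Finset.sum_nonneg fun s _ => by exact_mod_cast hq _
      linarith
    have hS1 : S ≤ c6 * (xr ^ 5 * R ^ 6) + (a + g) := by
      rw [hS, ← ha, ← hg]
      have h1 : ∑ i, ∑ s, (q (M.pull (π.rho ((lstAll e C K m).get s + rows i)) A) A : ℝ) ≤
          N * (Lc * ((a + 162 * b * l ^ 2) * R ^ 2)) := by
        rw [hLc]
        exact sum_le_mul _ _ hdeg
      have h2 : (N : ℝ) * (Lc * ((a + 162 * b * l ^ 2) * R ^ 2)) ≤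
          c3 * xr ^ 4 * R ^ 4 * (43 * xr * ((a + 162 * b * l ^ 2) * R ^ 2)) := by
        exact mul_le_mul hN2 (mul_le_mul_of_nonneg_right hLc1 (by positivity))
          (mul_nonneg hLc0 (by positivity)) (by positivity)
      have h3 : c3 * xr ^ 4 * R ^ 4 * (43 * xr * ((a + 162 * b * l ^ 2) * R ^ 2)) =
          c6 * (xr ^ 5 * R ^ 6) := by
        rw [hc6']
        ring
      linarith
    have h1 := log_bound S c6 (a + g) xr R hc60 (by linarith) hx1 hR1 hS0 hS1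
    have h2 : 0 ≤ 1 + Real.log (1 + S) := by
      have : 0 ≤ Real.log (1 + S) := Real.log_nonneg (by linarith)
      linarith
    calc Height.logHeight (Dd.co x' 0) ≤ Cp * (1 + Real.log (1 + S)) := hh0
      _ ≤ |Cp| * (1 + Real.log (1 + S)) := mul_le_mul_of_nonneg_right (le_abs_self _) h2
      _ ≤ |Cp| * ((7 + Real.log (1 + c6 + (a + g))) * (1 + Real.log (1 + xr * R))) :=
        mul_le_mul_of_nonneg_left h1 (abs_nonneg _)
      _ = c5 * (1 + Real.log (1 + xr * R)) := by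
        rw [hc5']
        ring
  -- the heights of the translates
  have hH : ∀ i s, Height.logHeight (Dd.co x' ((lstAll e C K m).get s + rows i)) ≤
      Ch * 171 ^ 2 * 14 * ((1 + R) ^ 2 * (Real.sqrt (1 + R) + 1 +
        c5 * (1 + Real.log (1 + xr * R)))) := by
    intro i s
    refine height_bound Ch (∑ t, |((((lstAll e C K m).get s + rows i) t : ℤ) : ℝ)|) R
      (Height.logHeight (Dd.co x' 0)) _ _ c5 hCh (Finset.sum_nonneg fun _ _ => abs_nonneg _)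
      (by linarith) ?_ hh0' (Height.logHeight_nonneg _) (hHT x' _)
    have h1 : ∑ t, |((((lstAll e C K m).get s + rows i) t : ℤ) : ℝ)| ≤ ∑ _t : Fin 19, 9 * R := by
      refine Finset.sum_le_sum fun t _ => ?_
      have h2 : ((|((lstAll e C K m).get s + rows i) t| : ℤ) : ℝ) ≤
          ((9 * ((2 ^ K : ℕ) : ℤ) : ℤ) : ℝ) := by exact_mod_cast hcoord i s t
      push_cast at h2
      rw [hR]
      exact h2
    rw [Finset.sum_const, Finset.card_univ, Fintype.card_fin, nsmul_eq_mul] at h1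
    push_cast at h1
    linarith
  have hsum : ∑ i, ∑ s, Height.logHeight (Dd.co x' ((lstAll e C K m).get s + rows i)) ≤
      N * (Lc * (Ch * 171 ^ 2 * 14 * ((1 + R) ^ 2 * (Real.sqrt (1 + R) + 1 +
        c5 * (1 + Real.log (1 + xr * R)))))) := by
    rw [hLc]
    exact sum_le_mul _ _ hH
  -- the degree `D` of the interpolation
  obtain ⟨D, hD1, hD2⟩ := exists_D N
  have hfin1 := hD D
  have hcastD : ((D * (N - D ^ 3) : ℕ) : ℝ) = D * ((N : ℝ) - (D : ℝ) ^ 3) := by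
    have h1 : D ^ 3 ≤ N := by omega
    rw [Nat.cast_mul, Nat.cast_sub h1, Nat.cast_pow]
  have hD1r : 2 * (D : ℝ) ^ 3 ≤ N := by exact_mod_cast hD1
  have hD2r : (N : ℝ) < 2 * ((D : ℝ) + 1) ^ 3 := by exact_mod_cast hD2
  have hleft : Real.log p * D * ((N : ℝ) / 2) ≤ Real.log p * ((D * (N - D ^ 3) : ℕ) : ℝ) := by
    rw [hcastD, mul_assoc]
    refine mul_le_mul_of_nonneg_left ?_ hlp.le
    refine mul_le_mul_of_nonneg_left ?_ (Nat.cast_nonneg _)
    linarith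
  have hfact : (Dd.d : ℝ) * Real.log (N.factorial) ≤ Dd.d * N * Real.log N := by
    rw [mul_assoc]
    exact mul_le_mul_of_nonneg_left (log_factorial_le N) (Nat.cast_nonneg _)
  have hright : (N : ℝ) * (Lc * (Ch * 171 ^ 2 * 14 * ((1 + R) ^ 2 * (Real.sqrt (1 + R) + 1 +
        c5 * (1 + Real.log (1 + xr * R)))))) ≤
      N * (c4 * xr * (1 + R) ^ 2 * (Real.sqrt (1 + R) + 1 +
        c5 * (1 + Real.log (1 + xr * R)))) := by
    refine mul_le_mul_of_nonneg_left ?_ (Nat.cast_nonneg _)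
    have hlog : 0 ≤ Real.log (1 + xr * R) := Real.log_nonneg (by
      have : 0 ≤ xr * R := by positivity
      linarith)
    have hs : 0 ≤ Real.sqrt (1 + R) := Real.sqrt_nonneg _
    have h1 : 0 ≤ Ch * 171 ^ 2 * 14 * ((1 + R) ^ 2 * (Real.sqrt (1 + R) + 1 +
        c5 * (1 + Real.log (1 + xr * R)))) := by positivity
    calc Lc * (Ch * 171 ^ 2 * 14 * ((1 + R) ^ 2 * (Real.sqrt (1 + R) + 1 +
        c5 * (1 + Real.log (1 + xr * R))))) ≤ 43 * xr * (Ch * 171 ^ 2 * 14 *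
          ((1 + R) ^ 2 * (Real.sqrt (1 + R) + 1 + c5 * (1 + Real.log (1 + xr * R))))) :=
          mul_le_mul_of_nonneg_right hLc1 h1
      _ = c4 * xr * (1 + R) ^ 2 * (Real.sqrt (1 + R) + 1 +
        c5 * (1 + Real.log (1 + xr * R))) := by
        rw [hc4']
        ring
  have hnum := hm0 m (by omega) K N D hK3 (by rw [← hxr, ← hR]; exact hN1)
    (by rw [← hxr, ← hR]; exact hN2) hD2r
  rw [← hxr, ← hR] at hnum
  linarith

end Pool.Agent.H73.HK
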