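import Pool.Agent.H73.HK.FIN
import Pool.Agent.H73.HK.END

/-!
# Hyperkaehler fourfolds with second Betti number 23: nef classes are semiample
-/

namespace Pool.Agent.H73.HK

/-- MAIN THEOREM: every nef class on a projective hyperkaehler fourfold with `b_2 = 23` is
semiample (over the published facts listed in `DefClass`, `Manifold` and `Disc`). -/
theorem main : Statement :=
  statement_of (fun _ _ _ hsymm hadd _ M L A π hA hL hLL hLA g0 hg0 p _ Dd x hx =>
    endgame hsymm hadd M L A π hA hL hLL hLA g0 hg0 p Dd x hx)

end Pool.Agent.H73.HK
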