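import Pool.Agent.H73.HK.Para
import Pool.Agent.H73.HK.GEN

/-!
# The classes of the proof: translates of `A`, the class `E` and the dominating class `B`
-/

namespace Pool.Agent.H73.HK

open scoped BigOperators

variable {Lam : Type} [AddCommGroup Lam] {q : Lam → Lam → ℤ} {M : Manifold Lam q} {L A : Lam}
  {r : ℕ}

section form

variable (hadd : ∀ x y z, q (x + y) z = q x z + q y z) (hsymm : ∀ x y, q x y = q y x)

/-- the form as a homomorphism in the first variable -/
def qhom (hadd : ∀ x y z, q (x + y) z = q x z + q y z) (z : Lam) : Lam →+ ℤ :=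
  AddMonoidHom.mk' (fun x => q x z) (fun x y => hadd x y z)

include hadd in
theorem q_sum {ι : Type*} (s : Finset ι) (f : ι → Lam) (z : Lam) :
    q (∑ i ∈ s, f i) z = ∑ i ∈ s, q (f i) z :=
  map_sum (qhom hadd z) f s

include hadd in
theorem q_zsmul (n : ℤ) (x z : Lam) : q (n • x) z = n * q x z := by
  have h := map_zsmul (qhom hadd z) n x
  rw [smul_eq_mul] at h
  exact h

include hadd in
theorem q_neg (x z : Lam) : q (-x) z = - q x z := map_neg (qhom hadd z) x

include hadd in
theorem q_sub (x y z : Lam) : q (x - y) z = q x z - q y z := map_sub (qhom hadd z) x y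

include hadd in
theorem q_zero_left (z : Lam) : q 0 z = 0 := map_zero (qhom hadd z)

include hadd hsymm in
theorem q_add_right (x y z : Lam) : q x (y + z) = q x y + q x z := by
  rw [hsymm x (y + z), hadd, hsymm y x, hsymm z x]

include hadd hsymm in
theorem q_zsmul_right (n : ℤ) (x z : Lam) : q x (n • z) = n * q x z := by
  rw [hsymm x (n • z), q_zsmul hadd, hsymm z x]

include hadd hsymm in
theorem q_sub_right (x y z : Lam) : q x (y - z) = q x y - q x z := by
  rw [hsymm x (y - z), q_sub hadd, hsymm y x, hsymm z x]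

include hadd hsymm in
/-- the square of `x A + y L` -/
theorem q_comb (hLL : q L L = 0) (x y : ℤ) :
    q (x • A + y • L) (x • A + y • L) = x ^ 2 * q A A + 2 * x * y * q L A := by
  rw [q_add_right hadd hsymm, hadd, hadd, q_zsmul_right hadd hsymm, q_zsmul_right hadd hsymm,
    q_zsmul_right hadd hsymm, q_zsmul_right hadd hsymm, q_zsmul hadd, q_zsmul hadd, q_zsmul hadd,
    q_zsmul hadd, hLL, hsymm A L]
  ring

/-- the constant in the bound of `- q (b n) (b n)` -/
def cb (q : Lam → Lam → ℤ) (b : (Fin r → ℤ) →+ Lam) : ℤ :=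
  ∑ i, ∑ j, |q (b (Pi.single i 1)) (b (Pi.single j 1))|

theorem cb_nonneg (b : (Fin r → ℤ) →+ Lam) : 0 ≤ cb q b :=
  Finset.sum_nonneg fun _ _ => Finset.sum_nonneg fun _ _ => abs_nonneg _

theorem b_expand (b : (Fin r → ℤ) →+ Lam) (n : Fin r → ℤ) :
    b n = ∑ i, n i • b (Pi.single i 1) := by
  classical
  have h : n = ∑ i, n i • (Pi.single i (1 : ℤ) : Fin r → ℤ) := by
    funext k
    rw [Finset.sum_apply, Finset.sum_eq_single k]
    · simp
    · intro j _ hj
      simp [Pi.single_eq_of_ne (Ne.symm hj)]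
    · intro h
      exact absurd (Finset.mem_univ k) h
  conv_lhs => rw [h]
  rw [map_sum]
  exact Finset.sum_congr rfl fun i _ => map_zsmul b _ _

include hadd hsymm in
/-- the quadratic form of `b n` grows at most quadratically -/
theorem neg_q_b_le (b : (Fin r → ℤ) →+ Lam) (n : Fin r → ℤ) (T : ℤ) (hn : ∀ i, |n i| ≤ T) :
    - q (b n) (b n) ≤ cb q b * T ^ 2 := by
  have h1 : q (b n) (b n) =
      ∑ i, ∑ j, n i * n j * q (b (Pi.single i 1)) (b (Pi.single j 1)) := by
    conv_lhs => rw [b_expand b n]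
    rw [q_sum hadd]
    refine Finset.sum_congr rfl fun i _ => ?_
    rw [q_zsmul hadd, hsymm, q_sum hadd, Finset.mul_sum]
    refine Finset.sum_congr rfl fun j _ => ?_
    rw [q_zsmul hadd, hsymm]
    ring
  have h2 : |q (b n) (b n)| ≤ cb q b * T ^ 2 := by
    rw [h1, cb, Finset.sum_mul]
    refine (Finset.abs_sum_le_sum_abs _ _).trans (Finset.sum_le_sum fun i _ => ?_)
    rw [Finset.sum_mul]
    refine (Finset.abs_sum_le_sum_abs _ _).trans (Finset.sum_le_sum fun j _ => ?_)
    rw [abs_mul, abs_mul, mul_comm]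
    refine mul_le_mul_of_nonneg_left ?_ (abs_nonneg _)
    rw [sq]
    exact mul_le_mul (hn i) (hn j) (abs_nonneg _) ((abs_nonneg _).trans (hn i))
  exact (neg_le_abs _).trans h2

end form

section translates

variable (hadd : ∀ x y z, q (x + y) z = q x z + q y z) (hsymm : ∀ x y, q x y = q y x)

/-- the translate of `A` by `n` -/
theorem pull_A (π : Para M L A r) (n : Fin r → ℤ) :
    M.pull (π.rho n) A = A + (2 * q L A) • π.b n - (2 * q (π.b n) (π.b n) * q L A) • L := by
  rw [π.pull_eq, π.b_A, mul_zero, zero_add]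

theorem pull_zero (π : Para M L A r) (x : Lam) : M.pull (π.rho 0) x = x := by
  rw [π.rho_zero, M.pull_one]
  rfl

theorem pull_L (π : Para M L A r) (hLL : q L L = 0) (n : Fin r → ℤ) :
    M.pull (π.rho n) L = L := by
  rw [π.pull_eq, hLL, π.b_L]
  simp

include hadd hsymm in
theorem pull_sum (π : Para M L A r) (n : Fin r → ℤ) :
    M.pull (π.rho n) A + M.pull (π.rho (-n)) A =
      (2 : ℤ) • A + (2 * (-2 * q (π.b n) (π.b n) * q L A)) • L := by
  rw [pull_A, pull_A, map_neg]
  have h : q (-π.b n) (-π.b n) = q (π.b n) (π.b n) := by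
    rw [q_neg hadd, hsymm, q_neg hadd]
    ring
  rw [h]
  module

include hadd hsymm in
theorem pull_sum_pow (π : Para M L A r) (e : Fin r → ℤ) (j : ℕ) :
    M.pull (π.rho ((2 ^ j : ℤ) • e)) A + M.pull (π.rho (-((2 ^ j : ℤ) • e))) A =
      (2 : ℤ) • M.pull (π.rho 0) A + (2 * 4 ^ j * (-2 * q (π.b e) (π.b e) * q L A)) • L := by
  rw [pull_sum hadd hsymm, pull_zero, map_zsmul, q_zsmul hadd, q_zsmul_right hadd hsymm]
  congr 2
  have h : (4 : ℤ) ^ j = 2 ^ j * 2 ^ j := by
    rw [← mul_pow]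
    norm_num
  rw [h]
  ring

include hadd in
theorem q_pull_A (π : Para M L A r) (n : Fin r → ℤ) :
    q (M.pull (π.rho n) A) A = q A A - 2 * q (π.b n) (π.b n) * q L A ^ 2 := by
  rw [pull_A, q_sub hadd, hadd, q_zsmul hadd, q_zsmul hadd, π.b_A]
  ring

/-- **domination**: the class `B` exceeds `5 A` plus any translate of `E` by `n`, `|n| ≤ T`. -/
theorem dominates (hadd : ∀ x y z, q (x + y) z = q x z + q y z) (hsymm : ∀ x y, q x y = q y x)
    (π : Para M L A r) (hA : A ∈ M.Ample) (hL : L ∈ M.Nef) (hLL : q L L = 0)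
    (hLA : 0 ≤ q L A) (x y T : ℤ) (hx : 0 ≤ x) (n : Fin r → ℤ) (hn : ∀ i, |n i| ≤ T) :
    ((2 * x + 5) • A + (y + 4 * x * (cb q π.b * T ^ 2) * q L A) • L) -
      M.pull (π.rho n) (x • A + y • L) - 5 • A ∈ M.Nef := by
  have nsmul_nef : ∀ (k : ℕ) z, z ∈ M.Nef → k • z ∈ M.Nef := by
    intro k z hz
    induction k with
    | zero => simpa using M.nef_zero
    | succ k ih => rw [succ_nsmul]; exact M.nef_add _ ih _ hz
  have zsmul_nef : ∀ (k : ℤ) z, 0 ≤ k → z ∈ M.Nef → k • z ∈ M.Nef := by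
    intro k z hk hz
    obtain ⟨j, rfl⟩ := Int.eq_ofNat_of_zero_le hk
    rw [natCast_zsmul]
    exact nsmul_nef j z hz
  have h1 : q (-π.b n) (-π.b n) = q (π.b n) (π.b n) := by
    rw [q_neg hadd, hsymm, q_neg hadd]
    ring
  have h2 : ((2 * x + 5) • A + (y + 4 * x * (cb q π.b * T ^ 2) * q L A) • L) -
      M.pull (π.rho n) (x • A + y • L) - 5 • A =
      x • M.pull (π.rho (-n)) A +
        (4 * x * (cb q π.b * T ^ 2 - (- q (π.b n) (π.b n))) * q L A) • L := by
    rw [map_add, map_zsmul, map_zsmul, pull_L π hLL, pull_A, pull_A, map_neg, h1]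
    module
  rw [h2]
  refine M.nef_add _ (zsmul_nef _ _ hx ?_) _ (zsmul_nef _ _ ?_ hL)
  · exact M.pull_nef _ _ (M.ample_nef hA)
  · have h3 := neg_q_b_le hadd hsymm π.b n T hn
    have h4 : 0 ≤ cb q π.b * T ^ 2 - (- q (π.b n) (π.b n)) := by linarith
    exact mul_nonneg (mul_nonneg (by linarith) h4) hLA

end translates

end Pool.Agent.H73.HK
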