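import Pool.Agent.H73.HK.Para

/-!
# Dense orbits, or a pencil orthogonal to `L`
-/

namespace Pool.Agent.H73.HK

/-- `rho (k . n)` is the `k`-th power of `rho n`. -/
theorem Para.rho_zsmul {Lam : Type} [AddCommGroup Lam] {q : Lam → Lam → ℤ} {M : Manifold Lam q}
    {L A : Lam} {r : ℕ} (π : Para M L A r) (n : Fin r → ℤ) (k : ℤ) :
    π.rho (k • n) = π.rho n ^ k := by
  let f : Multiplicative (Fin r → ℤ) →* M.Aut :=
    { toFun := fun n => π.rho n.toAdd
      map_one' := π.rho_zero
      map_mul' := fun a b => π.rho_add _ _ }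
  exact map_zpow f (Multiplicative.ofAdd n) k

theorem dense_or_kappa {Lam : Type} [AddCommGroup Lam] {q : Lam → Lam → ℤ}
    (q_symm : ∀ x y, q x y = q y x) (q_add : ∀ x y z, q (x + y) z = q x z + q y z)
    {M : Manifold Lam q} {L A : Lam} {r : ℕ} (π : Para M L A r) :
    (∃ D ∈ M.NS, 2 ≤ Module.finrank ℂ (M.Sec D) ∧ q D L = 0) ∨
    ∃ x : M.P, ∀ n : Fin r → ℤ, n ≠ 0 → Dense (Set.range fun k : ℤ => π.rho (k • n) • x) := by
  classical
  by_cases h : ∃ n : Fin r → ℤ, n ≠ 0 ∧
      ∃ D ∈ M.NS, 2 ≤ Module.finrank ℂ (M.Sec D) ∧ M.pull (π.rho n) D = D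
  · left
    obtain ⟨n, hn, D, hD, h2, hfix⟩ := h
    refine ⟨D, hD, h2, ?_⟩
    rw [π.pull_eq] at hfix
    have h1 : (2 * q L D) • π.b n = (2 * q (π.b n) D + 2 * q (π.b n) (π.b n) * q L D) • L := by
      have h3 : D + ((2 * q L D) • π.b n -
          (2 * q (π.b n) D + 2 * q (π.b n) (π.b n) * q L D) • L) = D + 0 := by
        rw [add_zero, ← add_sub_assoc]
        exact hfix
      exact sub_eq_zero.1 (add_left_cancel h3)
    -- pair with `b n`
    let F : Lam →+ ℤ := AddMonoidHom.mk' (fun x => q x (π.b n)) (fun x y => q_add x y _)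
    have h3 : F ((2 * q L D) • π.b n) =
        F ((2 * q (π.b n) D + 2 * q (π.b n) (π.b n) * q L D) • L) := by rw [h1]
    rw [map_zsmul, map_zsmul] at h3
    have h4 : F L = 0 := by
      change q L (π.b n) = 0
      rw [q_symm]
      exact π.b_L n
    have h5 : F (π.b n) < 0 := π.b_neg n hn
    rw [h4, smul_zero, smul_eq_mul] at h3
    rcases mul_eq_zero.1 h3 with h6 | h6
    · rw [q_symm]
      omega
    · exact absurd h6 h5.ne
  · right
    have h1 : ∀ n : Fin r → ℤ, ∃ bad : ℕ → Set M.P,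
        (∀ i, IsClosed (bad i) ∧ bad i ≠ Set.univ) ∧
        (n ≠ 0 → ∀ x, (∀ i, x ∉ bad i) → Dense (Set.range fun m : ℤ => π.rho n ^ m • x)) := by
      intro n
      by_cases hn : n = 0
      · refine ⟨fun _ => ∅, fun i => ⟨isClosed_empty, ?_⟩, fun h => absurd hn h⟩
        exact Set.empty_ne_univ
      · rcases M.amerik_campana (π.rho n) with ⟨D, hD, h2, hfix⟩ | ⟨bad, hbad, hd⟩
        · exact absurd ⟨n, hn, D, hD, h2, hfix⟩ h
        · exact ⟨bad, hbad, fun _ => hd⟩
    choose bad hbad hd using h1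
    obtain ⟨x, hx⟩ := M.baire (fun k => match (Encodable.decode k : Option ((Fin r → ℤ) × ℕ)) with
      | some c => bad c.1 c.2
      | none => ∅) (by
      intro k
      rcases hk : (Encodable.decode k : Option ((Fin r → ℤ) × ℕ)) with _ | c
      · simp only
        exact ⟨isClosed_empty, Set.empty_ne_univ⟩
      · exact hbad c.1 c.2)
    refine ⟨x, fun n hn => ?_⟩
    have h2 := hd n hn x (fun i hi => by
      have h3 := hx (Encodable.encode (n, i))
      rw [Encodable.encodek] at h3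
      exact h3 hi)
    simpa only [π.rho_zsmul] using h2

end Pool.Agent.H73.HK
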