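import Pool.Agent.H73.HK.Iface

/-!
# The positive case

If a class orthogonal to `L` has two sections and the prime divisors orthogonal to `L` are
proportional to `L`, then a positive multiple of `L` has two sections.
-/

namespace Pool.Agent.H73.HK

variable {Lam : Type} [AddCommGroup Lam] {q : Lam → Lam → ℤ}

/-- Effective classes orthogonal to `L` are rational multiples of `L`. -/
theorem closure_prime (q_add : ∀ x y z, q (x + y) z = q x z + q y z) (M : Manifold Lam q)
    {L : Lam} (hL : L ∈ M.Nef)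
    (hP : ∀ D ∈ M.Prime, q D L = 0 → ∃ a b : ℕ, 0 < a ∧ 0 < b ∧ a • D = b • L)
    {x : Lam} (hx : x ∈ AddSubmonoid.closure M.Prime) :
    0 ≤ q x L ∧ (q x L = 0 → ∃ c d : ℕ, 0 < c ∧ c • x = d • L) := by
  induction hx using AddSubmonoid.closure_induction with
  | mem D hD =>
    refine ⟨M.prime_nef D hD L hL, fun h => ?_⟩
    obtain ⟨a, b, ha, _, hab⟩ := hP D hD h
    exact ⟨a, b, ha, hab⟩
  | zero =>
    have h0 : q 0 L = 0 := by
      have := q_add 0 0 L
      rw [add_zero] at this
      omega
    refine ⟨h0.ge, fun _ => ⟨1, 0, one_pos, by simp⟩⟩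
  | add x y _ _ ihx ihy =>
    obtain ⟨hx0, hx1⟩ := ihx
    obtain ⟨hy0, hy1⟩ := ihy
    rw [q_add]
    refine ⟨by omega, fun h => ?_⟩
    obtain ⟨c, d, hc, hcd⟩ := hx1 (by omega)
    obtain ⟨c', d', hc', hcd'⟩ := hy1 (by omega)
    refine ⟨c * c', c' * d + c * d', Nat.mul_pos hc hc', ?_⟩
    have e1 : (c * c') • x = (c' * d) • L := by
      rw [mul_comm c c', mul_smul, hcd, ← mul_smul]
    have e2 : (c * c') • y = (c * d') • L := by
      rw [mul_smul, hcd', ← mul_smul]
    rw [smul_add, e1, e2, add_smul]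

/-- The product of the `n`-th power of a section with a section. -/
theorem pow_mul_mem (M : Manifold Lam q) {D : Lam} {s u : M.P → ℂ} (hs : s ∈ M.Sec D)
    (hu : u ∈ M.Sec D) (n : ℕ) : s ^ n * u ∈ M.Sec ((n + 1) • D) := by
  induction n with
  | zero => simpa using hu
  | succ n ih =>
    have h := M.sec_mul D _ s hs _ ih
    have e1 : s * (s ^ n * u) = s ^ (n + 1) * u := by rw [pow_succ']; ring
    have e2 : D + (n + 1) • D = (n + 1 + 1) • D := by rw [succ_nsmul' D (n + 1)]
    rwa [e1, e2] at h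

/-- A class with two sections has positive multiples with two sections. -/
theorem two_le_multiple (M : Manifold Lam q) {D : Lam}
    (h2 : 2 ≤ Module.finrank ℂ (M.Sec D)) (n : ℕ) :
    2 ≤ Module.finrank ℂ (M.Sec ((n + 1) • D)) := by
  obtain ⟨f, hf⟩ := exists_linearIndependent_of_le_finrank h2
  set s : M.P → ℂ := (f 0 : M.P → ℂ) with hs
  set t : M.P → ℂ := (f 1 : M.P → ℂ) with ht
  have hsm : s ∈ M.Sec D := (f 0).2
  have htm : t ∈ M.Sec D := (f 1).2
  have hind : ∀ a b : ℂ, a • s + b • t = 0 → a = 0 ∧ b = 0 := by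
    intro a b hab
    have hab' : a • f 0 + b • f 1 = 0 := Subtype.ext hab
    exact (LinearIndependent.pair_iff.1 (by
      have := hf
      have e : f = ![f 0, f 1] := by funext i; fin_cases i <;> rfl
      rwa [e] at this)) a b hab'
  have hfin := M.sec_fin ((n + 1) • D)
  let g : Fin 2 → M.Sec ((n + 1) • D) :=
    ![⟨s ^ n * s, pow_mul_mem M hsm hsm n⟩, ⟨s ^ n * t, pow_mul_mem M hsm htm n⟩]
  have hg : LinearIndependent ℂ g := by
    rw [LinearIndependent.pair_iff]
    intro a b hab
    have hab' : a • (s ^ n * s) + b • (s ^ n * t) = 0 := congrArg Subtype.val hab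
    have hcl1 : IsClosed {y | s y = 0} := M.zero_closed D s hsm
    have hcl2 : IsClosed {y | (a • s + b • t) y = 0} :=
      M.zero_closed D _ (add_mem ((M.Sec D).smul_mem a hsm) ((M.Sec D).smul_mem b htm))
    have hcov : (Set.univ : Set M.P) ⊆ {y | s y = 0} ∪ {y | (a • s + b • t) y = 0} := by
      intro y _
      have h := congrFun hab' y
      simp only [Pi.add_apply, Pi.smul_apply, Pi.mul_apply, Pi.pow_apply, Pi.zero_apply,
        smul_eq_mul] at h
      have h' : s y ^ n * (a * s y + b * t y) = 0 := by rw [← h]; ring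
      rcases mul_eq_zero.1 h' with h1 | h1
      · exact Or.inl (eq_zero_of_pow_eq_zero h1)
      · exact Or.inr (by simpa using h1)
    rcases isPreirreducible_iff_isClosed_union_isClosed.1
      (PreirreducibleSpace.isPreirreducible_univ (X := M.P)) _ _ hcl1 hcl2 hcov with h | h
    · exfalso
      have hs0 : s = 0 := by
        funext y
        exact h (Set.mem_univ y)
      have := (hind 1 0 (by rw [hs0]; simp)).1
      exact one_ne_zero this
    · exact hind a b (by
        funext y
        exact h (Set.mem_univ y))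
  simpa using hg.fintype_card_le_finrank

/-- If `D` has two sections and is orthogonal to `L`, then a positive multiple of `L` has two
sections. -/
theorem kappa (Lam : Type) [AddCommGroup Lam] (q : Lam → Lam → ℤ)
    (_q_symm : ∀ x y, q x y = q y x) (q_add : ∀ x y z, q (x + y) z = q x z + q y z)
    (hfree : Module.Free ℤ Lam) (M : Manifold Lam q) (L : Lam) (hL : L ∈ M.Nef)
    (hP : ∀ D ∈ M.Prime, q D L = 0 → ∃ a b : ℕ, 0 < a ∧ 0 < b ∧ a • D = b • L)
    (D : Lam) (hD : D ∈ M.NS) (h2 : 2 ≤ Module.finrank ℂ (M.Sec D)) (hDL : q D L = 0) :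
    ∃ n : ℕ, 0 < n ∧ 2 ≤ Module.finrank ℂ (M.Sec (n • L)) := by
  have hne : M.Sec D ≠ ⊥ := by
    intro h
    rw [h, finrank_bot] at h2
    omega
  obtain ⟨c, d, hc, hcd⟩ := (closure_prime q_add M hL hP (M.effective D hD hne)).2 hDL
  have hd : 0 < d := by
    rcases Nat.eq_zero_or_pos d with h0 | h0
    · exfalso
      rw [h0, zero_smul] at hcd
      have hz : (c : ℤ) • D = 0 := by rw [natCast_zsmul]; exact hcd
      have hD0 : D = 0 := by
        rcases smul_eq_zero.1 hz with h | h
        · exact absurd (by exact_mod_cast h) hc.ne'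
        · exact h
      rw [hD0, M.sec_zero] at h2
      omega
    · exact h0
  obtain ⟨n, rfl⟩ : ∃ n, c = n + 1 := ⟨c - 1, by omega⟩
  refine ⟨d, hd, ?_⟩
  rw [← hcd]
  exact two_le_multiple M h2 n

end Pool.Agent.H73.HK
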