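import Pool.Agent.H73.HK.LAT
import Pool.Agent.H73.HK.KAP
import Pool.Agent.H73.HK.DENSE

/-!
# Hyperkaehler fourfolds with second Betti number 23: the last theorem

Every nef class of a member `X` of the class is semiample. For an isotropic class `L ≠ 0` one
passes (Matsushita's theorem) to a member `Y` with rational period on which `L` is nef, the prime
divisors orthogonal to `L` are proportional to `L` and a group of rank `19` of automorphisms acts by
transvections. Either `L` is semiample by Fukuda's theorem, or some point has dense orbits, which the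
arithmetic argument excludes.
-/

namespace Pool.Agent.H73.HK

variable {Lam : Type} [AddCommGroup Lam]

/-- The elements of the parabolic group fix the transcendental lattice. -/
theorem Para.fix_trans {q : Lam → Lam → ℤ} {M : Manifold Lam q} {L A : Lam} {r : ℕ}
    (q_symm : ∀ x y, q x y = q y x) (π : Para M L A r) (hL : L ∈ M.NS) (n : Fin r → ℤ) (v : Lam)
    (hv : ∀ x ∈ M.NS, q v x = 0) : M.pull (π.rho n) v = v := by
  rw [π.pull_eq, q_symm L v, hv L hL, q_symm (π.b n) v, hv _ (π.b_NS n)]
  simp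

/-- Dense orbits for a subgroup of finite index. -/
theorem Para.mul_dense {q : Lam → Lam → ℤ} {M : Manifold Lam q} {L A : Lam} {r : ℕ}
    (π : Para M L A r) (m : ℕ) (hm : 0 < m) (x : M.P)
    (hx : ∀ n : Fin r → ℤ, n ≠ 0 → Dense (Set.range fun k : ℤ => π.rho (k • n) • x)) :
    ∀ n : Fin r → ℤ, n ≠ 0 →
      Dense (Set.range fun k : ℤ => (π.mul m hm).rho (k • n) • x) := by
  intro n hn
  have h1 : m • n ≠ 0 := by
    intro h
    apply hn
    funext i
    have h2 := congrFun h i
    rw [Pi.smul_apply, nsmul_eq_mul, Pi.zero_apply] at h2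
    rcases mul_eq_zero.1 h2 with h3 | h3
    · exact absurd (by exact_mod_cast h3) hm.ne'
    · exact h3
  have h2 : ∀ k : ℤ, (π.mul m hm).rho (k • n) = π.rho (k • (m • n)) := by
    intro k
    change π.rho (m • (k • n)) = π.rho (k • (m • n))
    rw [smul_comm]
  simp only [h2]
  exact hx _ h1

/-- THE LAST THEOREM, from the arithmetic argument. -/
theorem statement_of
    (endgame : ∀ (Lam : Type) [AddCommGroup Lam] (q : Lam → Lam → ℤ),
      (∀ x y, q x y = q y x) → (∀ x y z, q (x + y) z = q x z + q y z) → Module.Finite ℤ Lam →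
      ∀ (M : Manifold Lam q) (L A : Lam) (π : Para M L A 19), A ∈ M.VeryAmple → L ∈ M.Nef →
      q L L = 0 → 0 < q L A → ∀ g0 : Fin 19 → ℤ, g0 ≠ 0 → ∀ (p : ℕ) [Fact p.Prime]
      (_ : Disc q (M.NS : Set Lam) M.Ample (M.Sec A) (fun n (y : M.P) => π.rho n • y)
        (fun n x => M.pull (π.rho n) x) A g0 p) (x : M.P),
      (∀ n : Fin 19 → ℤ, n ≠ 0 → Dense (Set.range fun k : ℤ => π.rho (k • n) • x)) → False) :
    Statement := by
  intro Lam _ C X L hL
  have hfree := C.free
  have hfin := C.finite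
  by_cases hL0 : L = 0
  · rw [hL0]
    exact (C.M X).semiample_zero
  rcases ((C.M X).nef_q L hL).lt_or_eq with hpos | hzero
  · exact (C.M X).bpf L hL hpos
  have hLL : C.q L L = 0 := hzero.symm
  obtain ⟨Y, hper, hLY, hprime, A, hA, ⟨π⟩⟩ := lat C X hL hL0 hLL
  refine C.matsushita X Y L hL0 hLL hL hLY ?_
  have hqLA : 0 < C.q L A := by
    rw [C.q_symm]
    exact (C.M Y).ample_nef_q A ((C.M Y).va_ample hA) L hLY hL0
  rcases dense_or_kappa C.q_symm C.q_add π with ⟨D, hD, h2, hDL⟩ | ⟨x, hx⟩
  · obtain ⟨n, hn, hn2⟩ := kappa Lam C.q C.q_symm C.q_add hfree (C.M Y) L hLY hprime D hD h2 hDL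
    exact (C.M Y).fukuda L hLY n hn hn2
  · exfalso
    have hg0 : (Pi.single 0 1 : Fin 19 → ℤ) ≠ 0 := by
      intro h
      have := congrFun h 0
      simp at this
    have hfix : ∃ y : (C.M Y).P, π.rho (Pi.single 0 1) • y = y :=
      C.fixed_point Y _ (fun v hv => π.fix_trans C.q_symm ((C.M Y).nef_NS hLY) _ v hv)
    obtain ⟨m, hm, p, hp, ⟨Dd⟩⟩ := C.disc Y hper π.rho π.rho_zero π.rho_add A hA
      (Pi.single 0 1) hfix
    exact endgame Lam C.q C.q_symm C.q_add hfin (C.M Y) L A (π.mul m hm) hA hLY hLL hqLA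
      (Pi.single 0 1) hg0 p Dd x (π.mul_dense m hm x hx)

end Pool.Agent.H73.HK
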