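import Pool.Agent.H73.HK.Classes

/-!
# Generation of the sections of `E` by products of translates of coordinates
-/

namespace Pool.Agent.H73.HK

open scoped BigOperators
open Submodule

variable {Lam : Type} [AddCommGroup Lam] {q : Lam → Lam → ℤ} {M : Manifold Lam q} {L A : Lam}
  {r : ℕ}

/-- the first coefficient of `E` -/
def xE (C K m : ℕ) : ℤ := (C : ℤ) + 40 * (K + 1) + 2 * m

/-- the second coefficient of `E` -/
def yE (c₀ : ℤ) (K m : ℕ) : ℤ := 40 * c₀ * geo (K + 1) + 2 * m * c₀ * 4 ^ K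

/-- the constant `c₀` of an element `e` -/
def c0 (π : Para M L A r) (e : Fin r → ℤ) : ℤ := -2 * q (π.b e) (π.b e) * q L A

/-- products of sums are sums of products -/
theorem prod_mem_products {P : Type*} {k : ℕ} (a : Fin (k + 1) → P → ℂ) (t : Fin 5 → P → ℂ)
    (ht : ∀ i, t i ∈ span ℂ (Set.range a)) :
    ∃ c : (Fin 5 → Fin (k + 1)) → ℂ, ∀ y, (∏ i, t i) y = ∑ J, c J * ∏ i, a (J i) y := by
  have h1 : ∀ i, ∃ c : Fin (k + 1) → ℂ, ∑ j, c j • a j = t i := fun i =>
    (mem_span_range_iff_exists_fun ℂ).1 (ht i)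
  choose c hc using h1
  refine ⟨fun J => ∏ i, c i (J i), fun y => ?_⟩
  have h2 : (∏ i, t i) y = ∏ i, ∑ j, c i j * a j y := by
    rw [Finset.prod_apply]
    refine Finset.prod_congr rfl fun i _ => ?_
    rw [← hc i]
    simp
  rw [h2, Finset.prod_univ_sum]
  rw [Fintype.piFinset_univ]
  refine Finset.sum_congr rfl fun J _ => ?_
  rw [Finset.prod_mul_distrib]

theorem generation_para (hadd : ∀ x y z, q (x + y) z = q x z + q y z)
    (hsymm : ∀ x y, q x y = q y x) (π : Para M L A r) (hA : A ∈ M.VeryAmple) {k : ℕ}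
    (a : Fin (k + 1) → M.P → ℂ) (hspan : span ℂ (Set.range a) = M.Sec A)
    (e : Fin r → ℤ) (C : ℕ) (hC : 5 ≤ C)
    (hC' : (C : ℤ) • A - (5 : ℤ) • ((2 : ℤ) • A + (2 * c0 π e) • L) ∈ M.Nef) (K m : ℕ) :
    ∃ u : M.P → ℂ, (∀ y, u y ≠ 0) ∧
      ∀ s ∈ M.Sec (xE C K m • A + yE (c0 π e) K m • L),
      ∃ c : (Fin (lstAll e C K m).length → Fin (k + 1)) → ℂ, ∀ y, s y =
        u y * ∑ J, c J * ∏ i, a (J i) (π.rho ((lstAll e C K m).get i) • y) := by
  have hz := pull_zero π A
  have hva : ∀ n, M.pull (π.rho n) A ∈ M.VeryAmple := fun n => M.va_pull _ _ hA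
  have hfive : ∀ x : Lam, (5 : ℤ) • x = 5 • x := fun x => by
    rw [← natCast_zsmul x 5]
    rfl
  have h := generation (Sec := M.Sec) (a := a) (act := fun n y => π.rho n • y)
    (fun y => by rw [π.rho_zero, one_smul]) (Nef := M.Nef) (cls := fun n => M.pull (π.rho n) A)
    M.nef_add M.nef_zero (fun n => M.ample_nef (M.va_ample (hva n)))
    (fun G n hG s hs => by
      rw [hfive] at hG
      rw [M.regular _ (hva n) G hG] at hs
      exact hs)
    (fun n => by
      obtain ⟨u, hu, hs⟩ := M.pull_sec (π.rho n) A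
      refine ⟨u, hu, fun t ht => ?_⟩
      obtain ⟨t', ht', h1⟩ := (hs t).1 ht
      rw [← hspan] at ht'
      obtain ⟨c, hc⟩ := (mem_span_range_iff_exists_fun ℂ).1 ht'
      refine ⟨c, fun y => ?_⟩
      rw [h1 y, ← hc]
      simp)
    (by
      refine ⟨fun _ => 1, fun _ => one_ne_zero, fun s hs => ?_⟩
      change s ∈ M.Sec ((5 : ℤ) • M.pull (π.rho 0) A) at hs
      rw [hz, hfive, M.normal A hA] at hs
      induction hs using Submodule.span_induction with
      | mem x hx =>
        obtain ⟨t, ht, rfl⟩ := hx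
        obtain ⟨c, hc⟩ := prod_mem_products a t (fun i => by rw [hspan]; exact ht i)
        exact ⟨c, fun y => by rw [one_mul]; exact hc y⟩
      | zero => exact ⟨0, fun y => by simp⟩
      | add x y _ _ hx hy =>
        obtain ⟨c, hc⟩ := hx
        obtain ⟨c', hc'⟩ := hy
        refine ⟨c + c', fun y => ?_⟩
        rw [Pi.add_apply, hc y, hc' y]
        simp [add_mul, Finset.sum_add_distrib]
      | smul z x _ hx =>
        obtain ⟨c, hc⟩ := hx
        refine ⟨z • c, fun y => ?_⟩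
        rw [Pi.smul_apply, hc y]
        simp [Finset.mul_sum, mul_assoc])
    L (c0 π e) e (fun j => pull_sum_pow hadd hsymm π e j) C hC
    (by
      rw [hz]
      exact hC') K m
  simp only [hz] at h
  exact h

end Pool.Agent.H73.HK
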