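import Mathlib

/-!
# Hyperkaehler fourfolds with second Betti number 23: the published facts that are used

`Disc` is the arithmetic part (good reduction, p-adic interpolation, heights), `Manifold` the
geometry of one projective hyperkaehler fourfold `Y` with `b_2 = 23`, `DefClass` the deformation
class (moduli, Torelli, walls).  All manifolds are marked: `Lam` is the lattice `H^2(Y, Z)`, `q` the
Beauville-Bogomolov form.  `P` is the set `Y(C)` of complex points with the Zariski topology, and a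
section of a line bundle is written as a function on `P`: in the fibre of every line bundle (of a
basis of the free group `Pic Y = NS Y`, the others by tensor products) over every point a non zero
vector is chosen, with no condition.  Classes outside `NS Y` have no sections (`Sec x = 0`).
-/

namespace Pool.Agent.H73.HK

open scoped BigOperators

/-- `W` is an irreducible component of the (closed) set `Z`. -/
def IsComp {P : Type} [TopologicalSpace P] (Z W : Set P) : Prop :=
  IsIrreducible W ∧ W ⊆ Z ∧ ∀ W', IsIrreducible W' → W' ⊆ Z → W ⊆ W' → W' = W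

/-- ARITHMETIC OF A RESIDUE DISC. `A` is a very ample class on `Y`, `act n` (`n` in `Z^r`) are
commuting automorphisms acting on the classes by `pull n`; everything is defined over a number
field `k`, also a point `z` with `g0.z = z`; `p >= 3` is a prime and `v | p` a place of `k` with
`k_v = Q_p` at which `Y`, `A`, the automorphisms and a finite map `f : Y → P^4` (given by sections
of `A`, unramified at `z`) have good reduction; `U` is the residue disc of `z` in `Y(Q_p)`; the
group (a subgroup of finite index of the given one) acts trivially on the points modulo `p^2` which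
reduce to `z` modulo `p`, so maps `U` to `U` and is the identity modulo `p` in the rescaled
coordinates of `U`, fixes the symplectic form, and is then replaced by its `p`-th powers, so that
`n` enters the interpolated action through `p n`. -/
structure Disc {Lam : Type} [AddCommGroup Lam] (q : Lam → Lam → ℤ) (NS Ample : Set Lam)
    {P : Type} (SecA : Submodule ℂ (P → ℂ)) {r : ℕ} (act : (Fin r → ℤ) → P → P)
    (pull : (Fin r → ℤ) → Lam → Lam) (A : Lam) (g0 : Fin r → ℤ) (p : ℕ) [Fact p.Prime] where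
  /-- the coordinates of the projective embedding given by `A`, a basis of sections over `k`. -/
  k : ℕ
  a : Fin (k + 1) → P → ℂ
  span_a : Submodule.span ℂ (Set.range a) = SecA
  /-- the algebraic points `x` of `U` which lie over rational integral points of an affine space
  `A^4` in `P^4` under `f`; `K x = k(x)`, of degree at most `d`. -/
  D : Type
  K : D → Type
  [fld : ∀ x, Field (K x)]
  [nf : ∀ x, NumberField (K x)]
  d : ℕ
  deg : ∀ x, Module.finrank ℚ (K x) ≤ d
  /-- the complex point, the embeddings of `K x` into `C` and (from `x` in `Y(Q_p)`) into `Q_p`. -/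
  pt : D → P
  emb : ∀ x, K x →+* ℂ
  iota : ∀ x, K x →+* ℚ_[p]
  /-- homogeneous coordinates of the point `n.x`; the first one is the unit on `U`. -/
  co : ∀ x, (Fin r → ℤ) → Fin (k + 1) → K x
  co_ne : ∀ x n, co x n 0 ≠ 0
  co_val : ∀ x n, ∃ t : ℂ, t ≠ 0 ∧ ∀ j, a j (act n (pt x)) = t * emb x (co x n j)
  /-- the place of `K x` defined by `iota` has completion `Q_p`, so that its normalised absolute
  value is the pull back of the one of `Q_p`. -/
  place : ∀ x, ∃ w ∈ Height.AdmissibleAbsValues.nonarchAbsVal (K := K x), ∀ t, w t = ‖iota x t‖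
  /-- POONEN (p-adic interpolation of iterates): the coordinates of `n.x` divided by the first one
  are restrictions of analytic functions of `n` in `Z_p^r`, power series in `p n_1, .., p n_r` with
  coefficients in `Z_p`. -/
  fn : D → Fin (k + 1) → (Fin r → ℤ_[p]) → ℤ_[p]
  fn_val : ∀ x j n, iota x (co x n j) = iota x (co x n 0) * (fn x j (fun i => (n i : ℤ_[p])) : ℚ_[p])
  fn_an : ∀ x j (m : ℕ), ∃ Q : MvPolynomial (Fin r) ℤ_[p], ∀ n,
    (p : ℤ_[p]) ^ m ∣ fn x j n - MvPolynomial.eval (fun i => (p : ℤ_[p]) * n i) Q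
  /-- the vector fields `d/dn_i` of the interpolated action of `Z_p^r` on `U`, at the point `x`; if
  a combination with coefficients `n'` vanishes at `x`, its flow fixes `x` (uniqueness of integral
  curves) and, the fields commuting, `(n + n').x = n.x`. -/
  vec : D → Fin r → (Fin 4 → ℚ_[p])
  flow : ∀ x, ∀ n n' : Fin r → ℤ_[p],
    (∑ i, (n' i : ℚ_[p]) • vec x i) = 0 → ∀ j, fn x j (n + n') = fn x j n
  /-- the symplectic form at `x`, an alternating non degenerate form. -/
  form : D → LinearMap.BilinForm ℚ_[p] (Fin 4 → ℚ_[p])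
  form_alt : ∀ x, (form x).IsAlt
  form_nondeg : ∀ x, (form x).Nondegenerate
  /-- the form and the fields at the point `z`; as `g0.z = z`, the field of `g0` vanishes at `z`. -/
  formz : LinearMap.BilinForm ℚ_[p] (Fin 4 → ℚ_[p])
  vecz : Fin r → (Fin 4 → ℚ_[p])
  vecz_fix : ∑ i, (g0 i : ℚ_[p]) • vecz i = 0
  /-- the fields commute and preserve the form, so its values on them are constant on `U`
  (Cartan's formula). -/
  form_const : ∀ x i j, form x (vec x i) (vec x j) = formz (vecz i) (vecz j)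
  /-- the finite map `f` and HENSEL: every integral point of `A^4` congruent to `f(z)` lifts to a
  point of `U`; the height of the point is comparable with that of its image. -/
  y0 : Fin 4 → ℤ
  f : D → (Fin 4 → ℤ)
  hensel : ∃ C : ℝ, ∀ y : Fin 4 → ℤ, (∀ i, (p : ℤ) ∣ y i - y0 i) →
    ∃ x : D, f x = y ∧ Height.logHeight (co x 0) ≤ C * (1 + Real.log (1 + ∑ i, |(y i : ℝ)|))
  /-- the divisor of a section (over `k`) of `G = SUM_l (nu l)^*A` is mapped by `f` to a
  hypersurface of degree at most `G.A^3 = const q(G,A)` (projection formula, Fujiki's relation). -/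
  push : ∃ C : ℝ, 0 < C ∧ ∀ (I : Type) [Fintype I] [DecidableEq I] (nu : I → (Fin r → ℤ))
    (c : (I → Fin (k + 1)) → ℤ),
    (∃ y : P, ∑ J, (c J : ℂ) * ∏ l, a (J l) (act (nu l) y) ≠ 0) →
    ∃ G : MvPolynomial (Fin 4) ℂ, G ≠ 0 ∧
      (G.totalDegree : ℝ) ≤ C * ∑ l, (q (pull (nu l) A) A : ℝ) ∧
      ∀ x : D, MvPolynomial.eval (fun i => (f x i : ℂ)) G ≠ 0 →
        ∑ J, (c J : ℂ) * ∏ l, a (J l) (act (nu l) (pt x)) ≠ 0
  /-- WEIL'S HEIGHT MACHINE for the points `n.x`: `H x n G` = height of `n.x` for the class `G`,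
  relative to `K x` (that is `[K x : Q]` times the absolute one). -/
  H : D → (Fin r → ℤ) → Lam → ℝ
  H_add : ∀ x n, ∀ G ∈ NS, ∀ G' ∈ NS, H x n (G + G') = H x n G + H x n G'
  H_A : ∃ C : ℝ, ∀ x n, |H x n A - Height.logHeight (co x n)| ≤ C
  H_pull : ∀ G ∈ NS, ∀ g : Fin r → ℤ, ∃ C : ℝ, ∀ x n, |H x (n + g) G - H x n (pull g G)| ≤ C
  H_pos : ∀ G ∈ Ample, ∃ C : ℝ, ∀ x n, - C ≤ H x n G

/-- GEOMETRY OF ONE projective hyperkaehler fourfold `Y` with `b_2(Y) = 23`, marked by
`Lam = H^2(Y, Z)`. -/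
structure Manifold (Lam : Type) [AddCommGroup Lam] (q : Lam → Lam → ℤ) where
  /-- the Neron-Severi group, the ample, the nef, the semiample classes. -/
  NS : AddSubgroup Lam
  Ample : Set Lam
  Nef : Set Lam
  Semiample : Set Lam
  ample_nef : Ample ⊆ Nef
  nef_NS : Nef ⊆ NS
  nef_zero : (0 : Lam) ∈ Nef
  nef_add : ∀ x ∈ Nef, ∀ y ∈ Nef, x + y ∈ Nef
  ample_add : ∀ x ∈ Ample, ∀ y ∈ Nef, x + y ∈ Ample
  exists_ample : ∃ a, a ∈ Ample
  ample_dom : ∀ a ∈ Ample, ∀ x ∈ NS, ∃ n : ℕ, 0 < n ∧ n • a + x ∈ Ample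
  nef_limit : ∀ a ∈ Ample, ∀ x ∈ NS, (∀ n : ℕ, a + n • x ∈ Ample) → x ∈ Nef
  nef_q : ∀ x ∈ Nef, 0 ≤ q x x
  ample_q : ∀ a ∈ Ample, 0 < q a a
  ample_nef_q : ∀ a ∈ Ample, ∀ x ∈ Nef, x ≠ 0 → 0 < q a x
  semiample_zero : (0 : Lam) ∈ Semiample
  /-- base point free theorem (`x` nef, `q(x) > 0`, i.e. `x^4 > 0`, by Fujiki's relation). -/
  bpf : ∀ x ∈ Nef, 0 < q x x → x ∈ Semiample
  /-- the points, the sections of the line bundle of class `x`. -/
  P : Type
  [top : TopologicalSpace P]
  [irr : IrreducibleSpace P]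
  [t1 : T1Space P]
  Sec : Lam → Submodule ℂ (P → ℂ)
  zero_closed : ∀ x, ∀ s ∈ Sec x, IsClosed {y | s y = 0}
  sec_mul : ∀ x y, ∀ s ∈ Sec x, ∀ t ∈ Sec y, s * t ∈ Sec (x + y)
  sec_fin : ∀ x, Module.Finite ℂ (Sec x)
  sec_zero : Module.finrank ℂ (Sec 0) = 1
  /-- FUKUDA (log abundance for klt fourfolds of positive Kodaira dimension), for `(Y, eps D)`. -/
  fukuda : ∀ x ∈ Nef, ∀ n : ℕ, 0 < n → 2 ≤ Module.finrank ℂ (Sec (n • x)) → x ∈ Semiample
  /-- Riemann-Roch and Kodaira vanishing (`chi(O) = 3`, `alpha = c_X/24`, `beta = C(c_2)/24`). -/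
  alpha : ℚ
  beta : ℚ
  alpha_pos : 0 < alpha
  rr : ∀ x ∈ Ample, (Module.finrank ℂ (Sec x) : ℚ) = alpha * (q x x) ^ 2 + beta * q x x + 3
  /-- dimension of irreducible closed subsets. -/
  dim : Set P → ℕ
  dim_mono : ∀ Z W : Set P, IsClosed Z → IsIrreducible Z → IsClosed W → IsIrreducible W → Z ⊆ W →
    Z ≠ W → dim Z < dim W
  dim_le : ∀ Z : Set P, IsClosed Z → IsIrreducible Z → Z ≠ Set.univ → dim Z ≤ 3
  /-- automorphisms: action on points and (by pull back) on classes. -/
  Aut : Type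
  [grp : Group Aut]
  [mul : MulAction Aut P]
  aut_cont : ∀ g : Aut, Continuous fun y : P => g • y
  faithful : ∀ g : Aut, (∀ y : P, g • y = y) → g = 1
  pull : Aut → Lam →+ Lam
  pull_one : pull 1 = AddMonoidHom.id Lam
  pull_mul : ∀ g h, pull (g * h) = (pull h).comp (pull g)
  pull_q : ∀ g x y, q (pull g x) (pull g y) = q x y
  pull_NS : ∀ g, ∀ x ∈ NS, pull g x ∈ NS
  pull_ample : ∀ g, ∀ x ∈ Ample, pull g x ∈ Ample
  pull_nef : ∀ g, ∀ x ∈ Nef, pull g x ∈ Nef
  pull_sec : ∀ g x, ∃ u : P → ℂ, (∀ y, u y ≠ 0) ∧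
    ∀ s, s ∈ Sec (pull g x) ↔ ∃ t ∈ Sec x, ∀ y, s y = u y * t (g • y)
  /-- only finitely many automorphisms act trivially on `H^2` (Huybrechts). -/
  ker_fin : {g : Aut | pull g = AddMonoidHom.id Lam}.Finite
  /-- very ample, projectively normal classes; KODAIRA and MUMFORD (Castelnuovo-Mumford
  regularity): if `G - 5F` is nef, `F` very ample, then `G` is 0-regular for `F`. -/
  VeryAmple : Set Lam
  va_ample : VeryAmple ⊆ Ample
  va_pull : ∀ g, ∀ x ∈ VeryAmple, pull g x ∈ VeryAmple
  exists_va : ∀ x ∈ Ample, ∃ n : ℕ, 0 < n ∧ n • x ∈ VeryAmple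
  separate : ∀ F ∈ VeryAmple, ∀ y z : P, (∀ s ∈ Sec F, ∀ t ∈ Sec F, s y * t z = t y * s z) → y = z
  regular : ∀ F ∈ VeryAmple, ∀ G, G - 5 • F ∈ Nef →
    Sec (G + F) = Submodule.span ℂ {u | ∃ s ∈ Sec G, ∃ t ∈ Sec F, u = s * t}
  generated : ∀ F ∈ VeryAmple, ∀ G, G - 5 • F ∈ Nef → ∀ y, ∃ s ∈ Sec G, s y ≠ 0
  normal : ∀ F ∈ VeryAmple, Sec (5 • F) = Submodule.span ℂ
    {u | ∃ t : Fin 5 → P → ℂ, (∀ i, t i ∈ Sec F) ∧ u = ∏ i, t i}
  /-- BEZOUT (all components together): a set cut out by sections of the ample, generated class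
  `B` has at most `B^4 = bez q(B)^2` irreducible components (Fulton; Fujiki's relation). -/
  bez : ℝ
  bezout : ∀ F ∈ VeryAmple, ∀ B, B - 5 • F ∈ Nef → ∀ S ⊆ (Sec B : Set (P → ℂ)),
    ∀ T : Finset (Set P), (∀ W ∈ T, IsComp {y | ∀ s ∈ S, s y = 0} W) →
    (T.card : ℝ) ≤ bez * (q B B : ℝ) ^ 2
  /-- classes of prime divisors. -/
  Prime : Set Lam
  prime_NS : Prime ⊆ NS
  prime_nef : ∀ D ∈ Prime, ∀ x ∈ Nef, 0 ≤ q D x
  prime_ample : ∀ D ∈ Prime, ∀ x ∈ Ample, 0 < q D x
  effective : ∀ x ∈ NS, Sec x ≠ ⊥ → x ∈ AddSubmonoid.closure Prime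
  /-- AMERIK-CAMPANA: either `g` preserves a non constant rational function (`D` = its divisor of
  poles) or the very general orbit is Zariski dense. -/
  amerik_campana : ∀ g : Aut,
    (∃ D ∈ NS, 2 ≤ Module.finrank ℂ (Sec D) ∧ pull g D = D) ∨
    (∃ bad : ℕ → Set P, (∀ i, IsClosed (bad i) ∧ bad i ≠ Set.univ) ∧
      ∀ x, (∀ i, x ∉ bad i) → Dense (Set.range fun m : ℤ => g ^ m • x))
  /-- `C` is uncountable. -/
  baire : ∀ bad : ℕ → Set P, (∀ i, IsClosed (bad i) ∧ bad i ≠ Set.univ) → ∃ x, ∀ i, x ∉ bad i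

attribute [instance] Disc.fld Disc.nf Manifold.top Manifold.irr Manifold.t1 Manifold.grp
  Manifold.mul

/-- DEFORMATION CLASS of hyperkaehler fourfolds with `b_2 = 23` (the maximum, by GUAN; the
Hilbert squares of K3 surfaces are an example): a connected component of the moduli space of marked
manifolds; `Mem` are its projective members. -/
structure DefClass (Lam : Type) [AddCommGroup Lam] where
  /-- the Beauville-Bogomolov form, of signature `(3, 20)`. -/
  q : Lam → Lam → ℤ
  q_symm : ∀ x y, q x y = q y x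
  q_add : ∀ x y z, q (x + y) z = q x z + q y z
  three : ∃ a b c, 0 < q a a ∧ 0 < q b b ∧ 0 < q c c ∧ q a b = 0 ∧ q a c = 0 ∧ q b c = 0
  rest : ∀ a b c, 0 < q a a → 0 < q b b → 0 < q c c → q a b = 0 → q a c = 0 → q b c = 0 →
    ∀ v, q v a = 0 → q v b = 0 → q v c = 0 → v ≠ 0 → q v v < 0
  free : Module.Free ℤ Lam
  finite : Module.Finite ℤ Lam
  rank : Module.finrank ℤ Lam = 23
  Mem : Type
  M : Mem → Manifold Lam q
  /-- MBM classes (AMERIK-VERBITSKY): primitive classes of negative, bounded square, with `z` also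
  `-z` is one; every prime divisor of negative square is proportional to one. -/
  MBM : Set Lam
  mbm_neg : ∀ z ∈ MBM, q z z < 0
  mbm_bdd : ∃ C : ℤ, ∀ z ∈ MBM, - C ≤ q z z
  prime_mbm : ∀ Y, ∀ D ∈ (M Y).Prime, q D D < 0 → ∃ z ∈ MBM, ∃ a b : ℕ, 0 < a ∧ 0 < b ∧
    a • D = b • z
  /-- SURJECTIVITY OF THE PERIOD MAP (HUYBRECHTS) and MARKMAN's description of its fibres: for a
  rational positive plane `<p1, p2>` and a class `kappa` orthogonal to it, of positive square and on
  no wall, there is a member with this period (the plane oriented so that `kappa` lies in the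
  positive cone of the component) for which `kappa` is ample. -/
  period : ∀ p1 p2 kappa, 0 < q p1 p1 → 0 < q p2 p2 → q p1 p2 = 0 → q kappa p1 = 0 →
    q kappa p2 = 0 → 0 < q kappa kappa →
    (∀ z ∈ MBM, q z p1 = 0 → q z p2 = 0 → q kappa z ≠ 0) →
    ∃ Y, (∀ x, x ∈ (M Y).NS ↔ q x p1 = 0 ∧ q x p2 = 0) ∧ kappa ∈ (M Y).Ample
  /-- the ample cone is a chamber of the walls orthogonal to the MBM classes. -/
  chamber : ∀ Y, ∀ kappa ∈ (M Y).Ample, ∀ y ∈ (M Y).NS, 0 < q y y → 0 < q y kappa →
    (∀ z ∈ MBM, z ∈ (M Y).NS → 0 < q kappa z → 0 < q y z) → y ∈ (M Y).Ample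
  /-- GLOBAL TORELLI (VERBITSKY, MARKMAN): the monodromy group has finite index in the orthogonal
  group, so contains the `m`-th powers; a monodromy operator which is the identity on the
  transcendental lattice and maps an ample class to an ample class comes from an automorphism. -/
  torelli : ∃ m : ℕ, 0 < m ∧ ∀ Y, ∀ phi : Lam ≃+ Lam, (∀ x y, q (phi x) (phi y) = q x y) →
    (∀ v, (∀ x ∈ (M Y).NS, q v x = 0) → phi v = v) →
    (∃ kappa ∈ (M Y).Ample, (phi^[m]) kappa ∈ (M Y).Ample) →
    ∃ g : (M Y).Aut, ∀ x, (M Y).pull g x = (phi^[m]) x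
  /-- MATSUSHITA, KAMENOVA-VERBITSKY: for an isotropic class, nef on both members, inducing a
  Lagrangian fibration over the projective plane is invariant; the base is always the plane
  (HUYBRECHTS-XU). The two pairs are deformation equivalent: the periods orthogonal to `x`, with `x`
  in the closure of the positive cone, form a connected domain, the very general one has a single
  member. -/
  matsushita : ∀ X Y x, x ≠ 0 → q x x = 0 → x ∈ (M X).Nef → x ∈ (M Y).Nef →
    x ∈ (M Y).Semiample → x ∈ (M X).Semiample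
  /-- HOLOMORPHIC LEFSCHETZ FORMULA: an automorphism which fixes the transcendental lattice fixes
  the class of the symplectic form, so its Lefschetz number on `H^*(Y, O)` is `1 + 1 + 1`. -/
  fixed_point : ∀ Y, ∀ g : (M Y).Aut, (∀ v, (∀ x ∈ (M Y).NS, q v x = 0) → (M Y).pull g v = v) →
    ∃ y : (M Y).P, g • y = y
  /-- ARITHMETIC DATA. If the period is rational, `Y` has maximal Picard number, so it is rigid
  with its line bundles and defined over a number field with all of them and its automorphisms (and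
  a fixed point of `g0`, if there is one). The data of `Disc` then exist, after replacing the group
  by a subgroup of finite index (`m` also kills its character on the symplectic form, of finite
  order because the transcendental lattice is definite). -/
  disc : ∀ Y, (∃ p1 p2, 0 < q p1 p1 ∧ 0 < q p2 p2 ∧ q p1 p2 = 0 ∧
      ∀ x, x ∈ (M Y).NS ↔ q x p1 = 0 ∧ q x p2 = 0) →
    ∀ {r : ℕ} (rho : (Fin r → ℤ) → (M Y).Aut), rho 0 = 1 →
    (∀ m n, rho (m + n) = rho m * rho n) →
    ∀ A ∈ (M Y).VeryAmple, ∀ g0, (∃ y : (M Y).P, rho g0 • y = y) →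
    ∃ m : ℕ, 0 < m ∧ ∃ (p : ℕ) (_ : Fact p.Prime), Nonempty
      (Disc q ((M Y).NS : Set Lam) (M Y).Ample ((M Y).Sec A)
        (fun n (y : (M Y).P) => rho (m • n) • y) (fun n x => (M Y).pull (rho (m • n)) x) A g0 p)

/-- MAIN STATEMENT: every nef class on a projective hyperkaehler fourfold with `b_2 = 23` is
semiample. -/
def Statement : Prop :=
  ∀ (Lam : Type) [AddCommGroup Lam] (C : DefClass Lam) (X : C.Mem), (C.M X).Nef ⊆ (C.M X).Semiample

end Pool.Agent.H73.HK
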