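import Pool.Agent.H73.HK.LAT2
import Pool.Agent.H73.HK.CENT

/-!
# Eichler transvections, Torelli, the parabolic group
-/

namespace Pool.Agent.H73.HK

section tv

variable {Lam : Type} [AddCommGroup Lam] {q : Lam → Lam → ℤ}

/-- The Eichler transvection. -/
def tv (q : Lam → Lam → ℤ) (L b x : Lam) : Lam :=
  x + (2 * q L x) • b - (2 * q b x + 2 * q b b * q L x) • L

theorem tv_zero (hq : IsForm q) (L x : Lam) : tv q L 0 x = x := by
  simp [tv, hq.zero_left]

theorem q_L_tv (hq : IsForm q) {L b : Lam} (hLL : q L L = 0) (hb : q b L = 0) (x : Lam) :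
    q L (tv q L b x) = q L x := by
  rw [tv, hq.sub_right, hq.add_right, hq.zsmul_right, hq.zsmul_right, hLL, hq.symm L b, hb]
  ring

theorem q_tv (hq : IsForm q) {L b c : Lam} (hc : q c L = 0) (x : Lam) :
    q c (tv q L b x) = q c x + 2 * q L x * q c b := by
  rw [tv, hq.sub_right, hq.add_right, hq.zsmul_right, hq.zsmul_right, hc]
  ring

theorem tv_comp (hq : IsForm q) {L b c : Lam} (hLL : q L L = 0) (hb : q b L = 0) (hc : q c L = 0)
    (x : Lam) : tv q L b (tv q L c x) = tv q L (b + c) x := by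
  have e1 := q_L_tv hq hLL hc x
  have e2 := q_tv hq (b := c) hb x
  have e3 : tv q L b (tv q L c x) = tv q L c x + (2 * q L x) • b -
      (2 * (q b x + 2 * q L x * q b c) + 2 * q b b * q L x) • L := by
    conv_lhs => rw [tv]
    rw [e1, e2]
  rw [e3, tv, tv]
  have e4 : q (b + c) x = q b x + q c x := hq.add _ _ _
  have e5 : q (b + c) (b + c) = q b b + 2 * q b c + q c c := by
    rw [hq.add, hq.add_right, hq.add_right, hq.symm c b]
    ring
  rw [e4, e5]
  module

theorem tv_add (hq : IsForm q) (L b x y : Lam) : tv q L b (x + y) = tv q L b x + tv q L b y := by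
  rw [tv, tv, tv, hq.add_right, hq.add_right]
  module

theorem tv_isom (hq : IsForm q) {L b : Lam} (hLL : q L L = 0) (hb : q b L = 0) (x y : Lam) :
    q (tv q L b x) (tv q L b y) = q x y := by
  have e1 : q (tv q L b x) b = q b x + 2 * q L x * q b b := by
    rw [hq.symm, q_tv hq hb]
  have e2 : q (tv q L b x) L = q L x := by
    rw [hq.symm, q_L_tv hq hLL hb]
  have e3 : q (tv q L b x) y = q x y + (2 * q L x) * q b y -
      (2 * q b x + 2 * q b b * q L x) * q L y := by
    rw [tv, hq.sub_left, hq.add, hq.zsmul_left, hq.zsmul_left]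
  have e4 : q (tv q L b x) (tv q L b y) = q (tv q L b x) y + (2 * q L y) * q (tv q L b x) b -
      (2 * q b y + 2 * q b b * q L y) * q (tv q L b x) L := by
    conv_lhs => rw [tv.eq_1 q L b y]
    rw [hq.sub_right, hq.add_right, hq.zsmul_right, hq.zsmul_right]
  rw [e4, e3, e1, e2]
  ring

theorem tv_fix {L b v : Lam} (h1 : q L v = 0) (h2 : q b v = 0) :
    tv q L b v = v := by
  simp [tv, h1, h2]

/-- The transvection as an automorphism of the lattice. -/
def tvEquiv (hq : IsForm q) {L b : Lam} (hLL : q L L = 0) (hb : q b L = 0) : Lam ≃+ Lam where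
  toFun := tv q L b
  invFun := tv q L (-b)
  left_inv x := by
    rw [tv_comp hq hLL (by rw [hq.neg_left, hb, neg_zero]) hb, neg_add_cancel, tv_zero hq]
  right_inv x := by
    rw [tv_comp hq hLL hb (by rw [hq.neg_left, hb, neg_zero]), add_neg_cancel, tv_zero hq]
  map_add' := tv_add hq L b

theorem tvEquiv_iter (hq : IsForm q) {L b : Lam} (hLL : q L L = 0) (hb : q b L = 0) (n : ℕ)
    (x : Lam) : ((tvEquiv hq hLL hb)^[n]) x = tv q L (n • b) x := by
  induction n generalizing x with
  | zero => simp [tv_zero hq]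
  | succ n ih =>
    rw [Function.iterate_succ_apply, ih]
    change tv q L (n • b) (tv q L b x) = _
    rw [tv_comp hq hLL (by rw [hq.nsmul_left, hb, mul_zero]) hb, succ_nsmul]

end tv

section para

variable {Lam : Type} [AddCommGroup Lam]

/-- The parabolic group on the special member. -/
theorem para (C : DefClass Lam) {L A0 p1 p2 : Lam} (hLL : C.q L L = 0)
    (h1 : 0 < C.q p1 p1) (h2 : 0 < C.q p2 p2) (h12 : C.q p1 p2 = 0)
    (hL1 : C.q L p1 = 0) (hL2 : C.q L p2 = 0) {B : ℤ}
    (Y : C.Mem) (A : Lam) (t n : ℕ)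
    (hNS : ∀ x, x ∈ (C.M Y).NS ↔ C.q x p1 = 0 ∧ C.q x p2 = 0)
    (hAt : A = n • (A0 + t • L)) (hva : A ∈ (C.M Y).VeryAmple) (hAL : 0 < C.q A L)
    (hAB : B * (C.q L A) ^ 2 < C.q A A)
    (hhoro : ∀ y ∈ (C.M Y).NS, 0 < C.q y y → 0 < C.q y L → B * (C.q L y) ^ 2 < C.q y y →
        y ∈ (C.M Y).Ample)
    {r : ℕ} (b : Fin r → Lam) (hbl : LinearIndependent ℤ b) (hb1 : ∀ i, C.q (b i) p1 = 0)
    (hb2 : ∀ i, C.q (b i) p2 = 0) (hbA : ∀ i, C.q (b i) A0 = 0) (hbL : ∀ i, C.q (b i) L = 0) :
    Nonempty (Para (C.M Y) L A r) := by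
  have hq := C.form
  have hs := C.sig
  have hAmp : A ∈ (C.M Y).Ample := (C.M Y).va_ample hva
  have hAA : 0 < C.q A A := (C.M Y).ample_q A hAmp
  have hANS : A ∈ (C.M Y).NS := (C.M Y).nef_NS ((C.M Y).ample_nef hAmp)
  have hLNS : L ∈ (C.M Y).NS := (hNS L).2 ⟨hL1, hL2⟩
  obtain ⟨hA1, hA2⟩ := (hNS A).1 hANS
  obtain ⟨m, hm, hT⟩ := C.torelli
  -- the automorphisms attached to the transvections
  have hg : ∀ i, ∃ g : (C.M Y).Aut, ∀ x, (C.M Y).pull g x = tv C.q L (m • b i) x := by
    intro i
    have hbi : m • b i ∈ (C.M Y).NS := nsmul_mem ((hNS _).2 ⟨hb1 i, hb2 i⟩) m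
    have hbiL : C.q (m • b i) L = 0 := by rw [hq.nsmul_left, hbL i, mul_zero]
    obtain ⟨g, hg⟩ := hT Y (tvEquiv hq hLL (hbL i)) (fun x y => tv_isom hq hLL (hbL i) x y)
      (fun v hv => tv_fix (by rw [hq.symm, hv L hLNS])
        (by rw [hq.symm, hv _ ((hNS _).2 ⟨hb1 i, hb2 i⟩)]))
      ⟨A, hAmp, by
        rw [tvEquiv_iter hq hLL (hbL i)]
        refine hhoro _ ?_ ?_ ?_ ?_
        · exact sub_mem (add_mem hANS (zsmul_mem hbi _)) (zsmul_mem hLNS _)
        · rw [tv_isom hq hLL hbiL]
          exact hAA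
        · rw [hq.symm, q_L_tv hq hLL hbiL, hq.symm]
          exact hAL
        · rw [tv_isom hq hLL hbiL, q_L_tv hq hLL hbiL]
          exact hAB⟩
    refine ⟨g, fun x => ?_⟩
    rw [hg x, tvEquiv_iter hq hLL (hbL i)]
  choose g hg using hg
  -- the kernel of the action on the lattice
  let K : Subgroup (C.M Y).Aut :=
    { carrier := {g | (C.M Y).pull g = AddMonoidHom.id Lam}
      one_mem' := (C.M Y).pull_one
      mul_mem' := by
        intro a c ha hc
        change (C.M Y).pull (a * c) = _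
        rw [(C.M Y).pull_mul, show (C.M Y).pull c = _ from hc, show (C.M Y).pull a = _ from ha]
        rfl
      inv_mem' := by
        intro a ha
        change (C.M Y).pull a⁻¹ = _
        have h := (C.M Y).pull_mul a a⁻¹
        rw [mul_inv_cancel, (C.M Y).pull_one, show (C.M Y).pull a = _ from ha] at h
        rw [h]
        rfl }
  have hKmem : ∀ a c : (C.M Y).Aut, (C.M Y).pull a = (C.M Y).pull c → a * c⁻¹ ∈ K := by
    intro a c hac
    change (C.M Y).pull (a * c⁻¹) = _
    rw [(C.M Y).pull_mul, hac, ← (C.M Y).pull_mul, mul_inv_cancel, (C.M Y).pull_one]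
  have : K.Normal := by
    constructor
    intro a ha c
    have : (C.M Y).pull (c * a) = (C.M Y).pull c := by
      rw [(C.M Y).pull_mul, show (C.M Y).pull a = _ from ha]
      rfl
    exact hKmem _ _ this
  have hcomm : ∀ i j, g i * g j * (g i)⁻¹ * (g j)⁻¹ ∈ K := by
    intro i j
    have h3 : (C.M Y).pull (g i * g j) = (C.M Y).pull (g j * g i) := by
      ext x
      rw [(C.M Y).pull_mul, (C.M Y).pull_mul]
      change (C.M Y).pull (g j) ((C.M Y).pull (g i) x) = (C.M Y).pull (g i) ((C.M Y).pull (g j) x)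
      rw [hg, hg, hg, hg, tv_comp hq hLL, tv_comp hq hLL, add_comm]
      all_goals rw [hq.nsmul_left, hbL, mul_zero]
    have := hKmem _ _ h3
    rwa [mul_inv_rev, ← mul_assoc] at this
  obtain ⟨e, he, hce⟩ := commuting_powers K (C.M Y).ker_fin g hcomm
  obtain ⟨rho, hr0, hradd, hrs⟩ := hom_of_commuting (fun i => g i ^ e) hce
  -- the linear map
  let bb : (Fin r → ℤ) →+ Lam :=
    { toFun := fun n => ∑ i, (n i * (e * m : ℕ)) • b i
      map_zero' := by simp
      map_add' := by
        intro x y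
        rw [← Finset.sum_add_distrib]
        refine Finset.sum_congr rfl fun i _ => ?_
        rw [← add_smul, Pi.add_apply, add_mul] }
  have hbbq : ∀ n v, (∀ i, C.q (b i) v = 0) → C.q (bb n) v = 0 := by
    intro n v hv
    change C.q (∑ i, (n i * (e * m : ℕ)) • b i) v = 0
    rw [hq.sum_left]
    exact Finset.sum_eq_zero fun i _ => by rw [hq.zsmul_left, hv i, mul_zero]
  have hbbL : ∀ n, C.q (bb n) L = 0 := fun n => hbbq n L hbL
  have hbbA : ∀ n, C.q (bb n) A = 0 := by
    intro k
    rw [hAt, hq.nsmul_right, hq.add_right, hq.nsmul_right, hbbL k, hbbq k A0 hbA]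
    ring
  have hpow : ∀ i (k : ℕ) x, (C.M Y).pull (g i ^ k) x = tv C.q L (k • (m • b i)) x := by
    intro i k
    induction k with
    | zero =>
      intro x
      rw [pow_zero, (C.M Y).pull_one, zero_smul, tv_zero hq]
      rfl
    | succ k ih =>
      intro x
      rw [pow_succ, (C.M Y).pull_mul]
      change (C.M Y).pull (g i) ((C.M Y).pull (g i ^ k) x) = _
      rw [ih, hg, tv_comp hq hLL, succ_nsmul, add_comm]
      · rw [hq.nsmul_left, hbL, mul_zero]
      · rw [hq.nsmul_left, hq.nsmul_left, hbL, mul_zero, mul_zero]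
  let S : AddSubgroup (Fin r → ℤ) :=
    { carrier := {n | ∀ x, (C.M Y).pull (rho n) x = tv C.q L (bb n) x}
      zero_mem' := by
        intro x
        rw [hr0, (C.M Y).pull_one, map_zero, tv_zero hq]
        rfl
      add_mem' := by
        intro a c ha hc x
        rw [hradd, (C.M Y).pull_mul]
        change (C.M Y).pull (rho c) ((C.M Y).pull (rho a) x) = _
        rw [ha, hc, tv_comp hq hLL (hbbL c) (hbbL a), map_add, add_comm]
      neg_mem' := by
        intro a ha x
        have h3 : ∀ y, (C.M Y).pull (rho (-a)) ((C.M Y).pull (rho a) y) = y := by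
          intro y
          have := (C.M Y).pull_mul (rho a) (rho (-a))
          rw [← hradd, add_neg_cancel, hr0, (C.M Y).pull_one] at this
          exact (DFunLike.congr_fun this y).symm
        have h4 : x = (C.M Y).pull (rho a) (tv C.q L (bb (-a)) x) := by
          rw [ha, tv_comp hq hLL (hbbL a) (hbbL _), ← map_add, add_neg_cancel, map_zero,
            tv_zero hq]
        conv_lhs => rw [h4]
        rw [h3] }
  have hS : ∀ n, n ∈ S := by
    intro n
    have hn : n = ∑ i, n i • (Pi.single i (1 : ℤ) : Fin r → ℤ) := by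
      ext j
      simp [Finset.sum_apply, Pi.single_apply]
    rw [hn]
    refine sum_mem fun i _ => zsmul_mem ?_ _
    intro x
    rw [hrs, hpow]
    congr 1
    change _ = ∑ j, ((Pi.single i (1 : ℤ) : Fin r → ℤ) j * (e * m : ℕ)) • b j
    rw [Finset.sum_eq_single i]
    · rw [Pi.single_eq_same, one_mul, natCast_zsmul, mul_smul]
    · intro j _ hj
      rw [Pi.single_eq_of_ne hj, zero_mul, zero_smul]
    · intro h
      exact absurd (Finset.mem_univ i) h
  refine ⟨{ rho := rho
            rho_zero := hr0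
            rho_add := hradd
            b := bb
            b_NS := fun k => (hNS _).2 ⟨hbbq k p1 hb1, hbbq k p2 hb2⟩
            b_L := hbbL
            b_A := hbbA
            b_neg := ?_
            pull_eq := fun k x => hS k x }⟩
  intro k hk
  refine hs p1 p2 A h1 h2 hAA h12 (by rw [hq.symm, hA1]) (by rw [hq.symm, hA2]) (bb k)
    (hbbq k p1 hb1) (hbbq k p2 hb2) (hbbA k) ?_
  intro h0
  apply hk
  have := Fintype.linearIndependent_iff.1 hbl (fun i => k i * (e * m : ℕ)) h0
  ext i
  have hi := this i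
  have hem : ((e * m : ℕ) : ℤ) ≠ 0 := by
    have : 0 < e * m := Nat.mul_pos he hm
    exact_mod_cast this.ne'
  exact (mul_eq_zero.1 hi).resolve_right hem

end para

end Pool.Agent.H73.HK
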