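import Pool.Agent.H73.HK.LAT1
import Pool.Agent.H73.HK.LAT3

/-!
# The special member and its parabolic group
-/

namespace Pool.Agent.H73.HK

variable {Lam : Type} [AddCommGroup Lam]

/-- An isotropic class on the right side of a positive class is nef on some member. -/
theorem exists_nef (C : DefClass Lam) (A L : Lam) (hAA : 0 < C.q A A) (hLL : C.q L L = 0)
    (hAL : 0 < C.q A L) : ∃ Y : C.Mem, L ∈ (C.M Y).Nef := by
  obtain ⟨B', hB'⟩ := C.mbm_bdd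
  obtain ⟨p1, p2, h1, h2, h12, hA1, hA2, hL1, hL2, hgood⟩ :=
    good_plane C.finite C.q C.q_symm C.q_add C.three C.rest A L hAA hLL hAL (max B' 0)
  have hB : ∀ z ∈ C.MBM, - (max B' 0) ≤ C.q z z := by
    intro z hz
    have := hB' z hz
    have h3 : B' ≤ max B' 0 := le_max_left _ _
    linarith
  have hL0 : L ≠ 0 := by
    rintro rfl
    rw [C.form.zero_right] at hAL
    omega
  obtain ⟨Y, _, _, _, _, hLn, _⟩ :=
    member C hL0 hLL hAA hAL (le_max_right _ _) hB ⟨h1, h2, h12, hA1, hA2, hL1, hL2, hgood⟩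
  exact ⟨Y, hLn⟩

theorem lat (C : DefClass Lam) (X : C.Mem) {L : Lam} (hL : L ∈ (C.M X).Nef) (hL0 : L ≠ 0)
    (hLL : C.q L L = 0) :
    ∃ Y, (∃ p1 p2, 0 < C.q p1 p1 ∧ 0 < C.q p2 p2 ∧ C.q p1 p2 = 0 ∧
        ∀ x, x ∈ (C.M Y).NS ↔ C.q x p1 = 0 ∧ C.q x p2 = 0) ∧
      L ∈ (C.M Y).Nef ∧
      (∀ D ∈ (C.M Y).Prime, C.q D L = 0 → ∃ a b : ℕ, 0 < a ∧ 0 < b ∧ a • D = b • L) ∧
      ∃ A ∈ (C.M Y).VeryAmple, Nonempty (Para (C.M Y) L A 19) := by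
  obtain ⟨A0, hA0⟩ := (C.M X).exists_ample
  have hAA : 0 < C.q A0 A0 := (C.M X).ample_q A0 hA0
  have hAL : 0 < C.q A0 L := (C.M X).ample_nef_q A0 hA0 L hL hL0
  obtain ⟨B', hB'⟩ := C.mbm_bdd
  obtain ⟨p1, p2, h1, h2, h12, hA1, hA2, hL1, hL2, hgood⟩ :=
    good_plane C.finite C.q C.q_symm C.q_add C.three C.rest A0 L hAA hLL hAL (max B' 0)
  have hB : ∀ z ∈ C.MBM, - (max B' 0) ≤ C.q z z := by
    intro z hz
    have := hB' z hz
    have h3 : B' ≤ max B' 0 := le_max_left _ _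
    linarith
  obtain ⟨Y, A, t, n, hNS, hLn, hAt, hva, hAL', hAB, hhoro, hprime⟩ :=
    member C hL0 hLL hAA hAL (le_max_right _ _) hB ⟨h1, h2, h12, hA1, hA2, hL1, hL2, hgood⟩
  obtain ⟨b, hbl, hb⟩ := nineteen C.free C.finite C.rank C.q C.q_add p1 p2 A0 L
  exact ⟨Y, ⟨p1, p2, h1, h2, h12, hNS⟩, hLn, hprime, A, hva,
    para C hLL h1 h2 h12 hL1 hL2 Y A t n hNS hAt hva hAL' hAB hhoro b hbl
      (fun i => (hb i).1) (fun i => (hb i).2.1) (fun i => (hb i).2.2.1) (fun i => (hb i).2.2.2)⟩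

end Pool.Agent.H73.HK
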