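import Mathlib

/-!
Lattice part for MP_5ee2d0: in a lattice of signature `(3, n)` with an isotropic vector `L` and a
positive vector `A` there is a rational positive plane orthogonal to `A` and `L` such that no
vector of negative square `≥ -C` is orthogonal to the plane and to `L`.
-/

namespace Pool.Agent.H73.HK

variable {Lam : Type*} [AddCommGroup Lam]

section basics

variable (q : Lam → Lam → ℤ) (q_symm : ∀ x y, q x y = q y x)
  (q_add : ∀ x y z, q (x + y) z = q x z + q y z)

include q_add in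
lemma q_zero (z : Lam) : q 0 z = 0 := by
  have := q_add 0 0 z
  rw [add_zero] at this
  omega

include q_symm q_add in
lemma q_zero_right (z : Lam) : q z 0 = 0 := by rw [q_symm, q_zero q q_add]

include q_symm q_add in
lemma lq_add_right (x y z : Lam) : q x (y + z) = q x y + q x z := by
  rw [q_symm, q_add, q_symm y, q_symm z]

include q_add in
lemma lq_neg (x z : Lam) : q (-x) z = - q x z := by
  have := q_add x (-x) z
  rw [add_neg_cancel, q_zero q q_add] at this
  omega

/-- The form with the second variable fixed as a linear map. -/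
def qlin (z : Lam) : Lam →ₗ[ℤ] ℤ :=
  (AddMonoidHom.mk' (fun x => q x z) (fun x y => q_add x y z)).toIntLinearMap

lemma qlin_apply (z x : Lam) : qlin q q_add z x = q x z := rfl

include q_add in
lemma q_smul (n : ℤ) (x z : Lam) : q (n • x) z = n * q x z := by
  rw [← qlin_apply q q_add, map_smul, smul_eq_mul, qlin_apply]

include q_symm q_add in
lemma q_smul_right (n : ℤ) (x z : Lam) : q x (n • z) = n * q x z := by
  rw [q_symm, q_smul q q_add, q_symm z]

include q_add in
lemma lq_sub (x y z : Lam) : q (x - y) z = q x z - q y z := by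
  rw [sub_eq_add_neg, q_add, lq_neg q q_add]; ring

include q_symm q_add in
lemma lq_sub_right (x y z : Lam) : q x (y - z) = q x y - q x z := by
  rw [q_symm, lq_sub q q_add, q_symm y, q_symm z]

/-- The sublattice orthogonal to a family. -/
def orth {ι : Type*} (f : ι → Lam) : Submodule ℤ Lam :=
  LinearMap.ker (LinearMap.pi (fun i => qlin q q_add (f i)))

lemma mem_orth {ι : Type*} (f : ι → Lam) (x : Lam) :
    x ∈ orth q q_add f ↔ ∀ i, q x (f i) = 0 := by
  rw [orth, LinearMap.mem_ker]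
  constructor
  · intro h i
    have := congrFun h i
    simpa [qlin_apply] using this
  · intro h
    ext i
    simpa [qlin_apply] using h i

include q_symm q_add in
/-- Cauchy-Schwarz for a negative definite submodule. -/
lemma cauchy_neg (N : Submodule ℤ Lam) (hN : ∀ x ∈ N, x ≠ 0 → q x x < 0) {x y : Lam}
    (hx : x ∈ N) (hy : y ∈ N) : (q x y) ^ 2 ≤ q x x * q y y := by
  by_cases hy0 : y = 0
  · subst hy0
    rw [q_zero_right q q_symm q_add, q_zero_right q q_symm q_add]; simp
  have hyy := hN y hy hy0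
  set z := q y y • x - q x y • y with hz
  have hzN : z ∈ N := N.sub_mem (N.smul_mem _ hx) (N.smul_mem _ hy)
  have hzz : q z z = q y y * (q y y * q x x - (q x y) ^ 2) := by
    rw [hz]
    simp only [lq_sub q q_add, lq_sub_right q q_symm q_add, q_smul q q_add,
      q_smul_right q q_symm q_add, q_symm y x]
    ring
  have hle : q z z ≤ 0 := by
    by_cases h0 : z = 0
    · rw [h0, q_zero q q_add]
    · exact (hN z hzN h0).le
  rw [hzz] at hle
  by_contra hcon
  push Not at hcon
  have : 0 < q y y * (q y y * q x x - (q x y) ^ 2) :=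
    mul_pos_of_neg_of_neg hyy (by linarith)
  linarith

include q_symm q_add in
/-- A negative definite submodule of a finitely generated lattice has finitely many vectors of
bounded square. -/
lemma finite_bounded (hfin : Module.Finite ℤ Lam) (N : Submodule ℤ Lam)
    (hN : ∀ x ∈ N, x ≠ 0 → q x x < 0) (B : ℤ) :
    {x : Lam | x ∈ N ∧ -B ≤ q x x}.Finite := by
  classical
  have hfg : N.FG := IsNoetherian.noetherian N
  obtain ⟨s, hs⟩ := hfg
  -- the map to the products with the generators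
  let F : Lam → (s → ℤ) := fun x i => q x i
  have hinj : Set.InjOn F {x : Lam | x ∈ N ∧ -B ≤ q x x} := by
    intro x hx y hy hxy
    have h1 : ∀ z ∈ N, q (x - y) z = 0 := by
      intro z hz
      rw [← hs] at hz
      refine Submodule.span_induction (p := fun z _ => q (x - y) z = 0) ?_ ?_ ?_ ?_ hz
      · intro w hw
        have := congrFun hxy ⟨w, hw⟩
        simp only [F] at this
        rw [lq_sub q q_add, this, sub_self]
      · exact q_zero_right q q_symm q_add _
      · intro a b _ _ ha hb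
        rw [lq_add_right q q_symm q_add, ha, hb, add_zero]
      · intro n a _ ha
        rw [q_smul_right q q_symm q_add, ha, mul_zero]
    by_contra hne
    have h2 : x - y ∈ N := N.sub_mem hx.1 hy.1
    have h3 := hN _ h2 (sub_ne_zero.2 hne)
    rw [h1 _ h2] at h3
    exact lt_irrefl _ h3
  refine Set.Finite.of_finite_image (f := F) ?_ hinj
  -- bounded entries
  have hsN : ∀ i : s, (i : Lam) ∈ N := fun i => by
    rw [← hs]; exact Submodule.subset_span i.2
  let b : s → ℤ := fun i => |B| * |q (i : Lam) i|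
  refine (Set.Finite.subset (Set.Finite.pi' (t := fun i : s => Set.Icc (-(b i)) (b i))
    (fun i => Set.finite_Icc _ _)) ?_)
  rintro _ ⟨x, ⟨hx, hB⟩, rfl⟩ i
  have h1 := cauchy_neg q q_symm q_add N hN hx (hsN i)
  have h2 : |q x x| ≤ |B| := by
    have : q x x ≤ 0 := by
      by_cases h0 : x = 0
      · rw [h0, q_zero q q_add]
      · exact (hN x hx h0).le
    rw [abs_of_nonpos this]
    have := le_abs_self B
    linarith
  have h3 : (q x i) ^ 2 ≤ b i := by
    calc (q x i) ^ 2 ≤ q x x * q i i := h1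
      _ ≤ |q x x * q i i| := le_abs_self _
      _ = |q x x| * |q i i| := abs_mul _ _
      _ ≤ |B| * |q (i : Lam) i| := mul_le_mul_of_nonneg_right h2 (abs_nonneg _)
  have h4 : |q x i| ≤ (q x i) ^ 2 := by
    rw [← sq_abs]
    rcases (abs_nonneg (q x i)).eq_or_lt with h | h
    · rw [← h]; norm_num
    · nlinarith
  exact abs_le.1 (h4.trans h3)

include q_symm q_add in
/-- A vector of `N` which is orthogonal to none of finitely many non zero vectors of `N`. -/
lemma exists_generic (N : Submodule ℤ Lam) (hN : ∀ x ∈ N, x ≠ 0 → q x x < 0)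
    (T : Finset Lam) (hT : ∀ x ∈ T, x ∈ N ∧ x ≠ 0) :
    ∃ u ∈ N, ∀ x ∈ T, q x u ≠ 0 := by
  classical
  induction T using Finset.induction_on with
  | empty => exact ⟨0, N.zero_mem, by simp⟩
  | insert a T ha ih =>
    obtain ⟨u, hu, hq⟩ := ih (fun x hx => hT x (Finset.mem_insert_of_mem hx))
    obtain ⟨haN, ha0⟩ := hT a (Finset.mem_insert_self a T)
    by_cases hau : q a u = 0
    · set k : ℤ := 1 + ∑ x ∈ T, |q x a| with hk
      refine ⟨k • u + a, N.add_mem (N.smul_mem _ hu) haN, fun x hx => ?_⟩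
      rw [lq_add_right q q_symm q_add, q_smul_right q q_symm q_add]
      rcases Finset.mem_insert.1 hx with rfl | hx
      · rw [hau, mul_zero, zero_add]
        exact (hN _ haN ha0).ne
      · intro h0
        have h1 : |q x a| ≤ ∑ x ∈ T, |q x a| :=
          Finset.single_le_sum (f := fun x => |q x a|) (fun _ _ => abs_nonneg _) hx
        have h2 : 1 ≤ |q x u| := Int.one_le_abs (hq x hx)
        have hk0 : 0 < k := by
          have : 0 ≤ ∑ x ∈ T, |q x a| := Finset.sum_nonneg fun _ _ => abs_nonneg _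
          linarith
        have h3 : |k * q x u| = |q x a| := by
          have : k * q x u = - q x a := by linarith
          rw [this, abs_neg]
        rw [abs_mul, abs_of_pos hk0] at h3
        have h4 : k ≤ k * |q x u| := by nlinarith
        linarith
    · refine ⟨u, hu, fun x hx => ?_⟩
      rcases Finset.mem_insert.1 hx with rfl | hx
      · exact hau
      · exact hq x hx

end basics

/-- Two homogeneous linear equations in three integral unknowns have a non zero solution. -/
lemma exists_ker (f g : (Fin 3 → ℤ) →ₗ[ℤ] ℤ) :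
    ∃ v : Fin 3 → ℤ, v ≠ 0 ∧ f v = 0 ∧ g v = 0 := by
  let F : (Fin 3 → ℤ) →ₗ[ℤ] (Fin 2 → ℤ) := LinearMap.pi ![f, g]
  have hF : ¬ Function.Injective F := by
    intro h
    have := LinearMap.finrank_le_finrank_of_injective h
    simp at this
  rw [← LinearMap.ker_eq_bot, Submodule.eq_bot_iff] at hF
  push Not at hF
  obtain ⟨v, hv, hv0⟩ := hF
  refine ⟨v, hv0, ?_, ?_⟩
  · have := congrFun (LinearMap.mem_ker.1 hv) 0
    simpa [F] using this
  · have := congrFun (LinearMap.mem_ker.1 hv) 1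
    simpa [F] using this

/-- The inequality at the end of the construction. -/
lemma final_ineq (Q K a s T U : ℤ) (hQ : 0 < Q) (hT : 0 ≤ T) (hU : 0 ≤ U) (ha : a ≠ 0)
    (hs : -T ≤ s) (hK : K = (T + 1) * U + 1)
    (hcs : (-(Q * K * a)) ^ 2 ≤ (Q ^ 2 * s - Q * a ^ 2) * (-U)) : False := by
  have ha2 : 1 ≤ a ^ 2 := by
    have h0 : 0 < a ^ 2 := by positivity
    omega
  have hQ2 : Q ≤ Q ^ 2 := by nlinarith
  have hE : -s ≤ T * a ^ 2 := by nlinarith
  have h5 : Q ^ 2 * K ^ 2 * a ^ 2 ≤ (Q ^ 2 * (-s) + Q * a ^ 2) * U := by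
    calc Q ^ 2 * K ^ 2 * a ^ 2 = (-(Q * K * a)) ^ 2 := by ring
      _ ≤ _ := hcs
      _ = _ := by ring
  have h7 : Q ^ 2 * (-s) ≤ Q ^ 2 * (T * a ^ 2) := mul_le_mul_of_nonneg_left hE (sq_nonneg _)
  have h8 : Q * a ^ 2 ≤ Q ^ 2 * a ^ 2 := mul_le_mul_of_nonneg_right hQ2 (sq_nonneg _)
  have h6 : (Q ^ 2 * (-s) + Q * a ^ 2) * U ≤ (Q ^ 2 * (T * a ^ 2) + Q ^ 2 * a ^ 2) * U :=
    mul_le_mul_of_nonneg_right (by linarith) hU
  have h9 : Q ^ 2 * a ^ 2 * K ^ 2 ≤ Q ^ 2 * a ^ 2 * ((T + 1) * U) := by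
    calc Q ^ 2 * a ^ 2 * K ^ 2 = Q ^ 2 * K ^ 2 * a ^ 2 := by ring
      _ ≤ _ := h5
      _ ≤ _ := h6
      _ = _ := by ring
  have h10 : 0 < Q ^ 2 * a ^ 2 := by positivity
  have h11 : K ^ 2 ≤ (T + 1) * U := le_of_mul_le_mul_left h9 h10
  have h12 : 0 ≤ (T + 1) * U := by positivity
  have h13 : K ≤ K ^ 2 := by nlinarith
  linarith

/-- The contradiction for a bad vector `z`. -/
lemma no_bad (q : Lam → Lam → ℤ) (q_symm : ∀ x y, q x y = q y x)
    (q_add : ∀ x y z, q (x + y) z = q x z + q y z) (N : Submodule ℤ Lam)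
    (hNneg : ∀ x ∈ N, x ≠ 0 → q x x < 0) (A L p1 p2 u : Lam) (D C U K : ℤ)
    (hmemN : ∀ x, x ∈ N ↔ q x p1 = 0 ∧ q x p2 = 0 ∧ q x A = 0 ∧ q x L = 0)
    (hLA : q L A = D) (hL : q L L = 0) (hp11 : 0 < q p1 p1) (h12 : q p1 p2 = 0)
    (hA1 : q A p1 = 0) (hL1 : q L p1 = 0) (hL2 : q L p2 = 0) (huN : u ∈ N)
    (huU : q u u = -U) (hU0 : 0 ≤ U) (hC0 : 0 ≤ C) (hK : K = (D ^ 2 * C + 1) * U + 1)
    (hu : ∀ y ∈ N, y ≠ 0 → -(D ^ 2 * C) ≤ q y y → q y u ≠ 0) (hD : 0 < D)
    (z : Lam) (hz1 : K * q z p1 + q z u = 0) (hz2 : q z p2 = 0) (hzL : q z L = 0)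
    (hzC : - C ≤ q z z) (hz0 : q z z < 0) : False := by
  obtain ⟨hu1, hu2, huA, huL⟩ := (hmemN u).1 huN
  have h1u : q p1 u = 0 := by rw [q_symm]; exact hu1
  -- the component orthogonal to `A`
  obtain ⟨y, hy⟩ : ∃ y, y = D • z - q z A • L := ⟨_, rfl⟩
  have hyA : q y A = 0 := by
    rw [hy, lq_sub q q_add, q_smul q q_add, q_smul q q_add, hLA]; ring
  have hyL : q y L = 0 := by
    rw [hy, lq_sub q q_add, q_smul q q_add, q_smul q q_add, hzL, hL]; ring
  have hy2 : q y p2 = 0 := by
    rw [hy, lq_sub q q_add, q_smul q q_add, q_smul q q_add, hz2, hL2]; ring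
  have hyu : q y u = D * q z u := by
    rw [hy, lq_sub q q_add, q_smul q q_add, q_smul q q_add, q_symm L u, huL]; ring
  have hy1 : q y p1 = D * q z p1 := by
    rw [hy, lq_sub q q_add, q_smul q q_add, q_smul q q_add, hL1]; ring
  have hyy : q y y = D ^ 2 * q z z := by
    rw [hy]
    simp only [lq_sub q q_add, lq_sub_right q q_symm q_add, q_smul q q_add,
      q_smul_right q q_symm q_add, q_symm L z, hzL, hL]
    ring
  obtain ⟨a, ha⟩ : ∃ a, a = q y p1 := ⟨_, rfl⟩
  have hKa : K * a + q y u = 0 := by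
    rw [ha, hy1, hyu]
    linear_combination D * hz1
  have hD2 : 0 < D ^ 2 := by positivity
  have hyC : -(D ^ 2 * C) ≤ q y y := by
    rw [hyy]
    have h1 : D ^ 2 * (-C) ≤ D ^ 2 * q z z := mul_le_mul_of_nonneg_left hzC hD2.le
    linarith
  have hyneg : q y y < 0 := by
    rw [hyy]
    exact mul_neg_of_pos_of_neg hD2 hz0
  have ha0 : a = 0 := by
    by_contra hane
    obtain ⟨n, hn⟩ : ∃ n, n = q p1 p1 • y - a • p1 := ⟨_, rfl⟩
    have hnN : n ∈ N := by
      rw [hmemN]
      refine ⟨?_, ?_, ?_, ?_⟩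
      · rw [hn, lq_sub q q_add, q_smul q q_add, q_smul q q_add, ← ha]; ring
      · rw [hn, lq_sub q q_add, q_smul q q_add, q_smul q q_add, hy2, h12]; ring
      · rw [hn, lq_sub q q_add, q_smul q q_add, q_smul q q_add, hyA, q_symm p1 A, hA1]; ring
      · rw [hn, lq_sub q q_add, q_smul q q_add, q_smul q q_add, hyL, q_symm p1 L, hL1]; ring
    have hnu : q n u = - (q p1 p1 * K * a) := by
      rw [hn, lq_sub q q_add, q_smul q q_add, q_smul q q_add, h1u]
      linear_combination (q p1 p1) * hKa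
    have hnn : q n n = q p1 p1 ^ 2 * q y y - q p1 p1 * a ^ 2 := by
      rw [hn]
      simp only [lq_sub q q_add, lq_sub_right q q_symm q_add, q_smul q q_add,
        q_smul_right q q_symm q_add, q_symm p1 y, ← ha]
      ring
    have hcs := cauchy_neg q q_symm q_add N hNneg hnN huN
    rw [hnu, hnn, huU] at hcs
    exact final_ineq (q p1 p1) K a (q y y) (D ^ 2 * C) U hp11 (by positivity) hU0 hane hyC
      hK hcs
  -- now `y` is in the finite set
  have hyN : y ∈ N := (hmemN y).2 ⟨by rw [← ha, ha0], hy2, hyA, hyL⟩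
  have hy0 : y ≠ 0 := by
    intro h
    rw [h, q_zero q q_add] at hyneg
    exact lt_irrefl _ hyneg
  refine hu y hyN hy0 hyC ?_
  rw [ha0] at hKa
  linarith

/-- THE GOOD PLANE. -/
theorem good_plane (hfin : Module.Finite ℤ Lam) (q : Lam → Lam → ℤ)
    (q_symm : ∀ x y, q x y = q y x) (q_add : ∀ x y z, q (x + y) z = q x z + q y z)
    (three : ∃ a b c, 0 < q a a ∧ 0 < q b b ∧ 0 < q c c ∧ q a b = 0 ∧ q a c = 0 ∧ q b c = 0)
    (rest : ∀ a b c, 0 < q a a → 0 < q b b → 0 < q c c → q a b = 0 → q a c = 0 → q b c = 0 →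
      ∀ v, q v a = 0 → q v b = 0 → q v c = 0 → v ≠ 0 → q v v < 0)
    (A L : Lam) (hA : 0 < q A A) (hL : q L L = 0) (hAL : 0 < q A L) (C : ℤ) :
    ∃ p1 p2, 0 < q p1 p1 ∧ 0 < q p2 p2 ∧ q p1 p2 = 0 ∧ q A p1 = 0 ∧ q A p2 = 0 ∧
      q L p1 = 0 ∧ q L p2 = 0 ∧
      ∀ z, q z p1 = 0 → q z p2 = 0 → q z L = 0 → - C ≤ q z z → q z z < 0 → False := by
  classical
  obtain ⟨e1, e2, e3, h11, h22, h33, h12, h13, h23⟩ := three
  set D : ℤ := q A L with hD
  -- the linear combinations of the three positive vectors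
  let v : (Fin 3 → ℤ) →ₗ[ℤ] Lam :=
    { toFun := fun t => t 0 • e1 + t 1 • e2 + t 2 • e3
      map_add' := fun s t => by simp only [Pi.add_apply, add_smul]; abel
      map_smul' := fun n t => by
        simp only [Pi.smul_apply, smul_eq_mul, mul_smul, smul_add, eq_intCast, Int.cast_id] }
  have hv : ∀ t, v t = t 0 • e1 + t 1 • e2 + t 2 • e3 := fun t => rfl
  have hvv : ∀ t, q (v t) (v t) = t 0 ^ 2 * q e1 e1 + t 1 ^ 2 * q e2 e2 + t 2 ^ 2 * q e3 e3 := by
    intro t
    rw [hv]
    simp only [q_add, lq_add_right q q_symm q_add, q_smul q q_add, q_smul_right q q_symm q_add,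
      q_symm e2 e1, q_symm e3 e1, q_symm e3 e2, h12, h13, h23]
    ring
  have hvpos : ∀ t, t ≠ 0 → 0 < q (v t) (v t) := by
    intro t ht
    rw [hvv]
    have h0 : t 0 ≠ 0 ∨ t 1 ≠ 0 ∨ t 2 ≠ 0 := by
      by_contra hcon
      push Not at hcon
      apply ht
      ext i
      fin_cases i
      · exact hcon.1
      · exact hcon.2.1
      · exact hcon.2.2
    have a0 : 0 ≤ t 0 ^ 2 * q e1 e1 := by positivity
    have a1 : 0 ≤ t 1 ^ 2 * q e2 e2 := by positivity
    have a2 : 0 ≤ t 2 ^ 2 * q e3 e3 := by positivity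
    rcases h0 with h | h | h
    · have : 0 < t 0 ^ 2 * q e1 e1 := by positivity
      linarith
    · have : 0 < t 1 ^ 2 * q e2 e2 := by positivity
      linarith
    · have : 0 < t 2 ^ 2 * q e3 e3 := by positivity
      linarith
  -- the projection to the complement of `A`, `L`
  let w : (Fin 3 → ℤ) →ₗ[ℤ] Lam :=
    { toFun := fun t => (D ^ 2) • v t - q (v t) L • (D • A - q A A • L)
      map_add' := fun s t => by
        simp only [map_add, q_add, smul_add, add_smul]; abel
      map_smul' := fun n t => by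
        simp only [map_smul, q_smul q q_add, mul_smul, smul_sub, eq_intCast, Int.cast_id]
        rw [smul_comm n (D ^ 2) (v t)] }
  have hw : ∀ t, w t = (D ^ 2) • v t - q (v t) L • (D • A - q A A • L) := fun t => rfl
  have hLA : q L A = D := by rw [q_symm]
  have hwA : ∀ t, q (v t) A = 0 → q (w t) A = 0 := by
    intro t ht
    rw [hw]
    simp only [lq_sub q q_add, q_smul q q_add, ht, hLA]
    ring
  have hwL : ∀ t, q (w t) L = 0 := by
    intro t
    rw [hw]
    simp only [lq_sub q q_add, q_smul q q_add, hL, ← hD]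
    ring
  have hww : ∀ t, q (v t) A = 0 →
      q (w t) (w t) = D ^ 4 * q (v t) (v t) + D ^ 2 * q A A * q (v t) L ^ 2 := by
    intro t ht
    rw [hw]
    simp only [lq_sub q q_add, lq_sub_right q q_symm q_add, q_smul q q_add,
      q_smul_right q q_symm q_add, q_symm A (v t), q_symm L (v t), hLA, ht, hL, ← hD]
    ring
  have hwpos : ∀ t, t ≠ 0 → q (v t) A = 0 → 0 < q (w t) (w t) := by
    intro t ht h
    rw [hww t h]
    have := hvpos t ht
    have : 0 < D ^ 4 * q (v t) (v t) := by positivity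
    have : 0 ≤ D ^ 2 * q A A * q (v t) L ^ 2 := by positivity
    linarith
  -- the first plane
  obtain ⟨t1, ht1, h1A, -⟩ := exists_ker ((qlin q q_add A).comp v) 0
  obtain ⟨t2, ht2, h2A, h2p⟩ := exists_ker ((qlin q q_add A).comp v)
    ((qlin q q_add (w t1)).comp w)
  have h1A' : q (v t1) A = 0 := h1A
  have h2A' : q (v t2) A = 0 := h2A
  set p1 := w t1 with hp1
  set p2 := w t2 with hp2
  have h21 : q p2 p1 = 0 := h2p
  have h12' : q p1 p2 = 0 := by rw [q_symm]; exact h21
  have hp11 : 0 < q p1 p1 := hwpos t1 ht1 h1A'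
  have hp22 : 0 < q p2 p2 := hwpos t2 ht2 h2A'
  have hA1 : q A p1 = 0 := by rw [q_symm]; exact hwA t1 h1A'
  have hA2 : q A p2 = 0 := by rw [q_symm]; exact hwA t2 h2A'
  have hL1 : q L p1 = 0 := by rw [q_symm]; exact hwL t1
  have hL2 : q L p2 = 0 := by rw [q_symm]; exact hwL t2
  -- the negative definite complement
  let N : Submodule ℤ Lam := orth q q_add ![p1, p2, A, L]
  have hmemN : ∀ x, x ∈ N ↔ q x p1 = 0 ∧ q x p2 = 0 ∧ q x A = 0 ∧ q x L = 0 := by
    intro x
    rw [mem_orth]
    constructor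
    · intro h
      exact ⟨h 0, h 1, h 2, h 3⟩
    · rintro ⟨a, b, c, d⟩ i
      fin_cases i
      · exact a
      · exact b
      · exact c
      · exact d
  have hNneg : ∀ x ∈ N, x ≠ 0 → q x x < 0 := by
    intro x hx hx0
    obtain ⟨a, b, c, d⟩ := (hmemN x).1 hx
    exact rest p1 p2 A hp11 hp22 hA h12' (by rw [q_symm]; exact hA1) (by rw [q_symm]; exact hA2)
      x a b c hx0
  set C' : ℤ := max C 0 with hC'
  have hC0 : 0 ≤ C' := le_max_right _ _
  have hCC : C ≤ C' := le_max_left _ _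
  have hSfin := finite_bounded q q_symm q_add hfin N hNneg (D ^ 2 * C')
  obtain ⟨u, huN, hu⟩ := exists_generic q q_symm q_add N hNneg
    (hSfin.toFinset.filter (fun x => x ≠ 0)) (by
      intro x hx
      rw [Finset.mem_filter, Set.Finite.mem_toFinset] at hx
      exact ⟨hx.1.1, hx.2⟩)
  obtain ⟨hu1, hu2, huA, huL⟩ := (hmemN u).1 huN
  set U : ℤ := |q u u| with hU
  have hU0 : 0 ≤ U := abs_nonneg _
  have huu : q u u ≤ 0 := by
    by_cases h0 : u = 0
    · rw [h0, q_zero q q_add]
    · exact (hNneg u huN h0).le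
  have huU : q u u = -U := by rw [hU, abs_of_nonpos huu]; ring
  set K : ℤ := (D ^ 2 * C' + 1) * U + 1 with hK
  have hK1 : 1 ≤ K := by
    have : 0 ≤ (D ^ 2 * C' + 1) * U := by positivity
    linarith
  have hKU : U < K := by
    have h1 : 0 ≤ D ^ 2 * C' * U := by positivity
    have h2 : K = D ^ 2 * C' * U + U + 1 := by rw [hK]; ring
    linarith
  have hKsq : K ≤ K ^ 2 := by nlinarith
  have h1u : q p1 u = 0 := by rw [q_symm]; exact hu1
  have h2u : q p2 u = 0 := by rw [q_symm]; exact hu2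
  refine ⟨K • p1 + u, p2, ?_, hp22, ?_, ?_, hA2, ?_, hL2, ?_⟩
  · simp only [q_add, lq_add_right q q_symm q_add, q_smul q q_add, q_smul_right q q_symm q_add,
      h1u, hu1, huU]
    have h1 : K ^ 2 * 1 ≤ K ^ 2 * q p1 p1 := mul_le_mul_of_nonneg_left hp11 (sq_nonneg K)
    have h2 : K * (K * q p1 p1 + 0) + (K * 0 + -U) = K ^ 2 * q p1 p1 - U := by ring
    linarith
  · rw [q_add, q_smul q q_add, h12', hu2]; ring
  · rw [lq_add_right q q_symm q_add, q_smul_right q q_symm q_add, hA1, q_symm A u, huA]; ring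
  · rw [lq_add_right q q_symm q_add, q_smul_right q q_symm q_add, hL1, q_symm L u, huL]; ring
  · intro z hz1 hz2 hzL hzC hz0
    rw [lq_add_right q q_symm q_add, q_smul_right q q_symm q_add] at hz1
    refine no_bad q q_symm q_add N hNneg A L p1 p2 u D C' U K hmemN hLA hL hp11 h12' hA1 hL1
      hL2 huN huU hU0 hC0 (by rw [hK]) (fun y hyN hy0 hyC => ?_) hAL z hz1 hz2 hzL
      (by linarith) hz0
    refine hu y ?_
    rw [Finset.mem_filter, Set.Finite.mem_toFinset]
    exact ⟨⟨hyN, hyC⟩, hy0⟩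

/-- NINETEEN INDEPENDENT VECTORS orthogonal to four given ones in a lattice of rank `23`. -/
theorem nineteen (hfree : Module.Free ℤ Lam) (hfin : Module.Finite ℤ Lam)
    (hrank : Module.finrank ℤ Lam = 23) (q : Lam → Lam → ℤ)
    (q_add : ∀ x y z, q (x + y) z = q x z + q y z) (p1 p2 A L : Lam) :
    ∃ b : Fin 19 → Lam, LinearIndependent ℤ b ∧
      ∀ i, q (b i) p1 = 0 ∧ q (b i) p2 = 0 ∧ q (b i) A = 0 ∧ q (b i) L = 0 := by
  classical
  let F : Lam →ₗ[ℤ] (Fin 4 → ℤ) := LinearMap.pi (fun i => qlin q q_add (![p1, p2, A, L] i))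
  have h1 : Module.finrank ℤ (LinearMap.range F) + Module.finrank ℤ (LinearMap.ker F) = 23 := by
    rw [← hrank, ← F.quotKerEquivRange.finrank_eq]
    exact Submodule.finrank_quotient_add_finrank _
  have h2 : Module.finrank ℤ (LinearMap.range F) ≤ 4 := by
    have := Submodule.finrank_le (LinearMap.range F)
    simpa using this
  have h3 : 19 ≤ Module.finrank ℤ (LinearMap.ker F) := by omega
  let bs := Module.finBasis ℤ (LinearMap.ker F)
  refine ⟨fun i => (bs (Fin.castLE h3 i) : Lam), ?_, fun i => ?_⟩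
  · have h4 : LinearIndependent ℤ (fun i : Fin 19 => bs (Fin.castLE h3 i)) :=
      bs.linearIndependent.comp _ (Fin.castLE_injective h3)
    exact h4.map' (LinearMap.ker F).subtype (Submodule.ker_subtype _)
  · have h5 := LinearMap.mem_ker.1 (bs (Fin.castLE h3 i)).2
    refine ⟨?_, ?_, ?_, ?_⟩
    · exact congrFun h5 0
    · exact congrFun h5 1
    · exact congrFun h5 2
    · exact congrFun h5 3

end Pool.Agent.H73.HK
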