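import Pool.Agent.H73.HK.Iface

/-!
# Zero estimate: many translates are components (MP_5ee2d0, hyperkähler fourfolds)

The group `ℤ^r` acts by homeomorphisms on a space `P` with a dimension function (the points of a
variety with the Zariski topology). If all translates of a point with dense orbits by the elements
of a large box belong to a closed subset `Z0`, then the intersection of the translates of `Z0` by the
elements of some smaller box has many irreducible components.
-/

namespace Pool.Agent.H73.HK

open Set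

section

variable {P : Type} [TopologicalSpace P] {r : ℕ} {act : (Fin r → ℤ) → P → P}

omit [TopologicalSpace P] in
theorem act_neg_act (act_zero : ∀ y, act 0 y = y)
    (act_add : ∀ m n y, act (m + n) y = act m (act n y)) (n : Fin r → ℤ) (y : P) :
    act (-n) (act n y) = y := by
  rw [← act_add, neg_add_cancel, act_zero]

omit [TopologicalSpace P] in
theorem act_act_neg (act_zero : ∀ y, act 0 y = y)
    (act_add : ∀ m n y, act (m + n) y = act m (act n y)) (n : Fin r → ℤ) (y : P) :
    act n (act (-n) y) = y := by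
  rw [← act_add, add_neg_cancel, act_zero]

omit [TopologicalSpace P] in
theorem image_eq_preimage (act_zero : ∀ y, act 0 y = y)
    (act_add : ∀ m n y, act (m + n) y = act m (act n y)) (n : Fin r → ℤ) (V : Set P) :
    act n '' V = act (-n) ⁻¹' V := by
  ext y
  constructor
  · rintro ⟨z, hz, rfl⟩
    rw [mem_preimage, act_neg_act act_zero act_add]
    exact hz
  · intro hy
    exact ⟨act (-n) y, hy, act_act_neg act_zero act_add n y⟩

/-- the elements of the box of size `k` -/
noncomputable def box (r k : ℕ) : Finset (Fin r → ℤ) :=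
  Fintype.piFinset fun _ => Finset.Icc (-(k : ℤ)) k

theorem mem_box {k : ℕ} {g : Fin r → ℤ} : g ∈ box r k ↔ ∀ i, |g i| ≤ k := by
  simp [box, Fintype.mem_piFinset, abs_le]

theorem card_box (r k : ℕ) : (box r k).card = (2 * k + 1) ^ r := by
  rw [box, Fintype.card_piFinset]
  simp only [Int.card_Icc, Finset.prod_const, Finset.card_univ, Fintype.card_fin]
  congr 1
  omega

/-- **Zero estimate**, with a bound `d` for the dimensions of proper closed subsets. -/
theorem zero_estimate_dim (act : (Fin r → ℤ) → P → P) (act_zero : ∀ y, act 0 y = y)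
    (act_add : ∀ m n y, act (m + n) y = act m (act n y)) (cont : ∀ n, Continuous (act n))
    (dim : Set P → ℕ)
    (mono : ∀ Z W, IsIrreducible Z → IsClosed Z → IsIrreducible W → IsClosed W → Z ⊆ W → Z ≠ W →
      dim Z < dim W)
    (d : ℕ) (dim_le : ∀ Z, IsIrreducible Z → IsClosed Z → Z ≠ univ → dim Z ≤ d)
    (Z0 : Set P) (hZ0 : IsClosed Z0) (hne : Z0 ≠ univ) (x : P)
    (dense : ∀ n : Fin r → ℤ, n ≠ 0 → Dense (range fun k : ℤ => act (k • n) x)) (R : ℕ)
    (van : ∀ n : Fin r → ℤ, (∀ i, |n i| ≤ (2 * d + 2) * R) → act n x ∈ Z0) :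
    ∃ j : ℕ, 1 ≤ j ∧ j ≤ 2 * d + 1 ∧ ∃ S : Finset (Set P), (2 * R + 1) ^ r ≤ S.card ∧
      ∀ W ∈ S, IsComp {y | ∀ n : Fin r → ℤ, (∀ i, |n i| ≤ j * R) → act n y ∈ Z0} W := by
  classical
  let Z : ℕ → Set P := fun j => {y | ∀ n : Fin r → ℤ, (∀ i, |n i| ≤ (j * R : ℤ)) → act n y ∈ Z0}
  have closed : ∀ j, IsClosed (Z j) := by
    intro j
    have : Z j = ⋂ n : {n : Fin r → ℤ // ∀ i, |n i| ≤ (j * R : ℤ)}, act n ⁻¹' Z0 := by
      ext y; simp [Z]
    rw [this]
    exact isClosed_iInter fun n => hZ0.preimage (cont n)
  have step : ∀ j, ∀ g : Fin r → ℤ, (∀ i, |g i| ≤ (R : ℤ)) → ∀ y ∈ Z (j + 1), act g y ∈ Z j := by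
    intro j g hg y hy n hn
    rw [← act_add]
    refine hy _ fun i => ?_
    have := abs_add_le (n i) (g i)
    have h1 := hn i
    have h2 := hg i
    push_cast
    simp only [Pi.add_apply]
    linarith
  have anti : ∀ j, Z (j + 1) ⊆ Z j := by
    intro j y hy
    have := step j 0 (fun i => by simp) y hy
    rwa [act_zero] at this
  have anti' : Antitone Z := antitone_nat_of_succ_le anti
  have hZ0' : Z 0 ⊆ Z0 := by
    intro y hy
    have := hy 0 (fun i => by simp)
    rwa [act_zero] at this
  have hx : x ∈ Z (2 * d + 2) := by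
    intro n hn
    refine van n fun i => ?_
    have := hn i
    push_cast at this
    exact this
  have le : ∀ V, IsIrreducible V → IsClosed V → V ⊆ Z 0 → dim V ≤ d := by
    intro V h1 h2 h3
    refine dim_le V h1 h2 ?_
    rintro rfl
    exact hne (univ_subset_iff.1 (h3.trans hZ0'))
  have irr : ∀ g V, IsIrreducible V → IsIrreducible (act g '' V) := fun g V h =>
    h.image _ (cont g).continuousOn
  have clo : ∀ g V, IsClosed V → IsClosed (act g '' V) := by
    intro g V h
    rw [image_eq_preimage act_zero act_add]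
    exact h.preimage (cont _)
  -- the dimension of `Z j` at `x`
  let Q : ℕ → ℕ → Prop := fun j e => ∃ V, IsIrreducible V ∧ IsClosed V ∧ V ⊆ Z j ∧ x ∈ V ∧ e ≤ dim V
  let D : ℕ → ℕ := fun j => Nat.findGreatest (Q j) d
  have hQ0 : ∀ j, j ≤ 2 * d + 2 → Q j 0 := by
    intro j hj
    refine ⟨closure {x}, isIrreducible_singleton.closure, isClosed_closure, ?_,
      subset_closure rfl, Nat.zero_le _⟩
    exact (closed j).closure_subset_iff.2 (singleton_subset_iff.2 (anti' hj hx))
  have hD : ∀ j, j ≤ 2 * d + 2 → Q j (D j) := fun j hj =>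
    Nat.findGreatest_spec (m := 0) (Nat.zero_le _) (hQ0 j hj)
  have hDle : ∀ j V, IsIrreducible V → IsClosed V → V ⊆ Z j → x ∈ V → dim V ≤ D j := by
    intro j V h1 h2 h3 h4
    exact Nat.le_findGreatest (le V h1 h2 (h3.trans (anti' (Nat.zero_le j))))
      ⟨V, h1, h2, h3, h4, le_rfl⟩
  have hDanti : ∀ j, j < 2 * d + 2 → D (j + 1) ≤ D j := by
    intro j hj
    obtain ⟨V, h1, h2, h3, h4, h5⟩ := hD (j + 1) hj
    exact h5.trans (hDle j V h1 h2 (h3.trans (anti j)) h4)
  have hDn : D 0 ≤ d := Nat.findGreatest_le d
  -- pigeonhole principle: three consecutive values are equal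
  have key : ∃ j, j + 1 ≤ 2 * d + 1 ∧ D j = D (j + 2) := by
    by_contra hcon
    push Not at hcon
    have : ∀ i, i ≤ d + 1 → D (2 * i) + i ≤ d := by
      intro i
      induction i with
      | zero => intro _; simpa using hDn
      | succ i ih =>
        intro hi
        have h1 := ih (by omega)
        have h2 := hcon (2 * i) (by omega)
        have h3 := hDanti (2 * i) (by omega)
        have h4 := hDanti (2 * i + 1) (by omega)
        have h5 : 2 * (i + 1) = 2 * i + 1 + 1 := by ring
        rw [h5]
        have h6 : D (2 * i + 1 + 1) ≠ D (2 * i) := fun h => h2 h.symm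
        omega
    have := this (d + 1) le_rfl
    omega
  obtain ⟨j, hj, hjD⟩ := key
  obtain ⟨V, h1, h2, h3, h4, h5⟩ := hD (j + 2) (by omega)
  have inj : InjOn (fun g => act g '' V) (box r R : Set (Fin r → ℤ)) := by
    intro g _ g' _ h
    by_contra hne'
    have hn : g' - g ≠ 0 := fun h' => hne' (sub_eq_zero.1 h').symm
    have hV : act (g' - g) '' V = V := by
      have h' : act g '' V = act g' '' V := h
      have h6 : act (-g) '' (act g' '' V) = act (g' - g) '' V := by
        rw [← image_comp]
        refine image_congr fun y _ => ?_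
        rw [Function.comp_apply, ← act_add, sub_eq_neg_add]
      rw [← h6, ← h', ← image_comp]
      have : act (-g) ∘ act g = id := funext fun y => act_neg_act act_zero act_add g y
      rw [this, image_id]
    have hk : ∀ k : ℤ, act (k • (g' - g)) x ∈ V := by
      have hpre : ∀ y, act (g' - g) y ∈ V ↔ y ∈ V := by
        intro y
        constructor
        · intro hy
          rw [← hV] at hy
          obtain ⟨z, hz, hzy⟩ := hy
          have := congrArg (act (-(g' - g))) hzy
          rw [act_neg_act act_zero act_add, act_neg_act act_zero act_add] at this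
          rwa [← this]
        · intro hy
          rw [← hV]
          exact ⟨y, hy, rfl⟩
      intro k
      induction k using Int.induction_on with
      | zero => rwa [zero_smul, act_zero]
      | succ k ih =>
        have : ((k : ℤ) + 1) • (g' - g) = (g' - g) + (k : ℤ) • (g' - g) := by
          rw [add_smul, one_smul, add_comm]
        rw [this, act_add]
        exact (hpre _).2 ih
      | pred k ih =>
        have : (-(k : ℤ)) • (g' - g) = (g' - g) + (-(k : ℤ) - 1) • (g' - g) := by
          rw [sub_smul, one_smul]; abel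
        rw [this, act_add] at ih
        exact (hpre _).1 ih
    have hcl := (dense _ hn).closure_eq
    have : univ ⊆ V := by
      rw [← hcl]
      exact h2.closure_subset_iff.2 (range_subset_iff.2 hk)
    exact hne (univ_subset_iff.1 (this.trans (h3.trans ((anti' (Nat.zero_le _)).trans hZ0'))))
  refine ⟨j + 1, by omega, hj, (box r R).image fun g => act g '' V, ?_, ?_⟩
  · rw [Finset.card_image_of_injOn inj, card_box]
  · intro W hW
    obtain ⟨g, hg, rfl⟩ := Finset.mem_image.1 hW
    have hg' : ∀ i, |g i| ≤ (R : ℤ) := mem_box.1 hg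
    have hg'' : ∀ i, |(-g) i| ≤ (R : ℤ) := fun i => by simpa using hg' i
    refine ⟨irr g V h1, ?_, ?_⟩
    · rintro _ ⟨y, hy, rfl⟩
      exact step (j + 1) g hg' y (h3 hy)
    · intro W' hW' hWZ hVW
      -- the closure of `W'`
      have hc : closure W' ⊆ Z (j + 1) := (closed (j + 1)).closure_subset_iff.2 hWZ
      have hsub : V ⊆ act (-g) '' closure W' := by
        intro y hy
        exact ⟨act g y, subset_closure (hVW ⟨y, hy, rfl⟩), act_neg_act act_zero act_add g y⟩
      have hZj : act (-g) '' closure W' ⊆ Z j := by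
        rintro _ ⟨y, hy, rfl⟩
        exact step j (-g) hg'' y (hc hy)
      have hdim : dim (act (-g) '' closure W') ≤ dim V := by
        have := hDle j _ (irr _ _ hW'.closure) (clo _ _ isClosed_closure) hZj (hsub h4)
        rw [hjD] at this
        exact this.trans h5
      have heq : V = act (-g) '' closure W' := by
        by_contra hne'
        exact absurd (mono _ _ h1 h2 (irr _ _ hW'.closure) (clo _ _ isClosed_closure) hsub hne')
          (not_lt.2 hdim)
      refine Subset.antisymm ?_ hVW
      intro y hy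
      have : act (-g) y ∈ V := by
        rw [heq]
        exact ⟨y, subset_closure hy, rfl⟩
      exact ⟨_, this, act_act_neg act_zero act_add g y⟩

/-- **Zero estimate** in dimension four. -/
theorem zero_estimate (act : (Fin r → ℤ) → P → P) (act_zero : ∀ y, act 0 y = y)
    (act_add : ∀ m n y, act (m + n) y = act m (act n y)) (cont : ∀ n, Continuous (act n))
    (dim : Set P → ℕ)
    (mono : ∀ Z W, IsIrreducible Z → IsClosed Z → IsIrreducible W → IsClosed W → Z ⊆ W → Z ≠ W →
      dim Z < dim W)
    (dim_le : ∀ Z, IsIrreducible Z → IsClosed Z → Z ≠ univ → dim Z ≤ 3)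
    (Z0 : Set P) (hZ0 : IsClosed Z0) (hne : Z0 ≠ univ) (x : P)
    (dense : ∀ n : Fin r → ℤ, n ≠ 0 → Dense (range fun k : ℤ => act (k • n) x)) (R : ℕ)
    (van : ∀ n : Fin r → ℤ, (∀ i, |n i| ≤ 8 * R) → act n x ∈ Z0) :
    ∃ j : ℕ, 1 ≤ j ∧ j ≤ 7 ∧ ∃ S : Finset (Set P), (2 * R + 1) ^ r ≤ S.card ∧
      ∀ W ∈ S, IsComp {y | ∀ n : Fin r → ℤ, (∀ i, |n i| ≤ j * R) → act n y ∈ Z0} W :=
  zero_estimate_dim act act_zero act_add cont dim mono 3 dim_le Z0 hZ0 hne x dense R
    fun n hn => van n fun i => by
      have := hn i
      push_cast at this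
      linarith

end

end Pool.Agent.H73.HK
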