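import Pool.Agent.H73.HK.Para
import Pool.Agent.H73.HK.ZE

/-!
# Zero estimate for sections (MP_5ee2d0, hyperkähler fourfolds)

A non zero section `s` of `E` does not vanish at all the points `n.x`, `|n| ≤ 8R`, of a point `x`
with dense orbits, if the class `B` dominates all the translates of `E` by the elements with
`|n| ≤ 7R` and `B^4` is smaller than the number of elements with `|n| ≤ R`.
-/

namespace Pool.Agent.H73.HK

open Set

variable {Lam : Type} [AddCommGroup Lam] {q : Lam → Lam → ℤ} {M : Manifold Lam q} {L A : Lam}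
  {r : ℕ}

theorem nonvanish (π : Para M L A r) (hA : A ∈ M.VeryAmple) {E B : Lam} (R : ℕ) (x : M.P)
    (dense : ∀ n : Fin r → ℤ, n ≠ 0 → Dense (range fun k : ℤ => π.rho (k • n) • x))
    (hB : ∀ n : Fin r → ℤ, (∀ i, |n i| ≤ 7 * (R : ℤ)) →
      B - M.pull (π.rho n) E - 5 • A ∈ M.Nef)
    (hB5 : B - 5 • A ∈ M.Nef)
    (hcard : M.bez * (q B B : ℝ) ^ 2 < (2 * (R : ℝ) + 1) ^ r)
    (s : M.P → ℂ) (hs : s ∈ M.Sec E) (hne : ∃ y, s y ≠ 0) :
    ∃ n : Fin r → ℤ, (∀ i, |n i| ≤ 8 * (R : ℤ)) ∧ s (π.rho n • x) ≠ 0 := by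
  by_contra hcon
  push Not at hcon
  obtain ⟨j, _, hj, S, hScard, hS⟩ := zero_estimate (fun n (y : M.P) => π.rho n • y)
    (fun y => by
      change π.rho 0 • y = y
      rw [π.rho_zero, one_smul])
    (fun m n y => by
      change π.rho (m + n) • y = π.rho m • π.rho n • y
      rw [π.rho_add, mul_smul])
    (fun n => M.aut_cont (π.rho n)) M.dim
    (fun Z W h1 h2 h3 h4 h5 h6 => M.dim_mono Z W h2 h1 h4 h3 h5 h6)
    (fun Z h1 h2 h3 => M.dim_le Z h2 h1 h3)
    {y | s y = 0} (M.zero_closed E s hs)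
    (fun h => by
      obtain ⟨y, hy⟩ := hne
      have : y ∈ {y | s y = 0} := h ▸ mem_univ y
      exact hy this)
    x dense R (fun n hn => hcon n hn)
  -- the translates of `s`
  have hu : ∀ n : Fin r → ℤ, ∃ v ∈ M.Sec (M.pull (π.rho n) E),
      ∀ y, v y = 0 ↔ s (π.rho n • y) = 0 := by
    intro n
    obtain ⟨u, hu0, hu⟩ := M.pull_sec (π.rho n) E
    refine ⟨fun y => u y * s (π.rho n • y), (hu _).2 ⟨s, hs, fun y => rfl⟩, fun y => ?_⟩
    simp [hu0 y]
  choose v hv hv0 using hu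
  let T : Set (M.P → ℂ) := {w | ∃ n : Fin r → ℤ, (∀ i, |n i| ≤ (j : ℤ) * R) ∧
    ∃ t ∈ M.Sec (B - M.pull (π.rho n) E), w = v n * t}
  have hT : T ⊆ (M.Sec B : Set (M.P → ℂ)) := by
    rintro w ⟨n, _, t, ht, rfl⟩
    have := M.sec_mul _ _ _ (hv n) _ ht
    rwa [add_sub_cancel] at this
  have h7 : ∀ n : Fin r → ℤ, (∀ i, |n i| ≤ (j : ℤ) * R) → ∀ i, |n i| ≤ 7 * (R : ℤ) := by
    intro n hn i
    refine (hn i).trans ?_
    have h1 : (j : ℤ) ≤ 7 := by exact_mod_cast hj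
    exact mul_le_mul_of_nonneg_right h1 (by positivity)
  have hZ : {y : M.P | ∀ n : Fin r → ℤ, (∀ i, |n i| ≤ (j : ℤ) * R) →
      π.rho n • y ∈ {y | s y = 0}} = {y | ∀ w ∈ T, w y = 0} := by
    ext y
    constructor
    · rintro hy w ⟨n, hn, t, _, rfl⟩
      have := (hv0 n y).2 (hy n hn)
      simp [this]
    · intro hy n hn
      obtain ⟨t, ht, hty⟩ := M.generated A hA (B - M.pull (π.rho n) E) (hB n (h7 n hn)) y
      have h1 := hy (v n * t) ⟨n, hn, t, ht, rfl⟩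
      rw [Pi.mul_apply, mul_eq_zero] at h1
      exact (hv0 n y).1 (h1.resolve_right hty)
  have h8 := M.bezout A hA B hB5 T hT S (fun W hW => by
    have := hS W hW
    rwa [hZ] at this)
  have h9 : ((2 * (R : ℝ) + 1) ^ r : ℝ) ≤ S.card := by exact_mod_cast hScard
  exact absurd (h9.trans h8) (not_le.2 hcard)

end Pool.Agent.H73.HK
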