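import Mathlib

/-!
# Module RK: a non zero minor of evaluation
-/

namespace Pool.Agent.H73.HK

open scoped BigOperators

/-- If no non trivial combination of the functions `g j` vanishes on `S`, there are `N` points of
`S` at which the matrix of values has a non zero determinant. -/
theorem exists_minor {P : Type*} {N : ℕ} (g : Fin N → P → ℂ) (S : Set P)
    (h : ∀ c : Fin N → ℂ, c ≠ 0 → ∃ s ∈ S, ∑ j, c j * g j s ≠ 0) :
    ∃ s : Fin N → P, (∀ i, s i ∈ S) ∧ Matrix.det (Matrix.of fun i j => g j (s i)) ≠ 0 := by
  classical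
  set T : Set (Fin N → ℂ) := (fun s : P => fun j => g j s) '' S with hT
  have hspan : Submodule.span ℂ T = ⊤ := by
    by_contra hne
    have hlt : Submodule.span ℂ T < ⊤ := lt_top_iff_ne_top.mpr hne
    obtain ⟨φ, hφ0, hφ⟩ := Submodule.exists_le_ker_of_lt_top (Submodule.span ℂ T) hlt
    have hval : ∀ v : Fin N → ℂ, φ v = ∑ j, φ (Pi.single j 1) * v j := by
      intro v
      have h1 : v = ∑ j, v j • (Pi.single j (1 : ℂ) : Fin N → ℂ) := by
        funext k
        rw [Finset.sum_apply]
        simp [Pi.single_apply]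
      conv_lhs => rw [h1]
      rw [map_sum]
      apply Finset.sum_congr rfl
      intro j _
      rw [map_smul, smul_eq_mul, mul_comm]
    have hc : (fun j => φ (Pi.single j 1)) ≠ (0 : Fin N → ℂ) := by
      intro h0
      apply hφ0
      ext v
      have : ∀ j, φ (Pi.single j 1) = 0 := fun j => congrFun h0 j
      simp [this]
    obtain ⟨s, hs, hne2⟩ := h _ hc
    apply hne2
    rw [← hval (fun j => g j s)]
    exact hφ (Submodule.subset_span ⟨s, hs, rfl⟩)
  obtain ⟨b, hbT, hbspan, hli⟩ := exists_linearIndependent ℂ T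
  rw [hspan] at hbspan
  have hbas : Submodule.span ℂ (Set.range (Subtype.val : b → (Fin N → ℂ))) = ⊤ := by
    rw [Subtype.range_coe_subtype]
    exact hbspan
  let B : Module.Basis b ℂ (Fin N → ℂ) := Module.Basis.mk hli (le_of_eq hbas.symm)
  have : Finite b := Module.Finite.finite_basis B
  letI : Fintype b := Fintype.ofFinite b
  have hcard : Fintype.card b = N := by
    have h1 := Module.finrank_eq_card_basis B
    rw [Module.finrank_fin_fun] at h1
    exact h1.symm
  let e : Fin N ≃ b := (Fintype.equivFinOfCardEq hcard).symm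
  have hch : ∀ i, ∃ s, s ∈ S ∧ (fun j => g j s) = ((e i : b) : Fin N → ℂ) := by
    intro i
    obtain ⟨s, hs, hs2⟩ := hbT (e i).2
    exact ⟨s, hs, hs2⟩
  choose s hs hs2 using hch
  refine ⟨s, hs, ?_⟩
  have hrows : LinearIndependent ℂ (Matrix.of fun i j => g j (s i)).row := by
    have h1 : (Matrix.of fun i j => g j (s i)).row = fun i => ((e i : b) : Fin N → ℂ) := by
      funext i
      exact hs2 i
    rw [h1]
    exact hli.comp e e.injective
  have h2 := Matrix.linearIndependent_rows_iff_isUnit.mp hrows
  have h3 := (Matrix.isUnit_iff_isUnit_det _).mp h2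
  exact h3.ne_zero

end Pool.Agent.H73.HK
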