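import Pool.Agent.H73.HK.GenPara
import Pool.Agent.H73.HK.NV
import Pool.Agent.H73.HK.RK

/-!
# A non zero minor of products of translates of coordinates
-/

namespace Pool.Agent.H73.HK

open scoped BigOperators
open Submodule

variable {Lam : Type} [AddCommGroup Lam] {q : Lam → Lam → ℤ} {M : Manifold Lam q} {L A : Lam}
  {r : ℕ}

/-- If the matrix of values of functions `s j` is invertible and each `s j` is, up to a non
vanishing factor `u`, a combination of the functions `m J`, then some minor of the matrix of values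
of the `m J` is not zero. -/
theorem columns {P X : Type*} [Fintype X] {N : ℕ} (s : Fin N → P → ℂ) (u : P → ℂ)
    (hu : ∀ y, u y ≠ 0) (m : X → P → ℂ) (c : Fin N → X → ℂ)
    (hs : ∀ j y, s j y = u y * ∑ J, c j J * m J y) (y : Fin N → P)
    (hdet : Matrix.det (Matrix.of fun i j => s j (y i)) ≠ 0) :
    ∃ J : Fin N → X, Matrix.det (Matrix.of fun i j => m (J j) (y i)) ≠ 0 := by
  classical
  obtain ⟨J, -, hJ⟩ := exists_minor (fun (i : Fin N) (J : X) => m J (y i)) Set.univ (by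
    intro d hd
    by_contra hcon
    push Not at hcon
    have h1 : Matrix.vecMul (fun i => d i * (u (y i))⁻¹) (Matrix.of fun i j => s j (y i)) = 0 := by
      funext j
      simp only [Matrix.vecMul, dotProduct, Matrix.of_apply, Pi.zero_apply]
      have h2 : ∀ i, d i * (u (y i))⁻¹ * s j (y i) = ∑ J, c j J * (d i * m J (y i)) := by
        intro i
        rw [hs j (y i), Finset.mul_sum, Finset.mul_sum]
        refine Finset.sum_congr rfl fun J _ => ?_
        have := hu (y i)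
        field_simp
      rw [Finset.sum_congr rfl fun i _ => h2 i, Finset.sum_comm]
      refine Finset.sum_eq_zero fun J _ => ?_
      rw [← Finset.mul_sum, hcon J (Set.mem_univ _), mul_zero]
    have h3 := Matrix.eq_zero_of_vecMul_eq_zero hdet h1
    apply hd
    funext i
    have h4 := congrFun h3 i
    rw [Pi.zero_apply, mul_eq_zero] at h4
    exact h4.resolve_right (inv_ne_zero (hu (y i))))
  refine ⟨J, ?_⟩
  rw [← Matrix.det_transpose] at hJ
  exact hJ

/-- the minor, from the generation of the sections of `E` by products and the zero estimate -/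
theorem minor_aux {l : ℕ} (π : Para M L A r) (hA : A ∈ M.VeryAmple) {k : ℕ}
    (a : Fin (k + 1) → M.P → ℂ) (nu : Fin l → (Fin r → ℤ)) (R : ℕ) (x : M.P)
    (dense : ∀ n : Fin r → ℤ, n ≠ 0 → Dense (Set.range fun k : ℤ => π.rho (k • n) • x))
    (E B : Lam) (u : M.P → ℂ) (hu : ∀ y, u y ≠ 0)
    (hgen : ∀ s ∈ M.Sec E, ∃ c : (Fin l → Fin (k + 1)) → ℂ, ∀ y, s y =
        u y * ∑ J, c J * ∏ i, a (J i) (π.rho (nu i) • y))
    (hB : ∀ n : Fin r → ℤ, (∀ i, |n i| ≤ 7 * (R : ℤ)) →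
      B - M.pull (π.rho n) E - 5 • A ∈ M.Nef) (hB5 : B - 5 • A ∈ M.Nef)
    (hcard : M.bez * (q B B : ℝ) ^ 2 < (2 * (R : ℝ) + 1) ^ r) {N : ℕ}
    (b : Fin N → M.Sec E) (hb : LinearIndependent ℂ b) :
    ∃ (n : Fin N → (Fin r → ℤ)) (J : Fin N → Fin l → Fin (k + 1)),
      (∀ i j, |n i j| ≤ 8 * (R : ℤ)) ∧
      Matrix.det (Matrix.of fun i j => ∏ s, a (J j s) (π.rho (nu s + n i) • x)) ≠ 0 := by
  obtain ⟨p, hp, hdet⟩ := exists_minor (fun j => (b j : M.P → ℂ))
    {y | ∃ n : Fin r → ℤ, (∀ i, |n i| ≤ 8 * (R : ℤ)) ∧ y = π.rho n • x} (by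
      intro c hc
      have h1 : ∑ j, c j • b j ≠ 0 := by
        intro h0
        apply hc
        funext j
        exact Fintype.linearIndependent_iff.1 hb c h0 j
      have h2 : ((∑ j, c j • b j : M.Sec E) : M.P → ℂ) ≠ 0 := by
        intro h0
        exact h1 (Subtype.ext h0)
      obtain ⟨y, hy⟩ := Function.ne_iff.1 h2
      obtain ⟨n, hn, hs⟩ := nonvanish π hA R x dense hB hB5 hcard
        ((∑ j, c j • b j : M.Sec E) : M.P → ℂ) (Subtype.prop _) ⟨y, hy⟩
      refine ⟨_, ⟨n, hn, rfl⟩, ?_⟩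
      simpa using hs)
  choose n hn hpn using hp
  choose c hc using fun j => hgen (b j : M.P → ℂ) (b j).2
  obtain ⟨J, hJ⟩ := columns (fun j => (b j : M.P → ℂ)) u hu
    (fun (J : Fin l → Fin (k + 1)) (y : M.P) => ∏ i, a (J i) (π.rho (nu i) • y)) c hc p hdet
  refine ⟨n, J, hn, ?_⟩
  have h1 : (Matrix.of fun i j => ∏ s, a (J j s) (π.rho (nu s + n i) • x)) =
      (Matrix.of fun i j => ∏ s, a (J j s) (π.rho (nu s) • p i)) := by
    ext i j
    rw [Matrix.of_apply, Matrix.of_apply]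
    refine Finset.prod_congr rfl fun s _ => ?_
    rw [hpn i, π.rho_add, mul_smul]
  rw [h1]
  exact hJ

theorem zsmul_nef (M : Manifold Lam q) (k : ℤ) (z : Lam) (hk : 0 ≤ k) (hz : z ∈ M.Nef) :
    k • z ∈ M.Nef := by
  obtain ⟨j, rfl⟩ := Int.eq_ofNat_of_zero_le hk
  rw [natCast_zsmul]
  clear hk
  induction j with
  | zero => simpa using M.nef_zero
  | succ k ih => rw [succ_nsmul]; exact M.nef_add _ ih _ hz

theorem minor (hadd : ∀ x y z, q (x + y) z = q x z + q y z)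
    (hsymm : ∀ x y, q x y = q y x) (π : Para M L A r) (hA : A ∈ M.VeryAmple) (hL : L ∈ M.Nef)
    (hLL : q L L = 0) (hLA : 0 ≤ q L A) {k : ℕ}
    (a : Fin (k + 1) → M.P → ℂ) (hspan : span ℂ (Set.range a) = M.Sec A)
    (e : Fin r → ℤ) (C : ℕ) (hC : 5 ≤ C)
    (hC' : (C : ℤ) • A - (5 : ℤ) • ((2 : ℤ) • A + (2 * c0 π e) • L) ∈ M.Nef) (K m R : ℕ)
    (hy : 0 ≤ yE (c0 π e) K m) (x : M.P)
    (dense : ∀ n : Fin r → ℤ, n ≠ 0 → Dense (Set.range fun k : ℤ => π.rho (k • n) • x))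
    (B : Lam) (hB : B = (2 * xE C K m + 5) • A + (yE (c0 π e) K m +
      4 * xE C K m * (cb q π.b * (7 * (R : ℤ)) ^ 2) * q L A) • L)
    (hcard : M.bez * (q B B : ℝ) ^ 2 < (2 * (R : ℝ) + 1) ^ r)
    (N : ℕ) (hN : N = Module.finrank ℂ (M.Sec (xE C K m • A + yE (c0 π e) K m • L))) :
    ∃ (n : Fin N → (Fin r → ℤ)) (J : Fin N → Fin (lstAll e C K m).length → Fin (k + 1)),
      (∀ i j, |n i j| ≤ 8 * (R : ℤ)) ∧
      Matrix.det (Matrix.of fun i j => ∏ s, a (J j s)
        (π.rho ((lstAll e C K m).get s + n i) • x)) ≠ 0 := by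
  subst hN
  obtain ⟨E, hE⟩ : ∃ E, E = xE C K m • A + yE (c0 π e) K m • L := ⟨_, rfl⟩
  have hfin : Module.Finite ℂ (M.Sec E) := M.sec_fin E
  obtain ⟨u, hu, hgen⟩ := generation_para hadd hsymm π hA a hspan e C hC hC' K m
  rw [← hE] at hgen ⊢
  have hx : 0 ≤ xE C K m := by
    unfold xE
    positivity
  have hB' : ∀ n : Fin r → ℤ, (∀ i, |n i| ≤ 7 * (R : ℤ)) →
      B - M.pull (π.rho n) E - 5 • A ∈ M.Nef := by
    intro n hn
    rw [hB, hE]
    exact dominates hadd hsymm π (M.va_ample hA) hL hLL hLA _ _ _ hx n hn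
  have hB5 : B - 5 • A ∈ M.Nef := by
    have h1 := hB' 0 (fun i => by simp)
    rw [pull_zero] at h1
    have h2 : E ∈ M.Nef := by
      rw [hE]
      exact M.nef_add _ (zsmul_nef M _ _ hx (M.ample_nef (M.va_ample hA))) _
        (zsmul_nef M _ _ hy hL)
    have h3 := M.nef_add _ h1 _ h2
    have h4 : B - E - 5 • A + E = B - 5 • A := by abel
    rwa [h4] at h3
  exact minor_aux π hA a (fun s => (lstAll e C K m).get s) R x dense E B u hu hgen hB' hB5 hcard
    (fun j => Module.finBasis ℂ (M.Sec E) j) (Module.finBasis ℂ (M.Sec E)).linearIndependent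

end Pool.Agent.H73.HK
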