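import Mathlib

/-! The final inequality of the interpolation argument: with `R = 2 ^ K`, `R ^ 5` of the order of
`m ^ 4` and `N` of the order of `m ^ 4 R ^ 4`, the lower bound `log p * D * N / 2`, `D` of the order
of `√N`, is larger than `N` times the height `m (R ^ 3 + R ^ 2 (1 + log m)) + log N`. -/

namespace Pool.Agent.H73.HK

open Filter Topology

private lemma ev_log (ε A B : ℝ) (hε : 0 < ε) :
    ∀ᶠ m : ℕ in atTop, A * (1 + Real.log m) + B ≤ ε * m := by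
  have h1 : (fun x : ℝ => A * (1 + Real.log x) + B) =o[atTop] (id : ℝ → ℝ) := by
    have h2 : (fun x : ℝ => Real.log x) =o[atTop] (id : ℝ → ℝ) := Real.isLittleO_log_id_atTop
    have h3 : (fun _ : ℝ => A + B) =o[atTop] (id : ℝ → ℝ) :=
      Asymptotics.isLittleO_const_id_atTop (A + B)
    have h4 := (h2.const_mul_left A).add h3
    refine h4.congr_left fun x => ?_
    ring
  have h5 := h1.bound hε
  have h6 : Tendsto (fun m : ℕ => (m : ℝ)) atTop atTop := tendsto_natCast_atTop_atTop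
  filter_upwards [h6.eventually h5] with m hm
  have h7 : ‖(id (m : ℝ) : ℝ)‖ = m := by
    rw [id, Real.norm_eq_abs, abs_of_nonneg (Nat.cast_nonneg m)]
  rw [h7] at hm
  exact (Real.le_norm_self _).trans hm

private lemma R_le (A δ x R : ℝ) (hδ : 0 < δ) (hx : 0 < x) (h : R ^ 5 < A * x ^ 4)
    (hA : A < x * δ ^ 5) : R ≤ δ * x := by
  by_contra hcon
  push Not at hcon
  have h1 : (δ * x) ^ 5 < R ^ 5 := pow_lt_pow_left₀ hcon (by positivity) (by norm_num)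
  have h3 : (δ * x) ^ 5 = (x * δ ^ 5) * x ^ 4 := by ring
  rw [h3] at h1
  have h4 : A * x ^ 4 < (x * δ ^ 5) * x ^ 4 := mul_lt_mul_of_pos_right hA (by positivity)
  linarith

private lemma term1 (C ε x R y : ℝ) (hx : 0 < x) (hR : 0 < R) (hy : 0 ≤ y)
    (h : |C| * y ≤ ε * x) : C * x * (R ^ 2 * y) ≤ ε * (x ^ 2 * R ^ 2) := by
  have h4 : C * (x * (R ^ 2 * y)) ≤ |C| * (x * (R ^ 2 * y)) :=
    mul_le_mul_of_nonneg_right (le_abs_self C) (by positivity)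
  calc C * x * (R ^ 2 * y) = C * (x * (R ^ 2 * y)) := by ring
    _ ≤ |C| * (x * (R ^ 2 * y)) := h4
    _ = (|C| * y) * (x * R ^ 2) := by ring
    _ ≤ (ε * x) * (x * R ^ 2) := mul_le_mul_of_nonneg_right h (by positivity)
    _ = ε * (x ^ 2 * R ^ 2) := by ring

private lemma logN (C x R N : ℝ) (hx : 1 ≤ x) (hR : 0 < R) (hRx : R ≤ x) (hN : 1 ≤ N)
    (h : N ≤ C * x ^ 4 * R ^ 4) : |Real.log N| ≤ |Real.log (|C| + 1)| + 8 * Real.log x := by
  have hx0 : 0 < x := by linarith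
  have hC : 0 < |C| + 1 := by positivity
  have h1 : N ≤ (|C| + 1) * x ^ 8 := by
    have hp : 0 ≤ x ^ 4 * R ^ 4 := by positivity
    have h2 : C * (x ^ 4 * R ^ 4) ≤ (|C| + 1) * (x ^ 4 * R ^ 4) :=
      mul_le_mul_of_nonneg_right (by linarith [le_abs_self C]) hp
    have h3 : R ^ 4 ≤ x ^ 4 := pow_le_pow_left₀ hR.le hRx 4
    have h4 : x ^ 4 * R ^ 4 ≤ x ^ 4 * x ^ 4 := mul_le_mul_of_nonneg_left h3 (by positivity)
    calc N ≤ C * (x ^ 4 * R ^ 4) := by linarith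
      _ ≤ (|C| + 1) * (x ^ 4 * R ^ 4) := h2
      _ ≤ (|C| + 1) * (x ^ 4 * x ^ 4) := mul_le_mul_of_nonneg_left h4 hC.le
      _ = (|C| + 1) * x ^ 8 := by ring
  rw [abs_of_nonneg (Real.log_nonneg hN)]
  have h5 : Real.log N ≤ Real.log ((|C| + 1) * x ^ 8) := Real.log_le_log (by linarith) h1
  rw [Real.log_mul hC.ne' (by positivity), Real.log_pow] at h5
  have h6 := le_abs_self (Real.log (|C| + 1))
  push_cast at h5
  linarith

private lemma term3 (C d lp ε x R N : ℝ) (hε : 0 < ε) (hx : 1 ≤ x) (hR : 1 ≤ R) (hRx : R ≤ x)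
    (hN : 1 ≤ N) (h : N ≤ C * x ^ 4 * R ^ 4)
    (hf : 8 * |d| * (1 + Real.log x) + (|d| * |Real.log (|C| + 1)| + 2 * lp) ≤ ε * x) :
    d * Real.log N + 2 * lp ≤ ε * (x ^ 2 * R ^ 2) := by
  have h0 := logN C x R N hx (by linarith) hRx hN h
  have h1 : d * Real.log N ≤ |d| * |Real.log N| := by
    rw [← abs_mul]; exact le_abs_self _
  have hd := abs_nonneg d
  have h2 : |d| * |Real.log N| ≤ |d| * (|Real.log (|C| + 1)| + 8 * Real.log x) :=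
    mul_le_mul_of_nonneg_left h0 hd
  have h3 : ε * x ≤ ε * (x ^ 2 * R ^ 2) := by
    apply mul_le_mul_of_nonneg_left _ hε.le
    have hR2 : 1 ≤ R ^ 2 := one_le_pow₀ hR
    calc x = x * 1 := (mul_one x).symm
      _ ≤ x * x := mul_le_mul_of_nonneg_left hx (by linarith)
      _ = x ^ 2 * 1 := by ring
      _ ≤ x ^ 2 * R ^ 2 := mul_le_mul_of_nonneg_left hR2 (by positivity)
  have h4 : |d| * (|Real.log (|C| + 1)| + 8 * Real.log x) =
    8 * |d| * (1 + Real.log x) + |d| * |Real.log (|C| + 1)| - 8 * |d| := by ring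
  linarith

private lemma D_gt (c x R N D : ℝ) (hc : 0 < c) (hD0 : 0 ≤ D)
    (hN : c * x ^ 4 * R ^ 4 ≤ N) (hD : N < (D + 1) * (D + 2)) :
    Real.sqrt c * x ^ 2 * R ^ 2 < D + 2 := by
  have h2 : (Real.sqrt c * x ^ 2 * R ^ 2) ^ 2 < (D + 2) ^ 2 := by
    have h3 : (Real.sqrt c * x ^ 2 * R ^ 2) ^ 2 = c * x ^ 4 * R ^ 4 := by
      rw [mul_pow, mul_pow, Real.sq_sqrt hc.le]; ring
    have h4 : (D + 1) * (D + 2) ≤ (D + 2) ^ 2 := by nlinarith
    rw [h3]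
    linarith
  exact lt_of_pow_lt_pow_left₀ 2 (by linarith) h2

theorem num (lp C5 c6 C6 C7 d : ℝ) (hlp : 0 < lp) (h5 : 0 < C5) (h6 : 0 < c6) :
    ∃ m0 : ℕ, ∀ m : ℕ, m0 ≤ m → ∀ K N D : ℕ, (32 : ℝ) ^ K < 32 * C5 * (m : ℝ) ^ 4 + 1 →
      c6 * (m : ℝ) ^ 4 * ((2 : ℝ) ^ K) ^ 4 ≤ N → (N : ℝ) ≤ C6 * (m : ℝ) ^ 4 * ((2 : ℝ) ^ K) ^ 4 →
      N < (D + 1) * (D + 2) →
      (N : ℝ) * (C7 * m * (((2 : ℝ) ^ K) ^ 3 + ((2 : ℝ) ^ K) ^ 2 * (1 + Real.log m)) +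
        d * Real.log N) < lp * D * ((N : ℝ) / 2) := by
  obtain ⟨ε, hε⟩ : ∃ ε : ℝ, ε = lp * Real.sqrt c6 / 16 := ⟨_, rfl⟩
  have hs : 0 < Real.sqrt c6 := Real.sqrt_pos.2 h6
  have hεp : 0 < ε := by rw [hε]; positivity
  obtain ⟨δ, hδ⟩ : ∃ δ : ℝ, δ = ε / (|C7| + 1) := ⟨_, rfl⟩
  have hC7 : 0 < |C7| + 1 := by positivity
  have hδp : 0 < δ := by rw [hδ]; positivity
  -- the conditions on `m`
  have e1 : ∀ᶠ m : ℕ in atTop, (32 * C5 + 1) / δ ^ 5 < m :=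
    (tendsto_natCast_atTop_atTop (R := ℝ)).eventually_gt_atTop _
  have e2 := ev_log ε |C7| 0 hεp
  have e3 : ∀ᶠ m : ℕ in atTop, (32 * C5 + 1) < (m : ℝ) :=
    (tendsto_natCast_atTop_atTop (R := ℝ)).eventually_gt_atTop _
  have e4 := ev_log ε (8 * |d|) (|d| * |Real.log (|C6| + 1)| + 2 * lp) hεp
  have e5 : ∀ᶠ m : ℕ in atTop, (1 : ℝ) ≤ (m : ℝ) :=
    (tendsto_natCast_atTop_atTop (R := ℝ)).eventually_ge_atTop _
  obtain ⟨m0, hm0⟩ := eventually_atTop.1 (e1.and (e2.and (e3.and (e4.and e5))))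
  refine ⟨m0, fun m hm K N D hK hN1 hN2 hD => ?_⟩
  obtain ⟨f1, f2, f3, f4, f5⟩ := hm0 m hm
  have hK' : (32 : ℝ) ^ K = ((2 : ℝ) ^ K) ^ 5 := by
    rw [← pow_mul, mul_comm, pow_mul]; norm_num
  rw [hK'] at hK
  have hR1 : (1 : ℝ) ≤ (2 : ℝ) ^ K := one_le_pow₀ (by norm_num)
  generalize (2 : ℝ) ^ K = R at hK hN1 hN2 hR1 ⊢
  have hR0 : 0 < R := by linarith
  have hm1 : (0 : ℝ) < m := by linarith
  generalize (m : ℝ) = x at hK hN1 hN2 f1 f2 f3 f4 f5 hm1 ⊢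
  have hx4 : 1 ≤ x ^ 4 := one_le_pow₀ f5
  have hK2 : R ^ 5 < (32 * C5 + 1) * x ^ 4 := by linarith
  have hRδ : R ≤ δ * x := R_le _ δ x R hδp hm1 hK2 ((div_lt_iff₀ (by positivity)).1 f1)
  have hRx : R ≤ x := by
    have := R_le _ 1 x R one_pos hm1 hK2 (by rw [one_pow, mul_one]; exact f3)
    rwa [one_mul] at this
  have hN0 : (0 : ℝ) < N := lt_of_lt_of_le (by positivity) hN1
  have hN1' : (1 : ℝ) ≤ N := by
    have : 0 < N := by exact_mod_cast hN0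
    exact_mod_cast this
  have hDs : Real.sqrt c6 * x ^ 2 * R ^ 2 < D + 2 :=
    D_gt c6 x R N D h6 (Nat.cast_nonneg D) hN1 (by exact_mod_cast hD)
  have hlog0 : 0 ≤ Real.log x := Real.log_nonneg f5
  have t1 : C7 * x * (R ^ 2 * R) ≤ ε * (x ^ 2 * R ^ 2) := by
    refine term1 C7 ε x R R hm1 hR0 hR0.le ?_
    have h2 : (|C7| + 1) * R ≤ (|C7| + 1) * (δ * x) := mul_le_mul_of_nonneg_left hRδ hC7.le
    have h3 : (|C7| + 1) * (δ * x) = ε * x := by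
      rw [hδ]; field_simp
    rw [h3] at h2
    linarith
  have t2 : C7 * x * (R ^ 2 * (1 + Real.log x)) ≤ ε * (x ^ 2 * R ^ 2) :=
    term1 C7 ε x R _ hm1 hR0 (by linarith) (by linarith)
  have t3 : d * Real.log N + 2 * lp ≤ ε * (x ^ 2 * R ^ 2) :=
    term3 C6 d lp ε x R N hεp f5 hR1 hRx hN1' hN2 f4
  have key : C7 * x * (R ^ 3 + R ^ 2 * (1 + Real.log x)) + d * Real.log N < lp * D / 2 := by
    have h1 : 16 * (ε * (x ^ 2 * R ^ 2)) = lp * (Real.sqrt c6 * x ^ 2 * R ^ 2) := by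
      rw [hε]; ring
    have h2 : lp * (Real.sqrt c6 * x ^ 2 * R ^ 2) < lp * (D + 2) :=
      mul_lt_mul_of_pos_left hDs hlp
    have h3 : 0 < ε * (x ^ 2 * R ^ 2) := by positivity
    have h4 : C7 * x * (R ^ 3 + R ^ 2 * (1 + Real.log x)) =
      C7 * x * (R ^ 2 * R) + C7 * x * (R ^ 2 * (1 + Real.log x)) := by ring
    linarith
  have h1 := mul_lt_mul_of_pos_left key hN0
  calc _ < (N : ℝ) * (lp * D / 2) := h1
    _ = lp * D * (N / 2) := by ring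

end Pool.Agent.H73.HK
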