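import Pool.Agent.H73.HK.NUM

/-! The final inequality of the interpolation argument, in the form used by the assembly. -/

namespace Pool.Agent.H73.HK

private lemma rhs_le {c4 c5 x R l : ℝ} (h4 : 0 < c4) (h5 : 0 < c5) (hx : 1 ≤ x) (hR : 1 ≤ R)
    (hl : 0 ≤ l) (hlog : Real.log (1 + x * R) ≤ 1 + l + R) :
    c4 * x * (1 + R) ^ 2 * (1 + R + c5 * (1 + Real.log (1 + x * R))) ≤
      (c4 * 4 * (2 + 2 * c5)) * x * (R ^ 3 + R ^ 2 * (1 + l)) := by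
  have h1 : (1 + R) ^ 2 ≤ 4 * R ^ 2 := by nlinarith
  have h2 : 1 + R + c5 * (1 + Real.log (1 + x * R)) ≤ (2 + 2 * c5) * (R + (1 + l)) := by
    have h3 : c5 * (1 + Real.log (1 + x * R)) ≤ c5 * (2 + l + R) :=
      mul_le_mul_of_nonneg_left (by linarith) h5.le
    have h6 : 0 ≤ c5 * l := by positivity
    have h7 : 0 ≤ c5 * R := by positivity
    nlinarith
  have h8 : 0 ≤ c4 * x := by positivity
  have h9 : 0 ≤ (2 + 2 * c5) * (R + (1 + l)) := by positivity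
  calc c4 * x * (1 + R) ^ 2 * (1 + R + c5 * (1 + Real.log (1 + x * R)))
      ≤ c4 * x * (1 + R) ^ 2 * ((2 + 2 * c5) * (R + (1 + l))) :=
        mul_le_mul_of_nonneg_left h2 (by positivity)
    _ ≤ c4 * x * (4 * R ^ 2) * ((2 + 2 * c5) * (R + (1 + l))) := by
        apply mul_le_mul_of_nonneg_right _ h9
        exact mul_le_mul_of_nonneg_left h1 h8
    _ = (c4 * 4 * (2 + 2 * c5)) * x * (R ^ 3 + R ^ 2 * (1 + l)) := by ring

/-- For all constants there is `m0` such that for `m ≥ m0` the two sides of the interpolation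
argument are incompatible. -/
theorem num_assembly (c1 c2 c3 c4 c5 d P : ℝ) (h1 : 0 < c1) (h2 : 0 < c2) (h4 : 0 < c4)
    (h5 : 0 < c5) (hP : 0 < P) :
    ∃ m0 : ℕ, ∀ m : ℕ, m0 ≤ m → ∀ K N D : ℕ,
      ((2 : ℝ) ^ K) ^ 5 ≤ 32 * c1 * (m : ℝ) ^ 4 + 32 →
      c2 * (m : ℝ) ^ 4 * ((2 : ℝ) ^ K) ^ 4 ≤ N → (N : ℝ) ≤ c3 * (m : ℝ) ^ 4 * ((2 : ℝ) ^ K) ^ 4 →
      N < (D + 1) * (D + 2) →
      ¬ P * D * ((N : ℝ) / 2) ≤ N * (c4 * m * (1 + (2 : ℝ) ^ K) ^ 2 *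
        (1 + (2 : ℝ) ^ K + c5 * (1 + Real.log (1 + m * (2 : ℝ) ^ K)))) +
        d * N * Real.log N := by
  obtain ⟨m0, hm0⟩ := num P (c1 + 1) c2 c3 (c4 * 4 * (2 + 2 * c5)) d hP (by linarith) h2
  refine ⟨max m0 1, fun m hm K N D hK hN1 hN2 hD hcon => ?_⟩
  have hm1 : (1 : ℝ) ≤ m := by exact_mod_cast (le_max_right _ _).trans hm
  have hm4 : (1 : ℝ) ≤ (m : ℝ) ^ 4 := one_le_pow₀ hm1
  have hR1 : (1 : ℝ) ≤ (2 : ℝ) ^ K := one_le_pow₀ (by norm_num)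
  have hK' : (32 : ℝ) ^ K = ((2 : ℝ) ^ K) ^ 5 := by
    rw [← pow_mul, mul_comm, pow_mul]; norm_num
  have key := hm0 m ((le_max_left _ _).trans hm) K N D
    (by rw [hK']; nlinarith) hN1 hN2 hD
  have hlogm : 0 ≤ Real.log m := Real.log_nonneg hm1
  have hlog : Real.log (1 + m * (2 : ℝ) ^ K) ≤ 1 + Real.log m + (2 : ℝ) ^ K := by
    have e1 : 1 + m * (2 : ℝ) ^ K ≤ m * (1 + (2 : ℝ) ^ K) := by nlinarith
    have e2 : Real.log (1 + m * (2 : ℝ) ^ K) ≤ Real.log (m * (1 + (2 : ℝ) ^ K)) :=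
      Real.log_le_log (by positivity) e1
    rw [Real.log_mul (by positivity) (by positivity)] at e2
    have e3 : Real.log (1 + (2 : ℝ) ^ K) ≤ (2 : ℝ) ^ K := by
      have := Real.log_le_sub_one_of_pos (show (0 : ℝ) < 1 + (2 : ℝ) ^ K by positivity)
      linarith
    linarith
  have h6 := rhs_le h4 h5 hm1 hR1 hlogm hlog
  have h7 : (N : ℝ) * (c4 * m * (1 + (2 : ℝ) ^ K) ^ 2 *
        (1 + (2 : ℝ) ^ K + c5 * (1 + Real.log (1 + m * (2 : ℝ) ^ K)))) ≤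
      N * ((c4 * 4 * (2 + 2 * c5)) * m * (((2 : ℝ) ^ K) ^ 3 +
        ((2 : ℝ) ^ K) ^ 2 * (1 + Real.log m))) :=
    mul_le_mul_of_nonneg_left h6 (Nat.cast_nonneg N)
  have h8 : (N : ℝ) * ((c4 * 4 * (2 + 2 * c5)) * m * (((2 : ℝ) ^ K) ^ 3 +
        ((2 : ℝ) ^ K) ^ 2 * (1 + Real.log m)) + d * Real.log N) =
      N * ((c4 * 4 * (2 + 2 * c5)) * m * (((2 : ℝ) ^ K) ^ 3 +
        ((2 : ℝ) ^ K) ^ 2 * (1 + Real.log m))) + d * N * Real.log N := by ring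
  rw [h8] at key
  linarith

end Pool.Agent.H73.HK
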