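import Pool.Agent.H73.HK.Iface

/-!
# The parabolic group

`Para M L A r`: a free abelian group of rank `r` of automorphisms acting on `H^2` by the Eichler
transvections `x ↦ x + 2 q(L,x) b(n) - (2 q(b(n),x) + 2 q(b(n),b(n)) q(L,x)) L`.
-/

namespace Pool.Agent.H73.HK

/-- The parabolic group attached to an isotropic class `L` (internal to the proof). -/
structure Para {Lam : Type} [AddCommGroup Lam] {q : Lam → Lam → ℤ} (M : Manifold Lam q)
    (L A : Lam) (r : ℕ) where
  rho : (Fin r → ℤ) → M.Aut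
  rho_zero : rho 0 = 1
  rho_add : ∀ m n, rho (m + n) = rho m * rho n
  b : (Fin r → ℤ) →+ Lam
  b_NS : ∀ n, b n ∈ M.NS
  b_L : ∀ n, q (b n) L = 0
  b_A : ∀ n, q (b n) A = 0
  b_neg : ∀ n, n ≠ 0 → q (b n) (b n) < 0
  pull_eq : ∀ n x, M.pull (rho n) x =
    x + (2 * q L x) • b n - (2 * q (b n) x + 2 * q (b n) (b n) * q L x) • L

variable {Lam : Type} [AddCommGroup Lam] {q : Lam → Lam → ℤ} {M : Manifold Lam q} {L A : Lam}
  {r : ℕ}

/-- Passing to the subgroup of `m`-th powers. -/
def Para.mul (π : Para M L A r) (m : ℕ) (hm : 0 < m) : Para M L A r where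
  rho n := π.rho (m • n)
  rho_zero := by simpa using π.rho_zero
  rho_add a c := by rw [smul_add, π.rho_add]
  b := π.b.comp (nsmulAddMonoidHom m)
  b_NS n := π.b_NS _
  b_L n := π.b_L _
  b_A n := π.b_A _
  b_neg n hn := π.b_neg _ (by
    intro h
    exact hn (by
      funext i
      have := congrFun h i
      simp only [Pi.smul_apply, Pi.zero_apply, nsmul_eq_mul, nsmulAddMonoidHom_apply] at this
      rcases mul_eq_zero.1 this with h' | h'
      · exact absurd (by exact_mod_cast h') hm.ne'
      · exact h'))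
  pull_eq n x := π.pull_eq _ x

end Pool.Agent.H73.HK
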