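import Mathlib

/-!
# Nonzero minors of an evaluation matrix (module RANK)

Linearly independent functions have a nonzero determinant of values at suitable points.
-/

namespace Pool.Agent.H73.HK

open Finset

/-- Functions `f 0, …, f (N-1)` on a set `S` with no nontrivial linear relation have points
`x 0, …, x (N-1)` with nonzero determinant of values. -/
theorem exists_minor {K S : Type*} [Field K] {N : ℕ} (f : Fin N → S → K)
    (h : ∀ c : Fin N → K, (∀ x, ∑ j, c j * f j x = 0) → c = 0) :
    ∃ x : Fin N → S, Matrix.det (Matrix.of fun i j => f j (x i)) ≠ 0 := by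
  classical
  -- the rows `x ↦ (f j x)_j` span `K ^ N`
  have hspan : Submodule.span K (Set.range fun x : S => (fun j => f j x : Fin N → K)) = ⊤ := by
    by_contra hne
    obtain ⟨φ, hφ, hle⟩ := Submodule.exists_le_ker_of_lt_top _ (lt_top_iff_ne_top.mpr hne)
    apply hφ
    have hc := h (fun j => φ (Pi.single j 1)) (by
      intro x
      have h1 : φ (fun j => f j x) = 0 :=
        LinearMap.mem_ker.mp (hle (Submodule.subset_span ⟨x, rfl⟩))
      have h2 : (fun j => f j x : Fin N → K) = ∑ j, f j x • (Pi.single j 1 : Fin N → K) := by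
        funext k
        simp [Finset.sum_apply, Pi.single_apply]
      rw [h2, map_sum] at h1
      rw [← h1]
      refine Finset.sum_congr rfl fun j _ => ?_
      rw [map_smul, smul_eq_mul, mul_comm])
    refine LinearMap.pi_ext' fun j => LinearMap.ext_ring ?_
    have := congrFun hc j
    simpa using this
  obtain ⟨κ, a, hb, hli, hsp⟩ : ∃ (κ : Type _) (a : κ → S), True ∧
      LinearIndependent K (fun k => (fun j => f j (a k) : Fin N → K)) ∧
      Submodule.span K (Set.range fun k => (fun j => f j (a k) : Fin N → K)) = ⊤ := by
    obtain ⟨b, hbs, hbspan, hbli⟩ := exists_linearIndependent K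
      (Set.range fun x : S => (fun j => f j x : Fin N → K))
    choose a ha using fun k : b => hbs k.2
    refine ⟨b, a, trivial, ?_, ?_⟩
    · have : (fun k : b => (fun j => f j (a k) : Fin N → K)) = fun k : b => (k : Fin N → K) := by
        funext k
        exact ha k
      rw [this]
      exact hbli
    · have : (fun k : b => (fun j => f j (a k) : Fin N → K)) = fun k : b => (k : Fin N → K) := by
        funext k
        exact ha k
      rw [this, Subtype.range_coe, hbspan, hspan]
  let B : Module.Basis κ K (Fin N → K) := Module.Basis.mk hli (by rw [hsp])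
  have hfin : Finite κ := Module.Finite.finite_basis B
  have : Fintype κ := Fintype.ofFinite κ
  have hcard : Fintype.card κ = N := by
    have h1 := Module.finrank_eq_card_basis B
    rw [Module.finrank_fin_fun] at h1
    exact h1.symm
  let ε : Fin N ≃ κ := (Fintype.equivFinOfCardEq hcard).symm
  refine ⟨fun i => a (ε i), ?_⟩
  have hli2 : LinearIndependent K (fun i : Fin N => (fun j => f j (a (ε i)) : Fin N → K)) :=
    hli.comp ε ε.injective
  have hu := (Matrix.linearIndependent_rows_iff_isUnit
    (A := (Matrix.of fun i j => f j (a (ε i)) : Matrix (Fin N) (Fin N) K))).mp hli2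
  exact ((Matrix.isUnit_iff_isUnit_det _).mp hu).ne_zero

/-- The same with points in a subset. -/
theorem exists_minor_on {K S : Type*} [Field K] {N : ℕ} (T : Set S) (f : Fin N → S → K)
    (h : ∀ c : Fin N → K, (∀ x ∈ T, ∑ j, c j * f j x = 0) → c = 0) :
    ∃ x : Fin N → S, (∀ i, x i ∈ T) ∧ Matrix.det (Matrix.of fun i j => f j (x i)) ≠ 0 := by
  obtain ⟨x, hx⟩ := exists_minor (S := T) (fun j y => f j y.1)
    (fun c hc => h c fun y hy => hc ⟨y, hy⟩)
  exact ⟨fun i => (x i).1, fun i => (x i).2, hx⟩

end Pool.Agent.H73.HK
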